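import Mathlib

/-! Two perfect matchings of a cubic graph whose intersection contains no odd cut: 2-factors with at most four odd circuits.
Interface (definitions). -/
set_option autoImplicit false
open Finset

namespace H165R2.F5

variable {V E : Type} [DecidableEq V] [DecidableEq E]

/-- `dg Es inc S v`: the number of edges of `Es` in `S` at the vertex `v`. -/
def dg (Es : Finset E) (inc : E → Finset V) (S : Finset E) (v : V) : ℕ :=
  (Es.filter (fun e => v ∈ inc e ∧ e ∈ S)).card

/-- the edge cut of `X`. -/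
def cut (Es : Finset E) (inc : E → Finset V) (X : Finset V) : Finset E :=
  Es.filter (fun e => (inc e ∩ X).card = 1)

/-- A finite bridgeless loopless cubic multigraph (vertex set `Vs`, edge set `Es`, `inc e` the two ends of `e`)
with an edge set `M` having odd degree (1 or 3) at each vertex. -/
structure Inst (Vs : Finset V) (Es : Finset E) (inc : E → Finset V) (M : Finset E) : Prop where
  sub : ∀ e ∈ Es, inc e ⊆ Vs
  two : ∀ e ∈ Es, (inc e).card = 2
  three : ∀ v ∈ Vs, (Es.filter (fun e => v ∈ inc e)).card = 3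
  bridgeless : ∀ X : Finset V, (cut Es inc X).card ≠ 1
  odd : ∀ v ∈ Vs, Odd (dg Es inc M v)

/-- no edge outside `M` leaves `Y`. -/
def Closed (Es : Finset E) (inc : E → Finset V) (M : Finset E) (Y : Finset V) : Prop :=
  ∀ e ∈ Es, e ∉ M → (inc e ∩ Y).card ≠ 1

/-- `A` meets every odd set closed under the edges outside `M` (so it meets each odd component of `G - M`). -/
def Hit (Vs : Finset V) (Es : Finset E) (inc : E → Finset V) (M : Finset E) (A : Finset V) : Prop :=
  ∀ Y ⊆ Vs, Closed Es inc M Y → Odd Y.card → ∃ v ∈ A, v ∈ Y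

/-- `N` is a perfect matching, `J` has all degrees odd, and no edge is in all of `M, N, J`. -/
structure Pair (Vs : Finset V) (Es : Finset E) (inc : E → Finset V) (M N J : Finset E) : Prop where
  one : ∀ v ∈ Vs, dg Es inc N v = 1
  oddJ : ∀ v ∈ Vs, Odd (dg Es inc J v)
  disj : ∀ f ∈ Es, ¬ (f ∈ M ∧ f ∈ N ∧ f ∈ J)

/-- there is such a pair with `e ∈ N`. -/
def Good (Vs : Finset V) (Es : Finset E) (inc : E → Finset V) (M : Finset E) (e : E) : Prop :=
  ∃ N J : Finset E, e ∈ N ∧ Pair Vs Es inc M N J

/-- no nontrivial cut has fewer than four edges. -/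
def Cut4 (Vs : Finset V) (Es : Finset E) (inc : E → Finset V) : Prop :=
  ∀ X ⊆ Vs, 2 ≤ X.card → X.card + 2 ≤ Vs.card → 4 ≤ (cut Es inc X).card

/-- the configuration of the corner reduction: `x y` an edge outside `M`, the other edges at `y` go to `v` (in `M`) and `b`
(not in `M`), the other edges at `x` go to `u` (in `M`) and `a` (not in `M`). -/
structure Conf (Vs : Finset V) (Es : Finset E) (inc : E → Finset V) (M : Finset E)
    (x y a b u v : V) (exy eyv eyb exu exa : E) : Prop where
  hxy : exy ∈ Es ∧ inc exy = {x, y} ∧ exy ∉ M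
  hyv : eyv ∈ Es ∧ inc eyv = {y, v} ∧ eyv ∈ M
  hyb : eyb ∈ Es ∧ inc eyb = {y, b} ∧ eyb ∉ M
  hxu : exu ∈ Es ∧ inc exu = {x, u} ∧ exu ∈ M
  hxa : exa ∈ Es ∧ inc exa = {x, a} ∧ exa ∉ M
  nxy : x ≠ y
  na : a ≠ x ∧ a ≠ y
  nb : b ≠ x ∧ b ≠ y
  nu : u ≠ x ∧ u ≠ y
  nv : v ≠ x ∧ v ≠ y
  nab : a ≠ b
  nuv : u ≠ v

/-- edges of the reduced graph -/
def redE (Es : Finset E) (exy eyv eyb : E) : Finset E := ((Es.erase exy).erase eyv).erase eyb

/-- ends in the reduced graph: the edge `exu` becomes `uv`, the edge `exa` becomes `ab`. -/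
def redI (inc : E → Finset V) (a b u v : V) (exu exa : E) : E → Finset V :=
  Function.update (Function.update inc exu {u, v}) exa {a, b}

/-- contraction of the complement of `X` to the vertex `z` -/
def conI (inc : E → Finset V) (X : Finset V) (z : V) : E → Finset V :=
  fun e => (inc e).image (fun v => if v ∈ X then v else z)

/-- edges touching `X` -/
def conE (Es : Finset E) (inc : E → Finset V) (X : Finset V) : Finset E :=
  Es.filter (fun e => (inc e ∩ X).Nonempty)

end H165R2.F5
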