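import Mathlib
import Pool.Agent.H165R2.F5.Iface

/-! F5 project: exact statements of the tasks. Each `S_XX` is to be proved as `theorem T_XX : S_XX`. -/
set_option autoImplicit false
open Finset

namespace H165R2.F5

/-- DR: degrees in the reduced graph. -/
def S_DR : Prop := ∀ (V E : Type) [DecidableEq V] [DecidableEq E] (Vs : Finset V) (Es : Finset E) (inc : E → Finset V)
  (M : Finset E) (x y a b u v : V) (exy eyv eyb exu exa : E), Inst Vs Es inc M →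
  Conf Vs Es inc M x y a b u v exy eyv eyb exu exa →
  ∀ (S : Finset E), (eyv ∈ S ↔ exu ∈ S) → (eyb ∈ S ↔ exa ∈ S) → ∀ w : V, w ≠ x → w ≠ y →
  dg (redE Es exy eyv eyb) (redI inc a b u v exu exa) S w = dg Es inc S w

/-- SX: the stars of `x` and `y`. -/
def S_SX : Prop := ∀ (V E : Type) [DecidableEq V] [DecidableEq E] (Vs : Finset V) (Es : Finset E) (inc : E → Finset V)
  (M : Finset E) (x y a b u v : V) (exy eyv eyb exu exa : E), Inst Vs Es inc M →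
  Conf Vs Es inc M x y a b u v exy eyv eyb exu exa →
  (Es.filter (fun e => x ∈ inc e) = {exy, exu, exa}) ∧ (Es.filter (fun e => y ∈ inc e) = {exy, eyv, eyb}) ∧
  exy ≠ exu ∧ exy ≠ exa ∧ exu ≠ exa ∧ exy ≠ eyv ∧ exy ≠ eyb ∧ eyv ≠ eyb ∧
  exu ≠ eyv ∧ exu ≠ eyb ∧ exa ≠ eyv ∧ exa ≠ eyb

/-- RI: the reduced graph is an instance. -/
def S_RI : Prop := ∀ (V E : Type) [DecidableEq V] [DecidableEq E] (Vs : Finset V) (Es : Finset E) (inc : E → Finset V)
  (M : Finset E) (x y a b u v : V) (exy eyv eyb exu exa : E), Inst Vs Es inc M → Cut4 Vs Es inc →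
  Conf Vs Es inc M x y a b u v exy eyv eyb exu exa →
  Inst ((Vs.erase x).erase y) (redE Es exy eyv eyb) (redI inc a b u v exu exa) M

/-- RB: the reduced graph is bridgeless (part of RI). -/
def S_RB : Prop := ∀ (V E : Type) [DecidableEq V] [DecidableEq E] (Vs : Finset V) (Es : Finset E) (inc : E → Finset V)
  (M : Finset E) (x y a b u v : V) (exy eyv eyb exu exa : E), Inst Vs Es inc M → Cut4 Vs Es inc →
  Conf Vs Es inc M x y a b u v exy eyv eyb exu exa →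
  ∀ X : Finset V, (cut (redE Es exy eyv eyb) (redI inc a b u v exu exa) X).card ≠ 1

/-- RH: a hitting set for the reduced graph. -/
def S_RH : Prop := ∀ (V E : Type) [DecidableEq V] [DecidableEq E] (Vs : Finset V) (Es : Finset E) (inc : E → Finset V)
  (M : Finset E) (x y a b u v : V) (exy eyv eyb exu exa : E), Inst Vs Es inc M →
  Conf Vs Es inc M x y a b u v exy eyv eyb exu exa → ∀ A : Finset V, Hit Vs Es inc M A →
  ∃ A' : Finset V, A'.card ≤ A.card ∧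
    Hit ((Vs.erase x).erase y) (redE Es exy eyv eyb) (redI inc a b u v exu exa) M A'

/-- RG: lifting a good pair from the reduced graph. -/
def S_RG : Prop := ∀ (V E : Type) [DecidableEq V] [DecidableEq E] (Vs : Finset V) (Es : Finset E) (inc : E → Finset V)
  (M : Finset E) (x y a b u v : V) (exy eyv eyb exu exa : E), Inst Vs Es inc M →
  Conf Vs Es inc M x y a b u v exy eyv eyb exu exa →
  ∀ e ∈ Es, x ∉ inc e → y ∉ inc e → (a ∈ inc e ∨ b ∈ inc e ∨ u ∈ inc e ∨ v ∈ inc e) →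
  Good ((Vs.erase x).erase y) (redE Es exy eyv eyb) (redI inc a b u v exu exa) M e → Good Vs Es inc M e

/-- CD: degrees after contraction. -/
def S_CD : Prop := ∀ (V E : Type) [DecidableEq V] [DecidableEq E] (Vs : Finset V) (Es : Finset E) (inc : E → Finset V)
  (M : Finset E) (X : Finset V) (z : V), Inst Vs Es inc M → X ⊆ Vs → z ∈ Vs → z ∉ X →
  (∀ (S : Finset E) (w : V), w ∈ X → dg (conE Es inc X) (conI inc X z) S w = dg Es inc S w) ∧
  (∀ S : Finset E, dg (conE Es inc X) (conI inc X z) S z = ((cut Es inc X).filter (· ∈ S)).card) ∧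
  (∀ e ∈ Es, z ∈ conI inc X z e ∧ e ∈ conE Es inc X ↔ e ∈ cut Es inc X)

/-- CI: the contraction at a 3-cut is an instance. -/
def S_CI : Prop := ∀ (V E : Type) [DecidableEq V] [DecidableEq E] (Vs : Finset V) (Es : Finset E) (inc : E → Finset V)
  (M : Finset E) (X : Finset V) (z : V), Inst Vs Es inc M → X ⊆ Vs → z ∈ Vs → z ∉ X → (cut Es inc X).card = 3 →
  Inst (insert z X) (conE Es inc X) (conI inc X z) M

/-- CH: a hitting set for the contraction. -/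
def S_CH : Prop := ∀ (V E : Type) [DecidableEq V] [DecidableEq E] (Vs : Finset V) (Es : Finset E) (inc : E → Finset V)
  (M : Finset E) (X : Finset V) (z : V), Inst Vs Es inc M → X ⊆ Vs → z ∈ Vs → z ∉ X → (cut Es inc X).card = 3 →
  ∀ A : Finset V, Hit Vs Es inc M A →
  ∃ A' : Finset V, A'.card ≤ A.card ∧ Hit (insert z X) (conE Es inc X) (conI inc X z) M A'

/-- AD: adjusting `J` at one vertex. -/
def S_AD : Prop := ∀ (V E : Type) [DecidableEq V] [DecidableEq E] (Vs : Finset V) (Es : Finset E) (inc : E → Finset V)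
  (M N J Q : Finset E) (z : V), Inst Vs Es inc M → Pair Vs Es inc M N J → z ∈ Vs →
  Q ⊆ Es.filter (fun e => z ∈ inc e) → Odd Q.card → (∀ f ∈ Q, ¬ (f ∈ M ∧ f ∈ N)) →
  ∃ J' : Finset E, Pair Vs Es inc M N J' ∧ ∀ f ∈ Es, z ∈ inc f → (f ∈ J' ↔ f ∈ Q)

/-- GL: gluing along a 3-cut. -/
def S_GL : Prop := ∀ (V E : Type) [DecidableEq V] [DecidableEq E] (Vs : Finset V) (Es : Finset E) (inc : E → Finset V)
  (M : Finset E) (X : Finset V) (z₁ z₂ : V), Inst Vs Es inc M → X ⊆ Vs → z₁ ∈ Vs → z₁ ∉ X → z₂ ∈ X →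
  (cut Es inc X).card = 3 → ∀ N₁ J₁ N₂ J₂ : Finset E,
  Pair (insert z₁ X) (conE Es inc X) (conI inc X z₁) M N₁ J₁ →
  Pair (insert z₂ (Vs \ X)) (conE Es inc (Vs \ X)) (conI inc (Vs \ X) z₂) M N₂ J₂ →
  (∀ f ∈ cut Es inc X, (f ∈ N₁ ↔ f ∈ N₂) ∧ (f ∈ J₁ ↔ f ∈ J₂)) →
  ∃ N J : Finset E, Pair Vs Es inc M N J ∧ (∀ f ∈ conE Es inc X, (f ∈ N ↔ f ∈ N₁)) ∧
    (∀ f ∈ conE Es inc (Vs \ X), (f ∈ N ↔ f ∈ N₂))

/-- GS: the gluing step of the induction. -/
def S_GS : Prop := ∀ (V E : Type) [DecidableEq V] [DecidableEq E] (Vs : Finset V) (Es : Finset E) (inc : E → Finset V)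
  (M A X : Finset _) (e : E), Inst Vs Es inc M → Hit Vs Es inc M A → X ⊆ Vs → (cut Es inc X).card = 3 →
  3 ≤ X.card → X.card + 3 ≤ Vs.card → e ∈ Es →
  (∀ (Vs' : Finset V) (Es' : Finset E) (inc' : E → Finset V) (A' : Finset V) (e' : E), Inst Vs' Es' inc' M →
    Hit Vs' Es' inc' M A' → A'.card ≤ A.card → e' ∈ Es' → Vs'.card < Vs.card → Good Vs' Es' inc' M e') →
  Good Vs Es inc M e

/-- C4: no nontrivial 3-cut implies no nontrivial cut with at most three edges. -/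
def S_C4 : Prop := ∀ (V E : Type) [DecidableEq V] [DecidableEq E] (Vs : Finset V) (Es : Finset E) (inc : E → Finset V)
  (M : Finset E), Inst Vs Es inc M → 6 ≤ Vs.card →
  (∀ X ⊆ Vs, 3 ≤ X.card → X.card + 3 ≤ Vs.card → (cut Es inc X).card ≠ 3) → Cut4 Vs Es inc

/-- GI: girth at least four. -/
def S_GI : Prop := ∀ (V E : Type) [DecidableEq V] [DecidableEq E] (Vs : Finset V) (Es : Finset E) (inc : E → Finset V)
  (M : Finset E), Inst Vs Es inc M → 6 ≤ Vs.card → Cut4 Vs Es inc →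
  (∀ e ∈ Es, ∀ f ∈ Es, e ≠ f → inc e ≠ inc f) ∧
  (∀ e ∈ Es, ∀ f ∈ Es, ∀ g ∈ Es, ∀ p q r : V, p ≠ q → q ≠ r → p ≠ r → inc e = {p, q} → inc f = {q, r} →
    inc g = {p, r} → False)

/-- FC: finding the configuration near `e`. -/
def S_FC : Prop := ∀ (V E : Type) [DecidableEq V] [DecidableEq E] (Vs : Finset V) (Es : Finset E) (inc : E → Finset V)
  (M A : Finset _) (e : E), Inst Vs Es inc M → 6 ≤ Vs.card → Cut4 Vs Es inc → Hit Vs Es inc M A → A.card ≤ 4 → e ∈ Es →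
  ∃ (x y a b u v : V) (exy eyv eyb exu exa : E), Conf Vs Es inc M x y a b u v exy eyv eyb exu exa ∧
    x ∉ inc e ∧ y ∉ inc e ∧ (a ∈ inc e ∨ b ∈ inc e ∨ u ∈ inc e ∨ v ∈ inc e)

/-- BS: the base of the induction. -/
def S_BS : Prop := ∀ (V E : Type) [DecidableEq V] [DecidableEq E] (Vs : Finset V) (Es : Finset E) (inc : E → Finset V)
  (M : Finset E) (e : E), Inst Vs Es inc M → Vs.card < 6 → e ∈ Es → Good Vs Es inc M e

/-- MN: the main theorem. -/
def S_MN : Prop := ∀ (V E : Type) [DecidableEq V] [DecidableEq E] (Vs : Finset V) (Es : Finset E) (inc : E → Finset V)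
  (M A : Finset _) (e : E), Inst Vs Es inc M → Hit Vs Es inc M A → A.card ≤ 4 → e ∈ Es → Good Vs Es inc M e

/-- OC: `M ∩ N` contains no odd cut. -/
def S_OC : Prop := ∀ (V E : Type) [DecidableEq V] [DecidableEq E] (Vs : Finset V) (Es : Finset E) (inc : E → Finset V)
  (M N J : Finset E), Inst Vs Es inc M → Pair Vs Es inc M N J → ∀ X : Finset V, Odd (cut Es inc X).card →
  ∃ f ∈ cut Es inc X, ¬ (f ∈ M ∧ f ∈ N)

/-- HC: a set of representatives of the odd components hits every odd closed set. -/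
def S_HC : Prop := ∀ (V : Type) [Fintype V] [DecidableEq V] (H : SimpleGraph V) (k : ℕ), H.oddComponents.ncard ≤ k →
  ∃ A : Finset V, A.card ≤ k ∧ ∀ Y : Finset V, (∀ p q : V, H.Adj p q → p ∈ Y → q ∈ Y) → Odd Y.card → ∃ v ∈ A, v ∈ Y

/-- the graph formed by the edges outside `M`. -/
def offGraph {V E : Type} (ends : E → Sym2 V) (M : Set E) : SimpleGraph V where
  Adj p q := p ≠ q ∧ ∃ e, e ∉ M ∧ p ∈ ends e ∧ q ∈ ends e
  symm := ⟨fun _ _ h => ⟨h.1.symm, h.2.imp fun _ h' => ⟨h'.1, h'.2.2, h'.2.1⟩⟩⟩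
  loopless := ⟨fun _ h => h.1 rfl⟩

/-- F1: the theorem for multigraphs (MP_1dc4d0_co). -/
def S_F1 : Prop := ∀ (V E : Type) [Fintype V] [Fintype E] (ends : E → Sym2 V),
      (∀ e : E, ∃ x y : V, x ≠ y ∧ x ∈ ends e ∧ y ∈ ends e) →
      (∀ v : V, {e : E | v ∈ ends e}.ncard = 3) →
      (∀ (S : Set V) (b : E),
        ¬ (∀ e : E, (∃ x y : V, x ∈ ends e ∧ y ∈ ends e ∧ x ∈ S ∧ y ∉ S) ↔ e = b)) →
      ∀ M₁ : Set E, (∀ v : V, ∃! e : E, e ∈ M₁ ∧ v ∈ ends e) → (offGraph ends M₁).oddComponents.ncard ≤ 4 →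
      ∀ e₀ : E, ∃ M₂ : Set E, e₀ ∈ M₂ ∧
        (∀ v : V, ∃! e : E, e ∈ M₂ ∧ v ∈ ends e) ∧
        ∀ S : Set V,
          Odd {e : E | ∃ x y : V, x ∈ ends e ∧ y ∈ ends e ∧ x ∈ S ∧ y ∉ S}.ncard →
          ¬ (∀ e : E, (∃ x y : V, x ∈ ends e ∧ y ∈ ends e ∧ x ∈ S ∧ y ∉ S) →
              e ∈ M₁ ∧ e ∈ M₂)

/-- F2: `F_5`-flows (MP_994f6a_co). -/
def S_F2 : Prop := ∀ (V E : Type) [Fintype V] [DecidableEq V] [Fintype E] [DecidableEq E] (h t : E → V),
      (∀ e, h e ≠ t e) →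
      (∀ v, (Finset.univ.filter (fun e => h e = v)).card
              + (Finset.univ.filter (fun e => t e = v)).card = 3) →
      (∀ S : Finset V,
        (Finset.univ.filter (fun e => (h e ∈ S ∧ t e ∉ S) ∨ (h e ∉ S ∧ t e ∈ S))).card ≠ 1) →
      (∃ M : Set E, (∀ v : V, ∃! e : E, e ∈ M ∧ v ∈ s(h e, t e)) ∧
        (offGraph (fun e => s(h e, t e)) M).oddComponents.ncard ≤ 4) →
      ∃ f : E → (Fin 3 → ZMod 2),
        (∀ e, f e ≠ 0) ∧
        (∀ v, (∑ e ∈ Finset.univ.filter (fun e => h e = v), f e)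
              + (∑ e ∈ Finset.univ.filter (fun e => t e = v), f e) = 0) ∧
        (Finset.univ.image
          (fun v => (Finset.univ.filter (fun e => h e = v ∨ t e = v)).image f)).card ≤ 5

/-- F3: covers by three cycles, two of them 2-factors (MP_c95763_co). -/
def S_F3 : Prop := ∀ (V : Type) [Fintype V] (G : SimpleGraph V),
      (∀ v : V, (G.neighborSet v).ncard = 3) →
      (∀ v w : V, G.Adj v w → (G.deleteEdges {s(v, w)}).Reachable v w) →
      ∀ F₁ : SimpleGraph V, F₁ ≤ G → (∀ v : V, (F₁.neighborSet v).ncard = 2) → F₁.oddComponents.ncard ≤ 4 →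
      ∃ F₂ C : SimpleGraph V,
        F₂ ≤ G ∧ C ≤ G ∧
        (∀ v : V, (F₂.neighborSet v).ncard = 2) ∧
        (∀ v : V, Even ((C.neighborSet v).ncard)) ∧
        F₁ ⊔ F₂ ⊔ C = G

/-- JN: from sets to a pair of edge sets: the version of MN with types (used by F1, F2, F3). -/
def S_JN : Prop := ∀ (V E : Type) [Fintype V] [Fintype E] (ends : E → Sym2 V),
      (∀ e : E, ∃ x y : V, x ≠ y ∧ x ∈ ends e ∧ y ∈ ends e) →
      (∀ v : V, {e : E | v ∈ ends e}.ncard = 3) →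
      (∀ (S : Set V) (b : E),
        ¬ (∀ e : E, (∃ x y : V, x ∈ ends e ∧ y ∈ ends e ∧ x ∈ S ∧ y ∉ S) ↔ e = b)) →
      ∀ M₁ : Set E, (∀ v : V, ∃! e : E, e ∈ M₁ ∧ v ∈ ends e) → (offGraph ends M₁).oddComponents.ncard ≤ 4 →
      ∀ e₀ : E, ∃ M₂ J : Set E, e₀ ∈ M₂ ∧
        (∀ v : V, ∃! e : E, e ∈ M₂ ∧ v ∈ ends e) ∧
        (∀ v : V, Odd {e : E | e ∈ J ∧ v ∈ ends e}.ncard) ∧
        (∀ e : E, ¬ (e ∈ M₁ ∧ e ∈ M₂ ∧ e ∈ J)) ∧
        ∀ S : Set V,
          Odd {e : E | ∃ x y : V, x ∈ ends e ∧ y ∈ ends e ∧ x ∈ S ∧ y ∉ S}.ncard →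
          ¬ (∀ e : E, (∃ x y : V, x ∈ ends e ∧ y ∈ ends e ∧ x ∈ S ∧ y ∉ S) →
              e ∈ M₁ ∧ e ∈ M₂)

end H165R2.F5
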