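import Mathlib
import Pool.Agent.H165R2.F5.Stubs

/-! AD: adjusting `J` at one vertex. -/
set_option autoImplicit false
set_option maxRecDepth 100000

open Finset

namespace H165R2.F5

namespace ADx

/-- the finite check at the vertex `z` -/
theorem key : ∀ m₁ m₂ m₃ n₁ n₂ n₃ : Bool, (m₁ ^^ (m₂ ^^ m₃)) = true →
    ((n₁ ^^ (n₂ ^^ n₃)) && !(n₁ && n₂ && n₃)) = true →
    ∀ j₁ j₂ j₃ q₁ q₂ q₃ : Bool,
    (j₁ ^^ (j₂ ^^ j₃)) = true → (q₁ ^^ (q₂ ^^ q₃)) = true →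
    (m₁ && (n₁ && j₁)) = false → (m₂ && (n₂ && j₂)) = false → (m₃ && (n₃ && j₃)) = false →
    (m₁ && (n₁ && q₁)) = false → (m₂ && (n₂ && q₂)) = false → (m₃ && (n₃ && q₃)) = false →
    ∃ α β : Bool, (j₁ ^^ ((α && !m₁) ^^ (β && (m₁ ^^ n₁)))) = q₁ ∧
      (j₂ ^^ ((α && !m₂) ^^ (β && (m₂ ^^ n₂)))) = q₂ ∧
      (j₃ ^^ ((α && !m₃) ^^ (β && (m₃ ^^ n₃)))) = q₃ := by
  decide

/-- the parity at each vertex -/
theorem par : ∀ α β m₁ m₂ m₃ n₁ n₂ n₃ : Bool, (m₁ ^^ (m₂ ^^ m₃)) = true →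
    (n₁ ^^ (n₂ ^^ n₃)) = true → ∀ j₁ j₂ j₃ : Bool, (j₁ ^^ (j₂ ^^ j₃)) = true →
    ((j₁ ^^ ((α && !m₁) ^^ (β && (m₁ ^^ n₁)))) ^^
      ((j₂ ^^ ((α && !m₂) ^^ (β && (m₂ ^^ n₂)))) ^^
      (j₃ ^^ ((α && !m₃) ^^ (β && (m₃ ^^ n₃)))))) = true := by
  decide

variable {V E : Type} [DecidableEq V] [DecidableEq E]

/-- the three edges at a vertex -/
theorem star {Vs : Finset V} {Es : Finset E} {inc : E → Finset V} {M : Finset E}
    (h : Inst Vs Es inc M) {v : V} (hv : v ∈ Vs) :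
    ∃ d₁ d₂ d₃ : E, d₁ ∈ Es ∧ d₂ ∈ Es ∧ d₃ ∈ Es ∧
      (∀ f ∈ Es, v ∈ inc f ↔ f = d₁ ∨ f = d₂ ∨ f = d₃) ∧
      (∀ S : Finset E, dg Es inc S v = (if d₁ ∈ S then 1 else 0) + ((if d₂ ∈ S then 1 else 0) +
        (if d₃ ∈ S then 1 else 0))) := by
  obtain ⟨d₁, d₂, d₃, h12, h13, h23, hs⟩ := Finset.card_eq_three.1 (h.three v hv)
  have hm : ∀ f, f ∈ Es.filter (fun e => v ∈ inc e) ↔ f = d₁ ∨ f = d₂ ∨ f = d₃ := by
    intro f
    rw [hs]
    simp
  refine ⟨d₁, d₂, d₃, ?_, ?_, ?_, ?_, ?_⟩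
  · exact (Finset.mem_filter.1 ((hm d₁).2 (Or.inl rfl))).1
  · exact (Finset.mem_filter.1 ((hm d₂).2 (Or.inr (Or.inl rfl)))).1
  · exact (Finset.mem_filter.1 ((hm d₃).2 (Or.inr (Or.inr rfl)))).1
  · intro f hf
    rw [← hm f, Finset.mem_filter]
    exact ⟨fun h' => ⟨hf, h'⟩, fun h' => h'.2⟩
  · intro S
    have e1 : Es.filter (fun e => v ∈ inc e ∧ e ∈ S)
        = (Es.filter (fun e => v ∈ inc e)).filter (fun e => e ∈ S) := by
      rw [Finset.filter_filter]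
    rw [dg, e1, hs, Finset.card_filter, Finset.sum_insert (by simp [h12, h13]),
      Finset.sum_insert (by simp [h23]), Finset.sum_singleton]

theorem odd_iff (a b c : Prop) [Decidable a] [Decidable b] [Decidable c] :
    Odd ((if a then 1 else 0) + ((if b then 1 else 0) + (if c then 1 else 0))) ↔
      ((decide a) ^^ ((decide b) ^^ (decide c))) = true := by
  by_cases ha : a <;> by_cases hb : b <;> by_cases hc : c <;> simp [ha, hb, hc] <;> decide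

theorem one_iff (a b c : Prop) [Decidable a] [Decidable b] [Decidable c]
    (h : (if a then 1 else 0) + ((if b then 1 else 0) + (if c then 1 else 0)) = 1) :
      (((decide a) ^^ ((decide b) ^^ (decide c))) &&
        !((decide a) && (decide b) && (decide c))) = true := by
  by_cases ha : a <;> by_cases hb : b <;> by_cases hc : c <;> simp [ha, hb, hc] at h ⊢

end ADx

theorem T_AD : S_AD := by
  intro V E _ _ Vs Es inc M N J Q z hI hP hz hQ hQo hQd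
  classical
  obtain ⟨d₁, d₂, d₃, hd₁, hd₂, hd₃, hst, hdg⟩ := ADx.star hI hz
  have hM := hI.odd z hz
  have hN := hP.one z hz
  have hJ := hP.oddJ z hz
  have hQc : dg Es inc Q z = Q.card := by
    rw [dg]
    congr 1
    ext f
    rw [Finset.mem_filter]
    constructor
    · exact fun h => h.2.2
    · intro h
      have := Finset.mem_filter.1 (hQ h)
      exact ⟨this.1, this.2, h⟩
  rw [← hQc] at hQo
  rw [hdg, ADx.odd_iff] at hM hJ hQo
  rw [hdg] at hN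
  have hN' := ADx.one_iff _ _ _ hN
  have hJd : ∀ f ∈ Es, (decide (f ∈ M) && (decide (f ∈ N) && decide (f ∈ J))) = false := by
    intro f hf
    have := hP.disj f hf
    by_cases h1 : f ∈ M <;> by_cases h2 : f ∈ N <;> by_cases h3 : f ∈ J <;>
      simp [h1, h2, h3] at this ⊢
  have hQd' : ∀ f ∈ Es, (decide (f ∈ M) && (decide (f ∈ N) && decide (f ∈ Q))) = false := by
    intro f hf
    by_cases h3 : f ∈ Q
    · have := hQd f h3
      by_cases h1 : f ∈ M <;> by_cases h2 : f ∈ N <;> simp [h1, h2] at this ⊢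
    · simp [h3]
  obtain ⟨α, β, h₁, h₂, h₃⟩ := ADx.key _ _ _ _ _ _ hM hN' _ _ _ _ _ _ hJ hQo
    (hJd d₁ hd₁) (hJd d₂ hd₂) (hJd d₃ hd₃) (hQd' d₁ hd₁) (hQd' d₂ hd₂) (hQd' d₃ hd₃)
  set J' : Finset E := Es.filter (fun f => (decide (f ∈ J) ^^ ((α && !decide (f ∈ M)) ^^
    (β && (decide (f ∈ M) ^^ decide (f ∈ N))))) = true) with hJ'
  have hmem : ∀ f ∈ Es, decide (f ∈ J') = (decide (f ∈ J) ^^ ((α && !decide (f ∈ M)) ^^
    (β && (decide (f ∈ M) ^^ decide (f ∈ N))))) := by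
    intro f hf
    rw [Bool.eq_iff_iff, decide_eq_true_iff, hJ', Finset.mem_filter]
    exact ⟨fun h => h.2, fun h => ⟨hf, h⟩⟩
  refine ⟨J', ⟨hP.one, ?_, ?_⟩, ?_⟩
  · intro v hv
    obtain ⟨c₁, c₂, c₃, hc₁, hc₂, hc₃, -, hcdg⟩ := ADx.star hI hv
    have hMv := hI.odd v hv
    have hNv := hP.one v hv
    have hJv := hP.oddJ v hv
    have hNv' : Odd (dg Es inc N v) := by
      rw [hNv]
      exact odd_one
    rw [hcdg, ADx.odd_iff] at hMv hJv hNv' ⊢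
    rw [hmem _ hc₁, hmem _ hc₂, hmem _ hc₃]
    exact ADx.par α β _ _ _ _ _ _ hMv hNv' _ _ _ hJv
  · rintro f hf ⟨h1, h2, h3⟩
    have h4 := hP.disj f hf
    have h5 := hmem f hf
    by_cases h6 : f ∈ J
    · exact h4 ⟨h1, h2, h6⟩
    · simp [h1, h2, h3, h6] at h5
  · intro f hf hzf
    have h5 := hmem f hf
    rcases (hst f hf).1 hzf with rfl | rfl | rfl
    · rw [h₁] at h5
      simpa using h5
    · rw [h₂] at h5
      simpa using h5
    · rw [h₃] at h5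
      simpa using h5

end H165R2.F5
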