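import Mathlib
import Pool.Agent.H165R2.F5.Stubs

/-! BS: the base of the induction (fewer than six vertices). -/
set_option autoImplicit false
open Finset

namespace H165R2.F5

namespace BSx

variable {V E : Type} [DecidableEq V] [DecidableEq E]

/-- handshake -/
theorem shake (inc : E → Finset V) (S : Finset E) (X : Finset V) :
    ∑ v ∈ X, (S.filter (fun e => v ∈ inc e)).card = ∑ e ∈ S, (inc e ∩ X).card := by
  have h := Finset.sum_card_bipartiteAbove_eq_sum_card_bipartiteBelow (s := X) (t := S)
    (fun v e => v ∈ inc e)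
  simp only [bipartiteAbove, bipartiteBelow] at h
  rw [h]
  apply sum_congr rfl
  intro e _
  congr 1
  ext v
  simp [and_comm]

theorem count (inc : E → Finset V) (S : Finset E) (Vs P : Finset V) (r : ℕ) (hP : P ⊆ Vs)
    (hP2 : P.card = 2) (hV : Vs.card = 4) (hsub : ∀ e ∈ S, inc e ⊆ Vs)
    (htwo : ∀ e ∈ S, (inc e).card = 2)
    (hr : ∀ v ∈ Vs, (S.filter (fun e => v ∈ inc e)).card = r) :
    (S.filter (fun e => inc e = P)).card = (S.filter (fun e => inc e = Vs \ P)).card := by
  have hQ2 : (Vs \ P).card = 2 := by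
    rw [card_sdiff_of_subset hP, hV, hP2]
  have h1 : ∑ e ∈ S, (inc e ∩ P).card = 2 * r := by
    rw [← shake, sum_congr rfl (fun v hv => hr v (hP hv)), sum_const, hP2, smul_eq_mul]
  have h2 : ∑ e ∈ S, (inc e ∩ (Vs \ P)).card = 2 * r := by
    rw [← shake, sum_congr rfl (fun v hv => hr v (sdiff_subset hv)), sum_const, hQ2, smul_eq_mul]
  have h3 : ∀ e ∈ S, (inc e ∩ P).card + 2 * (if inc e = Vs \ P then 1 else 0) =
      (inc e ∩ (Vs \ P)).card + 2 * (if inc e = P then 1 else 0) := by
    intro e he
    have hPQ : P ≠ Vs \ P := by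
      intro h
      have h0 : P ∩ P = ∅ := by
        nth_rewrite 2 [h]
        exact inter_sdiff_self P Vs
      rw [inter_self] at h0
      rw [h0] at hP2
      simp at hP2
    by_cases hA : inc e = P
    · rw [if_neg (by rw [hA]; exact hPQ), if_pos hA, hA, inter_self, inter_sdiff_self, hP2,
        card_empty]
    by_cases hB : inc e = Vs \ P
    · rw [if_pos hB, if_neg hA, hB, inter_self, sdiff_inter_self, hQ2, card_empty]
    rw [if_neg hA, if_neg hB]
    have hs : inc e ∩ (Vs \ P) = inc e \ P := by
      ext v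
      simp only [mem_inter, mem_sdiff]
      constructor
      · rintro ⟨a, b, c⟩
        exact ⟨a, c⟩
      · rintro ⟨a, c⟩
        exact ⟨a, hsub e he a, c⟩
    have h4 : (inc e ∩ P).card + (inc e \ P).card = 2 := by
      rw [← htwo e he]
      exact card_inter_add_card_sdiff (inc e) P
    have h5 : (inc e ∩ P).card ≠ 2 := by
      intro h
      apply hA
      have a1 : inc e ∩ P = inc e := eq_of_subset_of_card_le inter_subset_left (by
        rw [h, htwo e he])
      have a2 : inc e ∩ P = P := eq_of_subset_of_card_le inter_subset_right (by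
        rw [h, hP2])
      rw [← a1, a2]
    have h6 : (inc e ∩ (Vs \ P)).card ≠ 2 := by
      intro h
      apply hB
      have a1 : inc e ∩ (Vs \ P) = inc e := eq_of_subset_of_card_le inter_subset_left (by
        rw [h, htwo e he])
      have a2 : inc e ∩ (Vs \ P) = Vs \ P := eq_of_subset_of_card_le inter_subset_right (by
        rw [h, hQ2])
      rw [← a1, a2]
    rw [hs] at h6 ⊢
    omega
  have h7 := sum_congr rfl h3
  rw [sum_add_distrib, sum_add_distrib, h1, h2, ← mul_sum, ← mul_sum] at h7
  rw [card_filter, card_filter]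
  omega

/-- two complementary edges form a perfect matching -/
theorem match2 (inc : E → Finset V) (Es : Finset E) (Vs : Finset V) (e e' : E) (he : e ∈ Es)
    (he' : e' ∈ Es) (h : inc e' = Vs \ inc e) (v : V) (hv : v ∈ Vs) :
    dg Es inc {e, e'} v = 1 := by
  unfold dg
  rw [card_eq_one]
  by_cases hve : v ∈ inc e
  · refine ⟨e, ?_⟩
    ext f
    simp only [mem_filter, mem_insert, mem_singleton]
    constructor
    · rintro ⟨-, h1, h2 | h2⟩
      · exact h2
      · rw [h2, h, mem_sdiff] at h1
        exact absurd hve h1.2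
    · rintro rfl
      exact ⟨he, hve, Or.inl rfl⟩
  · refine ⟨e', ?_⟩
    ext f
    simp only [mem_filter, mem_insert, mem_singleton]
    constructor
    · rintro ⟨-, h1, h2 | h2⟩
      · rw [h2] at h1
        exact absurd h1 hve
      · exact h2
    · rintro rfl
      refine ⟨he', ?_, Or.inr rfl⟩
      rw [h, mem_sdiff]
      exact ⟨hv, hve⟩

end BSx

open BSx in
theorem T_BS : S_BS := by
  intro V E _ _ Vs Es inc M e hI hV he
  have hr : ∀ v ∈ Vs, (Es.filter (fun e => v ∈ inc e)).card = 3 := hI.three
  have h3 : 3 * Vs.card = 2 * Es.card := by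
    have h := shake inc Es Vs
    rw [sum_congr rfl hr, sum_const, smul_eq_mul, sum_congr rfl (fun f hf => by
      rw [inter_eq_left.2 (hI.sub f hf), hI.two f hf] : ∀ f ∈ Es, (inc f ∩ Vs).card = 2),
      sum_const, smul_eq_mul] at h
    omega
  have h2 : 2 ≤ Vs.card := by
    rw [← hI.two e he]
    exact card_le_card (hI.sub e he)
  have h24 : Vs.card = 2 ∨ Vs.card = 4 := by omega
  rcases h24 with h24 | h24
  · -- two vertices
    have hall : ∀ f ∈ Es, inc f = Vs := fun f hf =>
      eq_of_subset_of_card_le (hI.sub f hf) (by rw [h24, hI.two f hf])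
    have hc : Es.card = 3 := by omega
    obtain ⟨f, hf, hfe⟩ : ∃ f ∈ Es, f ≠ e := by
      apply exists_mem_ne
      omega
    have key : ∀ g ∈ Es, ∀ v ∈ Vs, dg Es inc {g} v = 1 := by
      intro g hg v hv
      unfold dg
      rw [card_eq_one]
      refine ⟨g, ?_⟩
      ext k
      simp only [mem_filter, mem_singleton]
      constructor
      · rintro ⟨-, -, h⟩
        exact h
      · rintro rfl
        exact ⟨hg, by rw [hall _ hg]; exact hv, rfl⟩
    refine ⟨{e}, {f}, mem_singleton_self e, ?_, ?_, ?_⟩
    · exact key e he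
    · intro v hv
      rw [key f hf v hv]
      exact odd_one
    · rintro g - ⟨-, h1, h2⟩
      rw [mem_singleton] at h1 h2
      exact hfe (h2.symm.trans h1)
  · -- four vertices
    have hc1 := count inc Es Vs (inc e) 3 (hI.sub e he) (hI.two e he) h24 hI.sub hI.two hr
    obtain ⟨e', he'⟩ : (Es.filter (fun f => inc f = Vs \ inc e)).Nonempty := by
      rw [← card_pos, ← hc1, card_pos]
      exact ⟨e, by simp [he]⟩
    rw [mem_filter] at he'
    obtain ⟨he'1, he'2⟩ := he'
    have hN := match2 inc Es Vs e e' he he'1 he'2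
    set S : Finset E := Es \ {e, e'} with hS
    have hSE : S ⊆ Es := sdiff_subset
    have hrS : ∀ v ∈ Vs, (S.filter (fun f => v ∈ inc f)).card = 2 := by
      intro v hv
      have a1 := hr v hv
      have a2 := hN v hv
      unfold dg at a2
      have a3 : Es.filter (fun f => v ∈ inc f) =
          S.filter (fun f => v ∈ inc f) ∪ Es.filter (fun f => v ∈ inc f ∧ f ∈ ({e, e'} : Finset E)) := by
        ext f
        simp only [mem_filter, mem_union, hS, mem_sdiff]
        tauto
      have a4 : Disjoint (S.filter (fun f => v ∈ inc f))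
          (Es.filter (fun f => v ∈ inc f ∧ f ∈ ({e, e'} : Finset E))) := by
        rw [disjoint_left]
        intro f h1 h2
        simp only [mem_filter, hS, mem_sdiff] at h1 h2
        tauto
      rw [a3, card_union_of_disjoint a4, a2] at a1
      omega
    obtain ⟨v, hv⟩ : Vs.Nonempty := by
      rw [← card_pos]
      omega
    obtain ⟨g, hg⟩ : (S.filter (fun f => v ∈ inc f)).Nonempty := by
      rw [← card_pos, hrS v hv]
      norm_num
    have hgS : g ∈ S := (mem_filter.1 hg).1
    have hc2 := count inc S Vs (inc g) 2 (hI.sub g (hSE hgS)) (hI.two g (hSE hgS)) h24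
      (fun f hf => hI.sub f (hSE hf)) (fun f hf => hI.two f (hSE hf)) hrS
    obtain ⟨k, hk⟩ : (S.filter (fun f => inc f = Vs \ inc g)).Nonempty := by
      rw [← card_pos, ← hc2, card_pos]
      exact ⟨g, by simp [hgS]⟩
    rw [mem_filter] at hk
    obtain ⟨hk1, hk2⟩ := hk
    have hJ := match2 inc Es Vs g k (hSE hgS) (hSE hk1) hk2
    refine ⟨{e, e'}, {g, k}, by simp, hN, ?_, ?_⟩
    · intro w hw
      rw [hJ w hw]
      exact odd_one
    · rintro f - ⟨-, h1, h2⟩
      have h4 : f ∈ S := by
        rw [mem_insert, mem_singleton] at h2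
        rcases h2 with rfl | rfl
        · exact hgS
        · exact hk1
      rw [hS, mem_sdiff] at h4
      exact h4.2 h1

end H165R2.F5
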