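import Mathlib
import Pool.Agent.H165R2.F5.Stubs

/-! # C4: no small nontrivial cuts; GI: girth at least four -/

set_option autoImplicit false

open Finset

namespace H165R2.F5

namespace C4x

variable {V E : Type} [DecidableEq V] [DecidableEq E]

/-- degree counting -/
theorem hs {Vs : Finset V} {Es : Finset E} {inc : E → Finset V} {M : Finset E}
    (I : Inst Vs Es inc M) (X : Finset V) (hX : X ⊆ Vs) :
    3 * X.card = (cut Es inc X).card + 2 * (Es.filter (fun e => (inc e ∩ X).card = 2)).card := by
  have e1 : 3 * X.card = ∑ v ∈ X, (Es.filter (fun e => v ∈ inc e)).card := by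
    rw [Finset.sum_congr rfl (fun v hv => I.three v (hX hv)), Finset.sum_const, smul_eq_mul,
      mul_comm]
  have e2 : ∑ v ∈ X, (Es.filter (fun e => v ∈ inc e)).card = ∑ e ∈ Es, (inc e ∩ X).card := by
    simp only [Finset.card_filter]
    rw [Finset.sum_comm]
    apply Finset.sum_congr rfl
    intro e _
    rw [← Finset.card_filter, Finset.inter_comm, Finset.filter_mem_eq_inter]
  rw [e1, e2]
  unfold cut
  rw [Finset.card_filter, Finset.card_filter, Finset.mul_sum, ← Finset.sum_add_distrib]
  apply Finset.sum_congr rfl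
  intro e he
  have h1 : (inc e ∩ X).card ≤ 2 := by
    rw [← I.two e he]
    exact Finset.card_le_card Finset.inter_subset_left
  have h2 : (inc e ∩ X).card = 0 ∨ (inc e ∩ X).card = 1 ∨ (inc e ∩ X).card = 2 := by omega
  rcases h2 with h | h | h <;> rw [h] <;> norm_num

theorem cut_compl {Vs : Finset V} {Es : Finset E} {inc : E → Finset V} {M : Finset E}
    (I : Inst Vs Es inc M) (X : Finset V) : cut Es inc (Vs \ X) = cut Es inc X := by
  unfold cut
  apply Finset.filter_congr
  intro e he
  have h1 : (inc e ∩ X).card + (inc e ∩ (Vs \ X)).card = 2 := by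
    rw [← I.two e he, ← Finset.card_union_of_disjoint]
    · congr 1
      ext v
      simp only [Finset.mem_union, Finset.mem_inter, Finset.mem_sdiff]
      have := @I.sub e he v
      tauto
    · rw [Finset.disjoint_left]
      intro v h1 h2
      exact (Finset.mem_sdiff.mp (Finset.mem_inter.mp h2).2).2 (Finset.mem_inter.mp h1).2
  omega

theorem even_Vs {Vs : Finset V} {Es : Finset E} {inc : E → Finset V} {M : Finset E}
    (I : Inst Vs Es inc M) : Vs.card % 2 = 0 := by
  have h := hs I Vs (Finset.Subset.refl _)
  have h0 : (cut Es inc Vs).card = 0 := by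
    rw [Finset.card_eq_zero]
    unfold cut
    rw [Finset.filter_eq_empty_iff]
    intro e he h1
    rw [Finset.inter_eq_left.mpr (I.sub e he), I.two e he] at h1
    omega
  omega

theorem cut_insert {Vs : Finset V} {Es : Finset E} {inc : E → Finset V} {M : Finset E}
    (I : Inst Vs Es inc M) (Y : Finset V) (p : V) (hp : p ∈ Vs) (hpY : p ∉ Y) :
    (cut Es inc (insert p Y)).card + 2 * ((cut Es inc Y).filter (fun e => p ∈ inc e)).card
      = (cut Es inc Y).card + 3 := by
  rw [← I.three p hp]
  unfold cut
  rw [Finset.filter_filter, Finset.card_filter, Finset.card_filter, Finset.card_filter,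
    Finset.card_filter, Finset.mul_sum, ← Finset.sum_add_distrib, ← Finset.sum_add_distrib]
  apply Finset.sum_congr rfl
  intro e he
  by_cases hpe : p ∈ inc e
  · have h1 : (inc e ∩ insert p Y).card = (inc e ∩ Y).card + 1 := by
      rw [Finset.inter_insert_of_mem hpe, Finset.card_insert_of_notMem]
      intro h
      exact hpY (Finset.mem_inter.mp h).2
    have h2 : (inc e ∩ insert p Y).card ≤ 2 := by
      rw [← I.two e he]
      exact Finset.card_le_card Finset.inter_subset_left
    have h3 : (inc e ∩ Y).card = 0 ∨ (inc e ∩ Y).card = 1 := by omega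
    rcases h3 with h | h <;> rw [h1, h] <;> simp [hpe]
  · have h1 : inc e ∩ insert p Y = inc e ∩ Y := Finset.inter_insert_of_notMem hpe
    rw [h1]
    simp [hpe]

theorem core {Vs : Finset V} {Es : Finset E} {inc : E → Finset V} {M : Finset E}
    (I : Inst Vs Es inc M)
    (h3 : ∀ X ⊆ Vs, 3 ≤ X.card → X.card + 3 ≤ Vs.card → (cut Es inc X).card ≠ 3)
    (Y : Finset V) (hY : Y ⊆ Vs) (h2 : 2 ≤ Y.card) (h4 : Y.card + 4 ≤ Vs.card)
    (hc : (cut Es inc Y).card = 0 ∨ (cut Es inc Y).card = 2) : False := by
  rcases hc with hc | hc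
  · obtain ⟨p, hp, hpY⟩ : ∃ p ∈ Vs, p ∉ Y := by
      by_contra hcon
      push Not at hcon
      have := Finset.card_le_card (fun v hv => hcon v hv : Vs ⊆ Y)
      omega
    have k1 := cut_insert I Y p hp hpY
    have k2 : ((cut Es inc Y).filter (fun e => p ∈ inc e)).card = 0 := by
      have := Finset.card_filter_le (cut Es inc Y) (fun e => p ∈ inc e)
      omega
    apply h3 (insert p Y) (Finset.insert_subset hp hY)
    · rw [Finset.card_insert_of_notMem hpY]
      omega
    · rw [Finset.card_insert_of_notMem hpY]
      omega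
    · omega
  · obtain ⟨f, hf⟩ : (cut Es inc Y).Nonempty := by
      rw [← Finset.card_pos]
      omega
    have hf' : f ∈ Es ∧ (inc f ∩ Y).card = 1 := Finset.mem_filter.mp hf
    obtain ⟨p, hpf, hpY⟩ : ∃ p ∈ inc f, p ∉ Y := by
      by_contra hcon
      push Not at hcon
      have h5 : inc f ∩ Y = inc f := Finset.inter_eq_left.mpr hcon
      have h6 := I.two f hf'.1
      rw [h5] at hf'
      omega
    have hp : p ∈ Vs := I.sub f hf'.1 hpf
    have k1 := cut_insert I Y p hp hpY
    have k2 : 0 < ((cut Es inc Y).filter (fun e => p ∈ inc e)).card := by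
      rw [Finset.card_pos]
      exact ⟨f, Finset.mem_filter.mpr ⟨hf, hpf⟩⟩
    have k3 := Finset.card_filter_le (cut Es inc Y) (fun e => p ∈ inc e)
    have k4 := I.bridgeless (insert p Y)
    have k5 : (cut Es inc (insert p Y)).card = 3 := by omega
    apply h3 (insert p Y) (Finset.insert_subset hp hY) _ _ k5
    · rw [Finset.card_insert_of_notMem hpY]
      omega
    · rw [Finset.card_insert_of_notMem hpY]
      omega

end C4x

open C4x in
theorem T_C4 : S_C4 := by
  intro V E _ _ Vs Es inc M I h6 h3 X hX h2 hX2
  by_contra hcon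
  push Not at hcon
  have hev := even_Vs I
  have hpar := hs I X hX
  have hne := I.bridgeless X
  have hc : (cut Es inc X).card = 0 ∨ (cut Es inc X).card = 2 ∨ (cut Es inc X).card = 3 := by
    omega
  rcases hc with hc | hc | hc
  · by_cases h4 : X.card + 4 ≤ Vs.card
    · exact core I h3 X hX h2 h4 (Or.inl hc)
    · have hcard : (Vs \ X).card = Vs.card - X.card := Finset.card_sdiff_of_subset hX
      have := cut_compl I X
      exact core I h3 (Vs \ X) Finset.sdiff_subset (by omega) (by omega) (Or.inl (by rw [this, hc]))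
  · by_cases h4 : X.card + 4 ≤ Vs.card
    · exact core I h3 X hX h2 h4 (Or.inr hc)
    · have hcard : (Vs \ X).card = Vs.card - X.card := Finset.card_sdiff_of_subset hX
      have := cut_compl I X
      exact core I h3 (Vs \ X) Finset.sdiff_subset (by omega) (by omega) (Or.inr (by rw [this, hc]))
  · exact h3 X hX (by omega) (by omega) hc

end H165R2.F5
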