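import Mathlib
import Pool.Agent.H165R2.F5.Stubs

/-! CD: degrees after contraction. -/
set_option autoImplicit false
open Finset

namespace H165R2.F5

namespace CDx

variable {V E : Type} [DecidableEq V] [DecidableEq E]

lemma mem_conI_z (inc : E → Finset V) (X : Finset V) (z : V) (hz : z ∉ X) (e : E) :
    z ∈ conI inc X z e ↔ (inc e \ X).Nonempty := by
  unfold conI
  rw [mem_image]
  constructor
  · rintro ⟨v, hv, h⟩
    by_cases hvX : v ∈ X
    · rw [if_pos hvX] at h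
      exact absurd (h ▸ hvX) hz
    · exact ⟨v, mem_sdiff.2 ⟨hv, hvX⟩⟩
  · rintro ⟨v, hv⟩
    rw [mem_sdiff] at hv
    exact ⟨v, hv.1, if_neg hv.2⟩

lemma mem_conI_w (inc : E → Finset V) (X : Finset V) (z w : V) (hz : z ∉ X) (hw : w ∈ X)
    (e : E) : w ∈ conI inc X z e ↔ w ∈ inc e := by
  unfold conI
  rw [mem_image]
  constructor
  · rintro ⟨v, hv, h⟩
    by_cases hvX : v ∈ X
    · rw [if_pos hvX] at h
      exact h ▸ hv
    · rw [if_neg hvX] at h
      exact absurd (h ▸ hw) hz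
  · intro h
    exact ⟨w, h, if_pos hw⟩

lemma z_iff (Es : Finset E) (inc : E → Finset V) (X : Finset V) (z : V) (hz : z ∉ X)
    (two : ∀ e ∈ Es, (inc e).card = 2) (e : E) (he : e ∈ Es) :
    z ∈ conI inc X z e ∧ e ∈ conE Es inc X ↔ e ∈ cut Es inc X := by
  rw [mem_conI_z inc X z hz]
  unfold conE cut
  rw [mem_filter, mem_filter]
  have h1 := card_inter_add_card_sdiff (inc e) X
  rw [two e he] at h1
  rw [← card_pos, ← card_pos]
  constructor
  · rintro ⟨h2, -, h3⟩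
    exact ⟨he, by omega⟩
  · rintro ⟨-, h2⟩
    exact ⟨by omega, he, by omega⟩

end CDx

open CDx in
theorem T_CD : S_CD := by
  intro V E _ _ Vs Es inc M X z hI hX hzV hz
  have h3 : ∀ e ∈ Es, z ∈ conI inc X z e ∧ e ∈ conE Es inc X ↔ e ∈ cut Es inc X :=
    fun e he => z_iff Es inc X z hz hI.two e he
  refine ⟨?_, ?_, h3⟩
  · intro S w hw
    unfold dg
    congr 1
    ext e
    rw [mem_filter, mem_filter, mem_conI_w inc X z w hz hw]
    unfold conE
    rw [mem_filter]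
    constructor
    · rintro ⟨⟨h1, -⟩, h2, h4⟩
      exact ⟨h1, h2, h4⟩
    · rintro ⟨h1, h2, h4⟩
      exact ⟨⟨h1, ⟨w, mem_inter.2 ⟨h2, hw⟩⟩⟩, h2, h4⟩
  · intro S
    unfold dg
    congr 1
    ext e
    rw [mem_filter, mem_filter]
    constructor
    · rintro ⟨h1, h2, h4⟩
      have he : e ∈ Es := (mem_filter.1 h1).1
      exact ⟨(h3 e he).1 ⟨h2, h1⟩, h4⟩
    · rintro ⟨h1, h2⟩
      have he : e ∈ Es := (mem_filter.1 h1).1
      obtain ⟨h4, h5⟩ := (h3 e he).2 h1
      exact ⟨h5, h4, h2⟩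

end H165R2.F5
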