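import Mathlib
import Pool.Agent.H165R2.F5.Stubs

set_option autoImplicit false
open Finset

namespace H165R2.F5

namespace CHx

variable {V E : Type} [DecidableEq V] [DecidableEq E]

theorem par {Vs : Finset V} {Es : Finset E} {inc : E → Finset V} {M : Finset E}
    (hI : Inst Vs Es inc M) {S : Finset V} (hS : S ⊆ Vs) :
    (3 * S.card) % 2 = (cut Es inc S).card % 2 := by
  have h1 : 3 * S.card = ∑ e ∈ Es, (inc e ∩ S).card := by
    have h2 : ∑ v ∈ S, (Es.filter (fun e => v ∈ inc e)).card = 3 * S.card := by
      rw [Finset.sum_congr rfl fun v hv => hI.three v (hS hv), sum_const, smul_eq_mul, mul_comm]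
    rw [← h2]
    have h3 := Finset.sum_card_bipartiteAbove_eq_sum_card_bipartiteBelow
      (s := S) (t := Es) (fun (v : V) (e : E) => v ∈ inc e)
    unfold Finset.bipartiteAbove Finset.bipartiteBelow at h3
    rw [h3]
    refine Finset.sum_congr rfl fun e _ => ?_
    congr 1
    ext v
    simp only [mem_filter, mem_inter]
    tauto
  rw [h1, Finset.sum_nat_mod]
  unfold cut
  rw [Finset.card_filter]
  congr 1
  refine Finset.sum_congr rfl fun e he => ?_
  have h4 : (inc e ∩ S).card ≤ 2 := (card_le_card inter_subset_left).trans (hI.two e he).le
  interval_cases (inc e ∩ S).card <;> simp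

end CHx

theorem T_CH : S_CH := by
  intro V E _ _ Vs Es inc M X z hI hX hz hzX hcut A hA
  classical
  refine ⟨(A ∩ X) ∪ (if ∃ v ∈ A, v ∈ Vs \ X then {z} else ∅), ?_, ?_⟩
  · split_ifs with h
    · obtain ⟨v, hv, hv'⟩ := h
      have h1 : A ∩ X ⊆ A.erase v := by
        intro w hw
        rw [mem_inter] at hw
        rw [mem_erase]
        refine ⟨?_, hw.1⟩
        rintro rfl
        exact (mem_sdiff.1 hv').2 hw.2
      have h2 := card_le_card h1
      rw [card_erase_of_mem hv] at h2
      have h3 : 0 < A.card := card_pos.2 ⟨v, hv⟩
      have h4 := card_union_le (A ∩ X) {z}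
      rw [card_singleton] at h4
      omega
    · rw [union_empty]
      exact card_le_card inter_subset_left
  · intro Y1 hY1 hcl hodd
    by_cases hzY : z ∈ Y1
    · -- the vertex `z` is in the set
      set Y := (Y1.erase z) ∪ (Vs \ X) with hYdef
      have hY1X : Y1.erase z ⊆ X := by
        intro w hw
        rw [mem_erase] at hw
        rcases mem_insert.1 (hY1 hw.2) with h | h
        · exact absurd h hw.1
        · exact h
      have hY : Y ⊆ Vs := union_subset (hY1X.trans hX) sdiff_subset
      have hmem : ∀ v ∈ Vs, (v ∈ Y ↔ (if v ∈ X then v else z) ∈ Y1) := by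
        intro v hv
        rw [hYdef, mem_union, mem_erase, mem_sdiff]
        by_cases hvX : v ∈ X
        · have hvz : v ≠ z := by rintro rfl; exact hzX hvX
          simp [hvX, hvz]
        · simp [hvX, hv, hzY]
      have hclY : Closed Es inc M Y := by
        intro e he heM hone
        obtain ⟨p, q, hpq, hinc⟩ := card_eq_two.1 (hI.two e he)
        have hp : p ∈ Vs := hI.sub e he (by rw [hinc]; simp)
        have hq : q ∈ Vs := hI.sub e he (by rw [hinc]; simp)
        have hcon : conI inc X z e = {(if p ∈ X then p else z), (if q ∈ X then q else z)} := by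
          unfold conI
          rw [hinc, image_insert, image_singleton]
        have hpX : p ∈ X ∨ q ∈ X := by
          by_contra hcon'
          push Not at hcon'
          have h1 : inc e ∩ Y = {p, q} := by
            rw [hinc]
            apply inter_eq_left.2
            intro w hw
            rw [mem_insert, mem_singleton] at hw
            rw [hYdef, mem_union, mem_sdiff]
            right
            rcases hw with rfl | rfl
            · exact ⟨hp, hcon'.1⟩
            · exact ⟨hq, hcon'.2⟩
          rw [h1, card_pair hpq] at hone
          omega
        have heC : e ∈ conE Es inc X := by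
          unfold conE
          rw [mem_filter]
          refine ⟨he, ?_⟩
          rcases hpX with h | h
          · exact ⟨p, mem_inter.2 ⟨by rw [hinc]; simp, h⟩⟩
          · exact ⟨q, mem_inter.2 ⟨by rw [hinc]; simp, h⟩⟩
        apply hcl e heC heM
        rw [hcon]
        have hmp := hmem p hp
        have hmq := hmem q hq
        by_cases h1 : p ∈ Y <;> by_cases h2 : q ∈ Y
        · have h3 : inc e ∩ Y = {p, q} := by
            rw [hinc]
            apply inter_eq_left.2
            intro w hw
            rw [mem_insert, mem_singleton] at hw
            rcases hw with rfl | rfl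
            · exact h1
            · exact h2
          rw [h3, card_pair hpq] at hone
          omega
        · have h3 := hmp.1 h1
          have h4 : (if q ∈ X then q else z) ∉ Y1 := fun h => h2 (hmq.2 h)
          rw [insert_inter_of_mem h3, singleton_inter_of_notMem h4]
          simp
        · have h3 := hmq.1 h2
          have h4 : (if p ∈ X then p else z) ∉ Y1 := fun h => h1 (hmp.2 h)
          rw [insert_inter_of_notMem h4, singleton_inter_of_mem h3]
          simp
        · have h3 : inc e ∩ Y = ∅ := by
            rw [hinc]
            ext w
            simp only [mem_inter, mem_insert, mem_singleton, notMem_empty, iff_false, not_and]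
            rintro (rfl | rfl)
            · exact h1
            · exact h2
          rw [h3, card_empty] at hone
          omega
      have hoddY : Odd Y.card := by
        have hdisj : Disjoint (Y1.erase z) (Vs \ X) := by
          rw [Finset.disjoint_left]
          intro w hw hw'
          exact (mem_sdiff.1 hw').2 (hY1X hw)
        have h1 : Y.card = (Y1.card - 1) + (Vs.card - X.card) := by
          rw [hYdef, card_union_of_disjoint hdisj, card_erase_of_mem hzY, card_sdiff_of_subset hX]
        have h2 := CHx.par hI hX
        have h3 := CHx.par hI (Subset.refl Vs)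
        have h4 : cut Es inc Vs = ∅ := by
          unfold cut
          rw [filter_eq_empty_iff]
          intro e he h
          rw [inter_eq_left.2 (hI.sub e he), hI.two e he] at h
          omega
        rw [h4, card_empty] at h3
        rw [hcut] at h2
        have h5 := card_le_card hX
        have h6 : 0 < Y1.card := card_pos.2 ⟨z, hzY⟩
        rw [Nat.odd_iff] at hodd ⊢
        omega
      obtain ⟨v, hvA, hvY⟩ := hA Y hY hclY hoddY
      rw [hYdef, mem_union] at hvY
      rcases hvY with h | h
      · exact ⟨v, mem_union_left _ (mem_inter.2 ⟨hvA, hY1X h⟩), (mem_erase.1 h).2⟩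
      · refine ⟨z, mem_union_right _ ?_, hzY⟩
        rw [if_pos ⟨v, hvA, h⟩]
        exact mem_singleton_self z
    · have hY1X : Y1 ⊆ X := by
        intro w hw
        rcases mem_insert.1 (hY1 hw) with h | h
        · rw [h] at hw
          exact absurd hw hzY
        · exact h
      have hclY : Closed Es inc M Y1 := by
        intro e he heM hone
        have hne : (inc e ∩ Y1).Nonempty := by
          rw [← card_pos, hone]
          norm_num
        obtain ⟨w, hw⟩ := hne
        have heC : e ∈ conE Es inc X := by
          unfold conE
          rw [mem_filter]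
          exact ⟨he, w, mem_inter.2 ⟨(mem_inter.1 hw).1, hY1X (mem_inter.1 hw).2⟩⟩
        apply hcl e heC heM
        have h1 : conI inc X z e ∩ Y1 = inc e ∩ Y1 := by
          ext w
          rw [mem_inter, mem_inter]
          unfold conI
          rw [mem_image]
          constructor
          · rintro ⟨⟨v, hv, hvw⟩, hwY⟩
            refine ⟨?_, hwY⟩
            by_cases hvX : v ∈ X
            · rw [if_pos hvX] at hvw
              rwa [← hvw]
            · rw [if_neg hvX] at hvw
              rw [← hvw] at hwY
              exact absurd hwY hzY
          · rintro ⟨hw1, hw2⟩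
            exact ⟨⟨w, hw1, by rw [if_pos (hY1X hw2)]⟩, hw2⟩
        rw [h1]
        exact hone
      obtain ⟨v, hvA, hvY⟩ := hA Y1 (hY1X.trans hX) hclY hodd
      exact ⟨v, mem_union_left _ (mem_inter.2 ⟨hvA, hY1X hvY⟩), hvY⟩

end H165R2.F5
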