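import Mathlib
import Pool.Agent.H165R2.F5.Stubs

/-! Task CI (the contraction at a 3-cut is an instance), proved by helper924. -/
set_option autoImplicit false
open Finset

namespace H165R2.F5

theorem CIx.parity {V E : Type} [DecidableEq V] [DecidableEq E] (Es : Finset E)
    (inc : E → Finset V) (X : Finset V) (S : Finset E) (htwo : ∀ e ∈ Es, (inc e).card = 2) :
    ∃ k : ℕ, ∑ v ∈ X, dg Es inc S v = ((cut Es inc X).filter (· ∈ S)).card + 2 * k := by
  refine ⟨∑ e ∈ Es, if (inc e ∩ X).card = 2 ∧ e ∈ S then 1 else 0, ?_⟩
  have h1 : ∑ v ∈ X, dg Es inc S v = ∑ e ∈ Es, if e ∈ S then (inc e ∩ X).card else 0 := by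
    unfold dg
    simp only [Finset.card_filter]
    rw [Finset.sum_comm]
    apply Finset.sum_congr rfl
    intro e he
    by_cases hS : e ∈ S
    · simp only [hS, and_true, if_true]
      rw [← Finset.card_filter]
      congr 1
      ext v
      simp only [mem_filter, mem_inter]
      tauto
    · simp [hS]
  have h2 : ((cut Es inc X).filter (· ∈ S)).card =
      ∑ e ∈ Es, if (inc e ∩ X).card = 1 ∧ e ∈ S then 1 else 0 := by
    unfold cut
    rw [Finset.filter_filter, Finset.card_filter]
  rw [h1, h2, Finset.mul_sum, ← Finset.sum_add_distrib]
  apply Finset.sum_congr rfl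
  intro e he
  have hle : (inc e ∩ X).card ≤ 2 := by
    rw [← htwo e he]
    exact Finset.card_le_card inter_subset_left
  by_cases hS : e ∈ S
  · simp only [hS, and_true, if_true]
    interval_cases (inc e ∩ X).card <;> simp
  · simp [hS]

theorem T_CI (hCD : S_CD) : S_CI := by
  intro V E _ _ Vs Es inc M X z hI hX hz hzX hcut
  obtain ⟨c1, c2, -⟩ := hCD V E Vs Es inc M X z hI hX hz hzX
  have hsubE : conE Es inc X ⊆ Es := filter_subset _ _
  have hmemE : ∀ e, e ∈ conE Es inc X ↔ e ∈ Es ∧ (inc e ∩ X).Nonempty := fun e => mem_filter
  -- the parity of X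
  have hXodd : Odd X.card := by
    obtain ⟨k, hk⟩ := CIx.parity Es inc X Es hI.two
    have h3 : ∑ v ∈ X, dg Es inc Es v = 3 * X.card := by
      rw [Finset.sum_congr rfl (g := fun _ => 3)]
      · rw [Finset.sum_const, smul_eq_mul, mul_comm]
      · intro v hv
        rw [← hI.three v (hX hv)]
        unfold dg
        congr 1
        apply Finset.filter_congr
        intro e he
        simp [he]
    have h4 : ((cut Es inc X).filter (· ∈ Es)).card = 3 := by
      rw [← hcut]
      congr 1
      apply Finset.filter_true_of_mem
      intro e he
      exact (mem_filter.1 he).1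
    rw [h3, h4] at hk
    rw [Nat.odd_iff]
    omega
  refine ⟨?_, ?_, ?_, ?_, ?_⟩
  · intro e he v hv
    unfold conI at hv
    rw [mem_image] at hv
    obtain ⟨p, hp, rfl⟩ := hv
    by_cases hpX : p ∈ X
    · rw [if_pos hpX]; exact mem_insert_of_mem hpX
    · rw [if_neg hpX]; exact mem_insert_self _ _
  · intro e he
    obtain ⟨heE, ⟨r, hr⟩⟩ := (hmemE e).1 he
    rw [mem_inter] at hr
    obtain ⟨p, q, hpq, hinc⟩ := Finset.card_eq_two.1 (hI.two e heE)
    unfold conI
    rw [hinc, image_insert, image_singleton, card_pair]
    rw [hinc, mem_insert, mem_singleton] at hr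
    intro hEq
    by_cases hp : p ∈ X
    · rw [if_pos hp] at hEq
      by_cases hq : q ∈ X
      · rw [if_pos hq] at hEq; exact hpq hEq
      · rw [if_neg hq] at hEq; exact hzX (hEq ▸ hp)
    · rw [if_neg hp] at hEq
      by_cases hq : q ∈ X
      · rw [if_pos hq] at hEq; exact hzX (hEq ▸ hq)
      · rcases hr with ⟨rfl | rfl, h⟩
        · exact hp h
        · exact hq h
  · intro v hv
    have hEq : (conE Es inc X).filter (fun e => v ∈ conI inc X z e) =
        (conE Es inc X).filter (fun e => v ∈ conI inc X z e ∧ e ∈ Es) := by
      apply Finset.filter_congr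
      intro e he
      simp [hsubE he]
    rw [hEq]
    change dg (conE Es inc X) (conI inc X z) Es v = 3
    rcases mem_insert.1 hv with rfl | hvX
    · rw [c2, ← hcut]
      congr 1
      apply Finset.filter_true_of_mem
      intro e he
      exact (mem_filter.1 he).1
    · rw [c1 Es v hvX, ← hI.three v (hX hvX)]
      unfold dg
      congr 1
      apply Finset.filter_congr
      intro e he
      simp [he]
  · intro Y hY
    apply hI.bridgeless (Vs.filter (fun v => (if v ∈ X then v else z) ∈ Y))
    rw [← hY]
    congr 1
    ext e
    unfold cut
    rw [mem_filter, mem_filter, hmemE]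
    constructor
    · rintro ⟨heE, h⟩
      obtain ⟨p, q, hpq, hinc⟩ := Finset.card_eq_two.1 (hI.two e heE)
      have hpV : p ∈ Vs := hI.sub e heE (by rw [hinc]; simp)
      have hqV : q ∈ Vs := hI.sub e heE (by rw [hinc]; simp)
      unfold conI
      rw [hinc] at h ⊢
      rw [image_insert, image_singleton]
      by_cases hp : p ∈ X <;> by_cases hq : q ∈ X
      · refine ⟨⟨heE, ⟨p, by simp [hp]⟩⟩, ?_⟩
        rw [← h]
        rw [if_pos hp, if_pos hq]
        congr 1
        ext v
        simp only [mem_inter, mem_insert, mem_singleton, mem_filter]
        constructor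
        · rintro ⟨rfl | rfl, h2⟩
          · exact ⟨Or.inl rfl, hpV, by rw [if_pos hp]; exact h2⟩
          · exact ⟨Or.inr rfl, hqV, by rw [if_pos hq]; exact h2⟩
        · rintro ⟨rfl | rfl, -, h2⟩
          · rw [if_pos hp] at h2; exact ⟨Or.inl rfl, h2⟩
          · rw [if_pos hq] at h2; exact ⟨Or.inr rfl, h2⟩
      · have hpz : p ≠ z := fun h' => hzX (h' ▸ hp)
        refine ⟨⟨heE, ⟨p, by simp [hp]⟩⟩, ?_⟩
        rw [if_pos hp, if_neg hq]
        by_cases h1 : p ∈ Y <;> by_cases h2 : z ∈ Y
        · exfalso
          have : ({p, q} ∩ Vs.filter (fun v => (if v ∈ X then v else z) ∈ Y)) = {p, q} := by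
            ext v
            simp only [mem_inter, mem_insert, mem_singleton, mem_filter]
            constructor
            · exact fun h' => h'.1
            · rintro (rfl | rfl)
              · exact ⟨Or.inl rfl, hpV, by rw [if_pos hp]; exact h1⟩
              · exact ⟨Or.inr rfl, hqV, by rw [if_neg hq]; exact h2⟩
          rw [this, card_pair hpq] at h
          omega
        · have : ({p, z} ∩ Y : Finset V) = {p} := by
            ext v
            simp only [mem_inter, mem_insert, mem_singleton]
            constructor
            · rintro ⟨rfl | rfl, h'⟩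
              · rfl
              · exact absurd h' h2
            · rintro rfl
              exact ⟨Or.inl rfl, h1⟩
          rw [this, card_singleton]
        · have : ({p, z} ∩ Y : Finset V) = {z} := by
            ext v
            simp only [mem_inter, mem_insert, mem_singleton]
            constructor
            · rintro ⟨rfl | rfl, h'⟩
              · exact absurd h' h1
              · rfl
            · rintro rfl
              exact ⟨Or.inr rfl, h2⟩
          rw [this, card_singleton]
        · exfalso
          have : ({p, q} ∩ Vs.filter (fun v => (if v ∈ X then v else z) ∈ Y)) = ∅ := by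
            ext v
            simp only [mem_inter, mem_insert, mem_singleton, mem_filter, notMem_empty, iff_false]
            rintro ⟨rfl | rfl, -, h'⟩
            · rw [if_pos hp] at h'; exact h1 h'
            · rw [if_neg hq] at h'; exact h2 h'
          rw [this, card_empty] at h
          omega
      · have hqz : q ≠ z := fun h' => hzX (h' ▸ hq)
        refine ⟨⟨heE, ⟨q, by simp [hq]⟩⟩, ?_⟩
        rw [if_neg hp, if_pos hq]
        by_cases h1 : z ∈ Y <;> by_cases h2 : q ∈ Y
        · exfalso
          have : ({p, q} ∩ Vs.filter (fun v => (if v ∈ X then v else z) ∈ Y)) = {p, q} := by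
            ext v
            simp only [mem_inter, mem_insert, mem_singleton, mem_filter]
            constructor
            · exact fun h' => h'.1
            · rintro (rfl | rfl)
              · exact ⟨Or.inl rfl, hpV, by rw [if_neg hp]; exact h1⟩
              · exact ⟨Or.inr rfl, hqV, by rw [if_pos hq]; exact h2⟩
          rw [this, card_pair hpq] at h
          omega
        · have : ({z, q} ∩ Y : Finset V) = {z} := by
            ext v
            simp only [mem_inter, mem_insert, mem_singleton]
            constructor
            · rintro ⟨rfl | rfl, h'⟩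
              · rfl
              · exact absurd h' h2
            · rintro rfl
              exact ⟨Or.inl rfl, h1⟩
          rw [this, card_singleton]
        · have : ({z, q} ∩ Y : Finset V) = {q} := by
            ext v
            simp only [mem_inter, mem_insert, mem_singleton]
            constructor
            · rintro ⟨rfl | rfl, h'⟩
              · exact absurd h' h1
              · rfl
            · rintro rfl
              exact ⟨Or.inr rfl, h2⟩
          rw [this, card_singleton]
        · exfalso
          have : ({p, q} ∩ Vs.filter (fun v => (if v ∈ X then v else z) ∈ Y)) = ∅ := by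
            ext v
            simp only [mem_inter, mem_insert, mem_singleton, mem_filter, notMem_empty, iff_false]
            rintro ⟨rfl | rfl, -, h'⟩
            · rw [if_neg hp] at h'; exact h1 h'
            · rw [if_pos hq] at h'; exact h2 h'
          rw [this, card_empty] at h
          omega
      · exfalso
        by_cases h1 : z ∈ Y
        · have : ({p, q} ∩ Vs.filter (fun v => (if v ∈ X then v else z) ∈ Y)) = {p, q} := by
            ext v
            simp only [mem_inter, mem_insert, mem_singleton, mem_filter]
            constructor
            · exact fun h' => h'.1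
            · rintro (rfl | rfl)
              · exact ⟨Or.inl rfl, hpV, by rw [if_neg hp]; exact h1⟩
              · exact ⟨Or.inr rfl, hqV, by rw [if_neg hq]; exact h1⟩
          rw [this, card_pair hpq] at h
          omega
        · have : ({p, q} ∩ Vs.filter (fun v => (if v ∈ X then v else z) ∈ Y)) = ∅ := by
            ext v
            simp only [mem_inter, mem_insert, mem_singleton, mem_filter, notMem_empty, iff_false]
            rintro ⟨rfl | rfl, -, h'⟩
            · rw [if_neg hp] at h'; exact h1 h'
            · rw [if_neg hq] at h'; exact h1 h'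
          rw [this, card_empty] at h
          omega
    · rintro ⟨⟨heE, hne⟩, h⟩
      refine ⟨heE, ?_⟩
      rw [← h]
      apply Finset.card_bij (fun v _ => if v ∈ X then v else z)
      · intro v hv
        rw [mem_inter, mem_filter] at hv
        rw [mem_inter]
        exact ⟨mem_image_of_mem _ hv.1, hv.2.2⟩
      · intro v hv w hw hvw
        rw [mem_inter, mem_filter] at hv hw
        by_contra hne'
        obtain ⟨r, hr⟩ := hne
        rw [mem_inter] at hr
        have htwo := hI.two e heE
        have hset : inc e = {v, w} := by
          symm
          apply Finset.eq_of_subset_of_card_le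
          · intro x hx
            rcases mem_insert.1 hx with rfl | hx
            · exact hv.1
            · rw [mem_singleton] at hx; rw [hx]; exact hw.1
          · rw [htwo, card_pair hne']
        by_cases hvX : v ∈ X
        · rw [if_pos hvX] at hvw
          by_cases hwX : w ∈ X
          · rw [if_pos hwX] at hvw; exact hne' hvw
          · rw [if_neg hwX] at hvw; exact hzX (hvw ▸ hvX)
        · rw [if_neg hvX] at hvw
          by_cases hwX : w ∈ X
          · rw [if_pos hwX] at hvw; exact hzX (hvw ▸ hwX)
          · have hr1 := hr.1
            rw [hset, mem_insert, mem_singleton] at hr1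
            rcases hr1 with h' | h'
            · exact hvX (h' ▸ hr.2)
            · exact hwX (h' ▸ hr.2)
      · intro y hy
        rw [mem_inter] at hy
        unfold conI at hy
        rw [mem_image] at hy
        obtain ⟨⟨v, hv, rfl⟩, hy2⟩ := hy
        exact ⟨v, mem_inter.2 ⟨hv, mem_filter.2 ⟨hI.sub e heE hv, hy2⟩⟩, rfl⟩
  · intro v hv
    rcases mem_insert.1 hv with rfl | hvX
    · rw [c2]
      obtain ⟨k, hk⟩ := CIx.parity Es inc X M hI.two
      have h5 : ∃ l : ℕ, ∑ w ∈ X, dg Es inc M w = X.card + 2 * l := by
        refine ⟨∑ w ∈ X, (dg Es inc M w / 2), ?_⟩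
        rw [Finset.card_eq_sum_ones, Finset.mul_sum, ← Finset.sum_add_distrib]
        apply Finset.sum_congr rfl
        intro w hw
        have := hI.odd w (hX hw)
        rw [Nat.odd_iff] at this
        omega
      obtain ⟨l, hl⟩ := h5
      rw [hl] at hk
      rw [Nat.odd_iff] at hXodd ⊢
      omega
    · rw [c1 M v hvX]
      exact hI.odd v (hX hvX)

end H165R2.F5
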