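import Mathlib
import Pool.Agent.H165R2.F5.Stubs

/-! F5 project, task DR: degrees in the reduced graph. -/
set_option autoImplicit false
open Finset

namespace H165R2.F5

theorem T_DR : S_DR := by
  intro V E _ _ Vs Es inc M x y a b u v exy eyv eyb exu exa _ hC S h1 h2 w hwx hwy
  obtain ⟨⟨mxy, ixy, Mxy⟩, ⟨myv, iyv, Myv⟩, ⟨myb, iyb, Myb⟩, ⟨mxu, ixu, Mxu⟩, ⟨mxa, ixa, Mxa⟩,
    nxy, ⟨nax, nay⟩, ⟨nbx, nby⟩, ⟨nux, nuy⟩, ⟨nvx, nvy⟩, nab, nuv⟩ := hC
  have hx_yv : x ∉ inc eyv := by rw [iyv]; simp [nxy, nvx.symm]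
  have hx_yb : x ∉ inc eyb := by rw [iyb]; simp [nxy, nbx.symm]
  have hy_xa : y ∉ inc exa := by rw [ixa]; simp [nxy.symm, nay.symm]
  have hx_xy : x ∈ inc exy := by rw [ixy]; simp
  have hy_xy : y ∈ inc exy := by rw [ixy]; simp
  have hx_xu : x ∈ inc exu := by rw [ixu]; simp
  have hx_xa : x ∈ inc exa := by rw [ixa]; simp
  have d1 : eyv ≠ exy := by rintro rfl; exact hx_yv hx_xy
  have d2 : eyb ≠ exy := by rintro rfl; exact hx_yb hx_xy
  have d3 : eyb ≠ eyv := by rintro rfl; exact Myb Myv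
  have d4 : exu ≠ exy := by rintro rfl; exact Mxy Mxu
  have d5 : exu ≠ eyv := by rintro rfl; exact hx_yv hx_xu
  have d6 : exu ≠ eyb := by rintro rfl; exact Myb Mxu
  have d7 : exa ≠ exy := by rintro rfl; exact hy_xa hy_xy
  have d8 : exa ≠ eyv := by rintro rfl; exact Mxa Myv
  have d9 : exa ≠ eyb := by rintro rfl; exact hx_yb hx_xa
  have d10 : exa ≠ exu := by rintro rfl; exact Mxa Mxu
  have m1 : eyv ∈ Es.erase exy := mem_erase.2 ⟨d1, myv⟩
  have m2 : eyb ∈ (Es.erase exy).erase eyv := mem_erase.2 ⟨d3, mem_erase.2 ⟨d2, myb⟩⟩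
  have m3 : exu ∈ ((Es.erase exy).erase eyv).erase eyb :=
    mem_erase.2 ⟨d6, mem_erase.2 ⟨d5, mem_erase.2 ⟨d4, mxu⟩⟩⟩
  have m4 : exa ∈ (((Es.erase exy).erase eyv).erase eyb).erase exu :=
    mem_erase.2 ⟨d10, mem_erase.2 ⟨d9, mem_erase.2 ⟨d8, mem_erase.2 ⟨d7, mxa⟩⟩⟩⟩
  unfold dg redE redI
  rw [card_filter, card_filter]
  rw [← add_sum_erase Es _ mxy, ← add_sum_erase _ _ m1, ← add_sum_erase _ _ m2,
    ← add_sum_erase _ _ m3, ← add_sum_erase _ _ m4]
  rw [← add_sum_erase (((Es.erase exy).erase eyv).erase eyb) _ m3, ← add_sum_erase _ _ m4]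
  have hR : ∑ e ∈ ((((Es.erase exy).erase eyv).erase eyb).erase exu).erase exa,
      (if w ∈ Function.update (Function.update inc exu {u, v}) exa {a, b} e ∧ e ∈ S then 1 else 0) =
      ∑ e ∈ ((((Es.erase exy).erase eyv).erase eyb).erase exu).erase exa,
      (if w ∈ inc e ∧ e ∈ S then 1 else 0) := by
    apply sum_congr rfl
    intro e he
    have e1 : e ≠ exa := (mem_erase.1 he).1
    have e2 : e ≠ exu := (mem_erase.1 (mem_erase.1 he).2).1
    rw [Function.update_of_ne e1, Function.update_of_ne e2]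
  rw [hR, Function.update_self, Function.update_of_ne d10.symm, Function.update_self]
  rw [ixy, iyv, iyb, ixu, ixa]
  simp only [mem_insert, mem_singleton, hwx, hwy, false_or, false_and, if_false, h1, h2]
  generalize ∑ e ∈ ((((Es.erase exy).erase eyv).erase eyb).erase exu).erase exa,
      (if w ∈ inc e ∧ e ∈ S then 1 else 0) = R
  by_cases su : exu ∈ S <;> by_cases sa : exa ∈ S <;> simp only [su, sa, and_true, and_false,
    if_false, zero_add, add_zero]
  · by_cases wu : w = u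
    · subst wu
      by_cases wa : w = a
      · subst wa; simp [nuv, nab]; try omega
      · by_cases wb : w = b
        · subst wb; simp [nuv, wa]; try omega
        · simp [nuv, wa, wb]; try omega
    · by_cases wa : w = a
      · subst wa; simp [wu, nab]; try omega
      · by_cases wb : w = b
        · subst wb; simp [wu, wa]; try omega
        · simp [wu, wa, wb]
  · by_cases wu : w = u
    · subst wu; simp [nuv]
    · simp [wu]
  · by_cases wa : w = a
    · subst wa; simp [nab]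
    · by_cases wb : w = b
      · subst wb; simp [wa]
      · simp [wa, wb]

end H165R2.F5
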