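import Mathlib
import Pool.Agent.H165R2.F5.Stubs

/-! Final theorem 1: the theorem for multigraphs. -/
set_option autoImplicit false

namespace H165R2.F5

theorem T_F1 (hJN : S_JN) : S_F1 := by
  intro V E _ _ ends h1 h2 h3 M₁ hM hodd e₀
  obtain ⟨M₂, J, he, hM2, -, -, hS⟩ := hJN V E ends h1 h2 h3 M₁ hM hodd e₀
  exact ⟨M₂, he, hM2, hS⟩

end H165R2.F5
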