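import Mathlib
import Pool.Agent.H165R2.F5.Stubs

/-! Final theorem 2: `F_5`-flows. -/
set_option autoImplicit false
open Finset

namespace H165R2.F5

namespace F2x

/-- five of the seven lines of the Fano plane -/
def L : Finset (Finset (Fin 3 → ZMod 2)) :=
  ((univ : Finset (Fin 3 → ZMod 2)).filter (fun c => c ≠ 0 ∧ c ≠ ![1, 0, 0] ∧ c ≠ ![0, 1, 0])).image
    (fun c => (univ : Finset (Fin 3 → ZMod 2)).filter
      (fun x => x ≠ 0 ∧ c 0 * x 0 + c 1 * x 1 + c 2 * x 2 = 0))

lemma L_card : L.card ≤ 5 := by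
  refine card_image_le.trans ?_
  decide +kernel

lemma mem_L : ∀ p q : Fin 3 → ZMod 2, p ≠ 0 → q ≠ 0 → p + q ≠ 0 → (p 0 ≠ 0 ∨ q 0 ≠ 0) →
    (p 1 ≠ 0 ∨ q 1 ≠ 0) → ({p, q, p + q} : Finset (Fin 3 → ZMod 2)) ∈ L := by
  decide +kernel

lemma char2 (p q r : Fin 3 → ZMod 2) (h : p + q + r = 0) : r = p + q := by
  funext i
  have h1 := congrFun h i
  simp only [Pi.add_apply, Pi.zero_apply] at h1 ⊢
  revert h1
  generalize p i = a
  generalize q i = b
  generalize r i = c
  revert a b c
  decide

/-- counting in characteristic two -/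
lemma sum_ind {E : Type} [DecidableEq E] (S : Finset E) (P : E → Prop) [DecidablePred P]
    (h3 : S.card = 3) (ho : Odd (S.filter P).card) :
    ∑ e ∈ S, (if P e then (0 : ZMod 2) else 1) = 0 := by
  have h1 : ∑ e ∈ S, (if P e then (0 : ZMod 2) else 1) = ((S.filter (fun e => ¬ P e)).card : ZMod 2) := by
    rw [Finset.card_filter]
    push_cast
    refine Finset.sum_congr rfl fun e _ => ?_
    by_cases h : P e <;> simp [h]
  have h2 : (S.filter P).card + (S.filter (fun e => ¬ P e)).card = 3 := by
    rw [Finset.card_filter_add_card_filter_not, h3]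
  rw [h1, ZMod.natCast_eq_zero_iff_even]
  rcases ho with ⟨k, hk⟩
  exact ⟨1 - k, by omega⟩

end F2x

open F2x in
theorem T_F2 (hJN : S_JN) : S_F2 := by
  intro V E _ _ _ _ h t hne hdeg hbr hex
  classical
  obtain ⟨M, hM, hodd⟩ := hex
  set star : V → Finset E := fun v => univ.filter (fun e => h e = v ∨ t e = v) with hstar
  have hdisj : ∀ v, Disjoint (univ.filter (fun e => h e = v)) (univ.filter (fun e => t e = v)) := by
    intro v
    rw [Finset.disjoint_left]
    intro e he he'
    rw [mem_filter] at he he'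
    exact hne e (he.2.trans he'.2.symm)
  have hunion : ∀ v, star v = (univ.filter (fun e => h e = v)) ∪ (univ.filter (fun e => t e = v)) := by
    intro v
    rw [hstar]
    exact filter_or _ _ _
  have hcard : ∀ v, (star v).card = 3 := by
    intro v
    rw [hunion, card_union_of_disjoint (hdisj v), hdeg v]
  by_cases hE : IsEmpty E
  · have hV : IsEmpty V := ⟨fun v => by
      have := hcard v
      rw [Finset.card_eq_three] at this
      obtain ⟨e, _⟩ := this
      exact hE.false e⟩
    refine ⟨fun e => hE.elim e, fun e => hE.elim e, fun v => hV.elim v, ?_⟩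
    rw [Finset.univ_eq_empty]
    simp
  rw [not_isEmpty_iff] at hE
  obtain ⟨e0⟩ := hE
  have hmem : ∀ v e, v ∈ s(h e, t e) ↔ (h e = v ∨ t e = v) := by
    intro v e
    rw [Sym2.mem_iff]
    constructor
    · rintro (h | h)
      · exact Or.inl h.symm
      · exact Or.inr h.symm
    · rintro (h | h)
      · exact Or.inl h.symm
      · exact Or.inr h.symm
  have hset : ∀ v, {e : E | v ∈ s(h e, t e)} = ↑(star v) := by
    intro v
    ext e
    simp only [Set.mem_setOf_eq, hstar, coe_filter, mem_univ, true_and]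
    exact hmem v e
  obtain ⟨M₂, J, -, hM2, hJ, hno, -⟩ := hJN V E (fun e => s(h e, t e))
    (fun e => ⟨h e, t e, hne e, Sym2.mem_mk_left _ _, Sym2.mem_mk_right _ _⟩)
    (fun v => by rw [hset v, Set.ncard_coe_finset, hcard v])
    (fun S b hb => by
      apply hbr (univ.filter (fun v => v ∈ S))
      rw [Finset.card_eq_one]
      refine ⟨b, ?_⟩
      ext e
      rw [mem_filter, mem_singleton, ← hb e]
      simp only [mem_univ, true_and, mem_filter]
      constructor
      · rintro (⟨h1, h2⟩ | ⟨h1, h2⟩)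
        · exact ⟨h e, t e, Sym2.mem_mk_left _ _, Sym2.mem_mk_right _ _, h1, h2⟩
        · exact ⟨t e, h e, Sym2.mem_mk_right _ _, Sym2.mem_mk_left _ _, h2, h1⟩
      · rintro ⟨x, y, hx, hy, hxS, hyS⟩
        rw [Sym2.mem_iff] at hx hy
        rcases hx with rfl | rfl <;> rcases hy with rfl | rfl
        · exact absurd hxS hyS
        · exact Or.inl ⟨hxS, hyS⟩
        · exact Or.inr ⟨hyS, hxS⟩
        · exact absurd hxS hyS)
    M hM hodd e0
  set f : E → (Fin 3 → ZMod 2) := fun e =>
    ![if e ∈ M then 0 else 1, if e ∈ M₂ then 0 else 1, if e ∈ J then 0 else 1] with hf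
  have hf0 : ∀ e, f e ≠ 0 := by
    intro e h0
    have a0 := congrFun h0 0
    have a1 := congrFun h0 1
    have a2 := congrFun h0 2
    simp only [hf, Matrix.cons_val_zero, Matrix.cons_val_one, Matrix.cons_val, Pi.zero_apply] at a0 a1 a2
    refine hno e ⟨?_, ?_, ?_⟩
    · by_contra hh; rw [if_neg hh] at a0; exact one_ne_zero a0
    · by_contra hh; rw [if_neg hh] at a1; exact one_ne_zero a1
    · by_contra hh; rw [if_neg hh] at a2; exact one_ne_zero a2
  have hone : ∀ (A : Set E), (∀ v : V, ∃! e : E, e ∈ A ∧ v ∈ s(h e, t e)) → ∀ v,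
      ((star v).filter (fun e => e ∈ A)).card = 1 := by
    intro A hA v
    obtain ⟨e, ⟨he1, he2⟩, hu⟩ := hA v
    rw [Finset.card_eq_one]
    refine ⟨e, ?_⟩
    ext e'
    rw [mem_filter, mem_singleton]
    constructor
    · rintro ⟨h1, h2⟩
      refine hu e' ⟨h2, ?_⟩
      rw [hmem]
      simpa [hstar] using h1
    · rintro rfl
      refine ⟨?_, he1⟩
      rw [hmem] at he2
      simpa [hstar] using he2
  have hJo : ∀ v, Odd ((star v).filter (fun e => e ∈ J)).card := by
    intro v
    have h1 := hJ v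
    have e1 : {e : E | e ∈ J ∧ v ∈ s(h e, t e)} = ↑((star v).filter (fun e => e ∈ J)) := by
      ext e
      simp only [Set.mem_setOf_eq, coe_filter, hstar, mem_filter, mem_univ, true_and]
      rw [hmem v e]
      tauto
    rw [e1, Set.ncard_coe_finset] at h1
    exact h1
  have hsum : ∀ v, ∑ e ∈ star v, f e = 0 := by
    intro v
    funext i
    rw [Finset.sum_apply, Pi.zero_apply]
    fin_cases i
    · exact sum_ind (star v) (fun e => e ∈ M) (hcard v) (by rw [hone M hM v]; exact odd_one)
    · exact sum_ind (star v) (fun e => e ∈ M₂) (hcard v) (by rw [hone M₂ hM2 v]; exact odd_one)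
    · exact sum_ind (star v) (fun e => e ∈ J) (hcard v) (hJo v)
  have hnz : ∀ (A : Set E), (∀ v : V, ∃! e : E, e ∈ A ∧ v ∈ s(h e, t e)) → ∀ v, ∀ a b : E, a ≠ b →
      a ∈ star v → b ∈ star v → ¬ (a ∈ A ∧ b ∈ A) := by
    intro A hA v a b hab ha hb hAB
    have h1 := hone A hA v
    rw [Finset.card_eq_one] at h1
    obtain ⟨c, hc⟩ := h1
    have ha' : a ∈ (star v).filter (fun e => e ∈ A) := mem_filter.2 ⟨ha, hAB.1⟩
    have hb' : b ∈ (star v).filter (fun e => e ∈ A) := mem_filter.2 ⟨hb, hAB.2⟩
    rw [hc, mem_singleton] at ha' hb'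
    exact hab (ha'.trans hb'.symm)
  refine ⟨f, hf0, ?_, ?_⟩
  · intro v
    rw [← Finset.sum_union (hdisj v), ← hunion v]
    exact hsum v
  · refine (Finset.card_le_card ?_).trans L_card
    intro X hX
    rw [Finset.mem_image] at hX
    obtain ⟨v, -, rfl⟩ := hX
    have h3 := hcard v
    have hs := hsum v
    rw [Finset.card_eq_three] at h3
    obtain ⟨a, b, c, hab, hac, hbc, habc⟩ := h3
    have hav : a ∈ star v := by rw [habc]; simp
    have hbv : b ∈ star v := by rw [habc]; simp
    rw [habc, Finset.sum_insert (by simp [hab, hac]), Finset.sum_insert (by simp [hbc]),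
      Finset.sum_singleton, ← add_assoc] at hs
    have hc := char2 _ _ _ hs
    have e1 : (Finset.image f (univ.filter (fun e => h e = v ∨ t e = v))) = {f a, f b, f a + f b} := by
      have : (univ.filter (fun e => h e = v ∨ t e = v)) = star v := rfl
      rw [this, habc, Finset.image_insert, Finset.image_insert, Finset.image_singleton, hc]
    rw [e1]
    refine mem_L _ _ (hf0 a) (hf0 b) (by rw [← hc]; exact hf0 c) ?_ ?_
    · by_contra hcon
      rw [not_or, not_not, not_not] at hcon
      obtain ⟨h1, h2⟩ := hcon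
      simp only [hf, Matrix.cons_val_zero] at h1 h2
      refine hnz M hM v a b hab hav hbv ⟨?_, ?_⟩
      · by_contra hh; rw [if_neg hh] at h1; exact one_ne_zero h1
      · by_contra hh; rw [if_neg hh] at h2; exact one_ne_zero h2
    · by_contra hcon
      rw [not_or, not_not, not_not] at hcon
      obtain ⟨h1, h2⟩ := hcon
      simp only [hf, Matrix.cons_val_one, Matrix.cons_val_zero] at h1 h2
      refine hnz M₂ hM2 v a b hab hav hbv ⟨?_, ?_⟩
      · by_contra hh; rw [if_neg hh] at h1; exact one_ne_zero h1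
      · by_contra hh; rw [if_neg hh] at h2; exact one_ne_zero h2

end H165R2.F5
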