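import Mathlib
import Pool.Agent.H165R2.F5.Stubs

/-! Final theorem 3: covers by three cycles, two of them 2-factors. -/
set_option autoImplicit false

namespace H165R2.F5

namespace F3x

variable {V : Type}

/-- the edges at `v` which belong to `H ≤ G` correspond to the neighbours of `v` in `H` -/
lemma nb (G H : SimpleGraph V) (hH : H ≤ G) (v : V) :
    {e : G.edgeSet | (e : Sym2 V) ∈ H.edgeSet ∧ v ∈ (e : Sym2 V)}.ncard = (H.neighborSet v).ncard := by
  symm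
  refine Set.ncard_congr (fun w hw => (⟨s(v, w), hH hw⟩ : G.edgeSet)) ?_ ?_ ?_
  · intro w hw
    exact ⟨hw, Sym2.mem_mk_left _ _⟩
  · intro w w' hw hw' h
    have h1 : s(v, w) = s(v, w') := congrArg Subtype.val h
    rw [Sym2.eq_iff] at h1
    rcases h1 with ⟨-, h⟩ | ⟨h, h'⟩
    · exact h
    · rw [h', ← h]
  · rintro ⟨e, he⟩ ⟨h1, h2⟩
    obtain ⟨w, rfl⟩ := Sym2.mem_iff_exists.1 h2
    exact ⟨w, h1, rfl⟩

/-- the graph formed by the edges of `G` outside `A` -/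
def gr (G : SimpleGraph V) (A : Set G.edgeSet) : SimpleGraph V where
  Adj p q := ∃ h : s(p, q) ∈ G.edgeSet, (⟨s(p, q), h⟩ : G.edgeSet) ∉ A
  symm := ⟨fun p q h => by
    obtain ⟨h1, h2⟩ := h
    have e : s(q, p) = s(p, q) := Sym2.eq_swap
    refine ⟨e ▸ h1, ?_⟩
    intro h3
    apply h2
    have : (⟨s(p, q), h1⟩ : G.edgeSet) = ⟨s(q, p), e ▸ h1⟩ := Subtype.ext e.symm
    rw [this]
    exact h3⟩
  loopless := ⟨fun p h => by
    obtain ⟨h1, -⟩ := h
    exact G.loopless.irrefl p h1⟩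

lemma gr_le (G : SimpleGraph V) (A : Set G.edgeSet) : gr G A ≤ G := by
  intro p q h
  obtain ⟨h1, -⟩ := h
  exact h1

lemma mem_gr (G : SimpleGraph V) (A : Set G.edgeSet) (e : G.edgeSet) :
    (e : Sym2 V) ∈ (gr G A).edgeSet ↔ e ∉ A := by
  obtain ⟨e, he⟩ := e
  induction e using Sym2.ind with
  | _ p q =>
    constructor
    · rintro ⟨_, h⟩
      exact h
    · intro h
      exact ⟨he, h⟩

lemma split [Fintype V] (G : SimpleGraph V) (h3 : ∀ v : V, (G.neighborSet v).ncard = 3)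
    (A : Set G.edgeSet) (v : V) :
    {e : G.edgeSet | e ∈ A ∧ v ∈ (e : Sym2 V)}.ncard +
      {e : G.edgeSet | e ∉ A ∧ v ∈ (e : Sym2 V)}.ncard = 3 := by
  have h1 := nb G G le_rfl v
  rw [h3 v] at h1
  have e1 : {e : G.edgeSet | (e : Sym2 V) ∈ G.edgeSet ∧ v ∈ (e : Sym2 V)} =
      {e : G.edgeSet | e ∈ A ∧ v ∈ (e : Sym2 V)} ∪ {e : G.edgeSet | e ∉ A ∧ v ∈ (e : Sym2 V)} := by
    ext e
    constructor
    · rintro ⟨-, h⟩
      by_cases hA : e ∈ A
      · exact Or.inl ⟨hA, h⟩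
      · exact Or.inr ⟨hA, h⟩
    · rintro (⟨-, h⟩ | ⟨-, h⟩)
      · exact ⟨e.2, h⟩
      · exact ⟨e.2, h⟩
  rw [e1, Set.ncard_union_eq] at h1
  · exact h1
  · rw [Set.disjoint_left]
    rintro e ⟨h, -⟩ ⟨h', -⟩
    exact h' h

lemma walk_mem {G : SimpleGraph V} (S : Set V) (hS : ∀ a b, G.Adj a b → a ∈ S → b ∈ S) {x y : V}
    (h : G.Reachable x y) (hx : x ∈ S) : y ∈ S := by
  obtain ⟨p⟩ := h
  induction p with
  | nil => exact hx
  | cons hadj _ ih => exact ih (hS _ _ hadj hx)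

end F3x

open F3x in
theorem T_F3 (hJN : S_JN) : S_F3 := by
  intro V _ G h3 hbr F₁ hF1 hF2 hodd
  classical
  rcases isEmpty_or_nonempty V with hV | ⟨⟨v0⟩⟩
  · refine ⟨⊥, ⊥, bot_le, bot_le, fun v => hV.elim v, fun v => hV.elim v, ?_⟩
    ext a
    exact hV.elim a
  -- an edge
  have hex : (G.neighborSet v0).Nonempty := by
    rw [← Set.ncard_pos, h3 v0]
    norm_num
  obtain ⟨w0, hw0⟩ := hex
  set M₁ : Set G.edgeSet := {e | (e : Sym2 V) ∉ F₁.edgeSet} with hM1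
  have hM1c : ∀ v, {e : G.edgeSet | e ∈ M₁ ∧ v ∈ (e : Sym2 V)}.ncard = 1 := by
    intro v
    have h := split G h3 M₁ v
    have e1 : {e : G.edgeSet | e ∉ M₁ ∧ v ∈ (e : Sym2 V)} =
        {e : G.edgeSet | (e : Sym2 V) ∈ F₁.edgeSet ∧ v ∈ (e : Sym2 V)} := by
      ext e
      simp only [hM1, Set.mem_ofPred_eq, not_not]
    rw [e1, nb G F₁ hF1 v, hF2 v] at h
    omega
  have huniq : ∀ A : Set G.edgeSet, (∀ v, {e : G.edgeSet | e ∈ A ∧ v ∈ (e : Sym2 V)}.ncard = 1) →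
      ∀ v : V, ∃! e : G.edgeSet, e ∈ A ∧ v ∈ (e : Sym2 V) := by
    intro A hA v
    obtain ⟨e, he⟩ := Set.ncard_eq_one.1 (hA v)
    refine ⟨e, ?_, ?_⟩
    · have : e ∈ {e : G.edgeSet | e ∈ A ∧ v ∈ (e : Sym2 V)} := by rw [he]; exact Set.mem_singleton e
      exact this
    · intro e' he'
      have : e' ∈ {e : G.edgeSet | e ∈ A ∧ v ∈ (e : Sym2 V)} := he'
      rw [he] at this
      exact this
  have hcount : ∀ A : Set G.edgeSet, (∀ v : V, ∃! e : G.edgeSet, e ∈ A ∧ v ∈ (e : Sym2 V)) →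
      ∀ v, {e : G.edgeSet | e ∈ A ∧ v ∈ (e : Sym2 V)}.ncard = 1 := by
    intro A hA v
    obtain ⟨e, he, hu⟩ := hA v
    rw [Set.ncard_eq_one]
    refine ⟨e, ?_⟩
    ext e'
    constructor
    · intro h
      exact hu e' h
    · intro h
      rw [Set.mem_singleton_iff] at h
      rw [h]
      exact he
  have hoff : offGraph (fun e : G.edgeSet => (e : Sym2 V)) M₁ = F₁ := by
    ext p q
    constructor
    · rintro ⟨hpq, e, he, hp, hq⟩
      have he' : (e : Sym2 V) ∈ F₁.edgeSet := by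
        by_contra hcon
        exact he hcon
      have : (e : Sym2 V) = s(p, q) := (Sym2.mem_and_mem_iff hpq).1 ⟨hp, hq⟩
      rw [this] at he'
      exact he'
    · intro h
      refine ⟨h.ne, ⟨s(p, q), hF1 h⟩, ?_, Sym2.mem_mk_left _ _, Sym2.mem_mk_right _ _⟩
      intro hcon
      exact hcon h
  obtain ⟨M₂, J, -, hM2, hJ, hno, -⟩ := hJN V G.edgeSet (fun e => (e : Sym2 V))
    (fun e => by
      obtain ⟨e, he⟩ := e
      induction e using Sym2.ind with
      | _ p q => exact ⟨p, q, G.ne_of_adj he, Sym2.mem_mk_left _ _, Sym2.mem_mk_right _ _⟩)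
    (fun v => by
      have h := nb G G le_rfl v
      rw [h3 v] at h
      rw [← h]
      congr 1
      ext e
      constructor
      · intro hv
        exact ⟨e.2, hv⟩
      · rintro ⟨-, hv⟩
        exact hv)
    (fun S b hb => by
      obtain ⟨x, y, hx, hy, hxS, hyS⟩ := (hb b).2 rfl
      have hxy : x ≠ y := by
        rintro rfl
        exact hyS hxS
      have hbe : (b : Sym2 V) = s(x, y) := (Sym2.mem_and_mem_iff hxy).1 ⟨hx, hy⟩
      have hadj : G.Adj x y := by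
        have := b.2
        rw [hbe] at this
        exact this
      refine hyS (walk_mem S ?_ (hbr x y hadj) hxS)
      intro a c hac haS
      rw [SimpleGraph.deleteEdges_adj] at hac
      by_contra hcS
      have h1 := (hb ⟨s(a, c), hac.1⟩).1
        ⟨a, c, Sym2.mem_mk_left _ _, Sym2.mem_mk_right _ _, haS, hcS⟩
      apply hac.2
      rw [Set.mem_singleton_iff, ← hbe, ← h1])
    M₁ (huniq M₁ hM1c) (by rw [hoff]; exact hodd) ⟨s(v0, w0), hw0⟩
  refine ⟨gr G M₂, gr G J, gr_le G M₂, gr_le G J, ?_, ?_, ?_⟩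
  · intro v
    rw [← nb G (gr G M₂) (gr_le G M₂) v]
    have h1 := split G h3 M₂ v
    rw [hcount M₂ hM2 v] at h1
    have e1 : {e : G.edgeSet | (e : Sym2 V) ∈ (gr G M₂).edgeSet ∧ v ∈ (e : Sym2 V)} =
        {e : G.edgeSet | e ∉ M₂ ∧ v ∈ (e : Sym2 V)} := by
      ext e
      simp only [Set.mem_ofPred_eq, mem_gr]
    rw [e1]
    omega
  · intro v
    rw [← nb G (gr G J) (gr_le G J) v]
    have h1 := split G h3 J v
    have e1 : {e : G.edgeSet | (e : Sym2 V) ∈ (gr G J).edgeSet ∧ v ∈ (e : Sym2 V)} =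
        {e : G.edgeSet | e ∉ J ∧ v ∈ (e : Sym2 V)} := by
      ext e
      simp only [Set.mem_ofPred_eq, mem_gr]
    rw [e1]
    obtain ⟨k, hk⟩ := hJ v
    exact ⟨1 - k, by omega⟩
  · apply le_antisymm
    · exact sup_le (sup_le hF1 (gr_le G M₂)) (gr_le G J)
    · intro p q hpq
      have h1 := hno ⟨s(p, q), hpq⟩
      by_cases a1 : (⟨s(p, q), hpq⟩ : G.edgeSet) ∈ M₁
      · by_cases a2 : (⟨s(p, q), hpq⟩ : G.edgeSet) ∈ M₂
        · by_cases a3 : (⟨s(p, q), hpq⟩ : G.edgeSet) ∈ J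
          · exact absurd ⟨a1, a2, a3⟩ h1
          · exact Or.inr ⟨hpq, a3⟩
        · exact Or.inl (Or.inr ⟨hpq, a2⟩)
      · refine Or.inl (Or.inl ?_)
        by_contra hcon
        exact a1 hcon

end H165R2.F5
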