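import Mathlib
import Pool.Agent.H165R2.F5.Stubs

/-! FC: finding the configuration. -/
set_option autoImplicit false
open Finset

namespace H165R2.F5

namespace FCx

variable {V E : Type} [DecidableEq V] [DecidableEq E] {Vs : Finset V} {Es : Finset E}
  {inc : E → Finset V} {M : Finset E}

/-- some edge outside `M` at `v` -/
def Li (Es : Finset E) (inc : E → Finset V) (M : Finset E) (v : V) : Prop :=
  ∃ f ∈ Es, v ∈ inc f ∧ f ∉ M

theorem other (h : Inst Vs Es inc M) {e : E} (he : e ∈ Es) {p : V} (hp : p ∈ inc e) :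
    ∃ q, q ≠ p ∧ inc e = {p, q} ∧ q ∈ Vs := by
  obtain ⟨a, b, hab, hi⟩ := Finset.card_eq_two.1 (h.two e he)
  have hs := h.sub e he
  rw [hi] at hp hs
  rcases Finset.mem_insert.1 hp with rfl | hp
  · exact ⟨b, hab.symm, hi, hs (by simp)⟩
  · rw [Finset.mem_singleton] at hp
    subst hp
    exact ⟨a, hab, by rw [hi, Finset.pair_comm], hs (by simp)⟩

theorem light (h : Inst Vs Es inc M) {v : V} (hv : v ∈ Vs) {f0 : E} (h0 : f0 ∈ Es)
    (h1 : v ∈ inc f0) (h2 : f0 ∉ M) :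
    ∃ g f1, (g ∈ Es ∧ v ∈ inc g ∧ g ∈ M) ∧ (f1 ∈ Es ∧ v ∈ inc f1 ∧ f1 ∉ M ∧ f1 ≠ f0) := by
  have h3 := h.three v hv
  have h4 := h.odd v hv
  have h5 := Finset.card_filter_add_card_filter_not (s := Es.filter (fun e => v ∈ inc e))
    (p := fun e => e ∈ M)
  rw [Finset.filter_filter, h3] at h5
  have h6 : (Es.filter (fun e => v ∈ inc e ∧ e ∈ M)).card = dg Es inc M v := rfl
  rw [h6] at h5
  have h7 : f0 ∈ (Es.filter (fun e => v ∈ inc e)).filter (fun e => ¬ e ∈ M) :=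
    Finset.mem_filter.2 ⟨Finset.mem_filter.2 ⟨h0, h1⟩, h2⟩
  have h8 : 0 < ((Es.filter (fun e => v ∈ inc e)).filter (fun e => ¬ e ∈ M)).card :=
    Finset.card_pos.2 ⟨f0, h7⟩
  obtain ⟨k, hk⟩ := h4
  have h9 : dg Es inc M v = 1 := by omega
  have h10 : 1 < ((Es.filter (fun e => v ∈ inc e)).filter (fun e => ¬ e ∈ M)).card := by omega
  obtain ⟨f1, hf1, hne⟩ := Finset.exists_mem_ne h10 f0
  have h11 : 0 < (Es.filter (fun e => v ∈ inc e ∧ e ∈ M)).card := by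
    rw [h6, h9]
    exact one_pos
  obtain ⟨g, hg⟩ := Finset.card_pos.1 h11
  rw [Finset.mem_filter] at hg
  rw [Finset.mem_filter, Finset.mem_filter] at hf1
  exact ⟨g, f1, ⟨hg.1, hg.2.1, hg.2.2⟩, ⟨hf1.1.1, hf1.1.2, hf1.2, hne⟩⟩

theorem heavy_mem {A : Finset V} (hH : Hit Vs Es inc M A) {v : V} (hv : v ∈ Vs)
    (hl : ¬ Li Es inc M v) : v ∈ A := by
  obtain ⟨w, hw, hw'⟩ := hH {v} (Finset.singleton_subset_iff.2 hv) (by
    intro e he heM hc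
    have h1 : (inc e ∩ {v}).Nonempty := Finset.card_pos.1 (by omega)
    obtain ⟨w, hw⟩ := h1
    rw [Finset.mem_inter, Finset.mem_singleton] at hw
    obtain ⟨hw1, rfl⟩ := hw
    exact hl ⟨e, he, hw1, heM⟩) (by rw [Finset.card_singleton]; exact odd_one)
  rw [Finset.mem_singleton] at hw'
  rw [← hw']
  exact hw

theorem conf (h : Inst Vs Es inc M) (hP : ∀ e ∈ Es, ∀ f ∈ Es, e ≠ f → inc e ≠ inc f)
    (hT : ∀ e ∈ Es, ∀ f ∈ Es, ∀ g ∈ Es, ∀ p q r : V, p ≠ q → q ≠ r → p ≠ r → inc e = {p, q} →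
      inc f = {q, r} → inc g = {p, r} → False)
    {y b x v : V} {f0 f1 g : E} (h0 : f0 ∈ Es ∧ inc f0 = {y, b} ∧ f0 ∉ M)
    (h1 : f1 ∈ Es ∧ inc f1 = {x, y} ∧ f1 ∉ M) (hg : g ∈ Es ∧ inc g = {y, v} ∧ g ∈ M)
    (hne : f1 ≠ f0) (hby : b ≠ y) (hxy : x ≠ y) (hvy : v ≠ y) :
    ∃ (a u : V) (exu exa : E), Conf Vs Es inc M x y a b u v f1 g f0 exu exa := by
  have hx : x ∈ inc f1 := by rw [h1.2.1]; simp
  have hxV : x ∈ Vs := h.sub f1 h1.1 hx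
  obtain ⟨exu, exa, ⟨a1, a2, a3⟩, ⟨b1, b2, b3, b4⟩⟩ := light h hxV h1.1 hx h1.2.2
  obtain ⟨u, hu, hiu, -⟩ := other h a1 a2
  obtain ⟨a, ha, hia, -⟩ := other h b1 b2
  have hgf : g ≠ f1 := fun e => h1.2.2 (e ▸ hg.2.2)
  have huf : exu ≠ f1 := fun e => h1.2.2 (e ▸ a3)
  have hbx : b ≠ x := by
    rintro rfl
    exact hP f1 h1.1 f0 h0.1 hne (by rw [h1.2.1, h0.2.1, Finset.pair_comm])
  have hay : a ≠ y := by
    rintro rfl
    exact hP exa b1 f1 h1.1 b4 (by rw [hia, h1.2.1])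
  have huy : u ≠ y := by
    rintro rfl
    exact hP exu a1 f1 h1.1 huf (by rw [hiu, h1.2.1])
  have hvx : v ≠ x := by
    rintro rfl
    exact hP g hg.1 f1 h1.1 hgf (by rw [hg.2.1, h1.2.1, Finset.pair_comm])
  refine ⟨a, u, exu, exa, h1, hg, h0, ⟨a1, hiu, a3⟩, ⟨b1, hia, b3⟩, hxy, ⟨ha, hay⟩, ⟨hbx, hby⟩,
    ⟨hu, huy⟩, ⟨hvx, hvy⟩, ?_, ?_⟩
  · rintro rfl
    exact hT f1 h1.1 f0 h0.1 exa b1 x y a hxy hby.symm hbx.symm h1.2.1 h0.2.1 hia
  · rintro rfl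
    exact hT f1 h1.1 g hg.1 exu a1 x y u hxy hvy.symm hvx.symm h1.2.1 hg.2.1 hiu

end FCx

open FCx in
theorem T_FC (hGI : S_GI) : S_FC := by
  intro V E _ _ Vs Es inc M A e h h6 hC hH hA he
  obtain ⟨hP, hT⟩ := hGI V E Vs Es inc M h h6 hC
  -- case 1
  have case1 : ∀ b ∈ inc e, Li Es inc M b →
      ∃ (x y a b u v : V) (exy eyv eyb exu exa : E),
        Conf Vs Es inc M x y a b u v exy eyv eyb exu exa ∧
        x ∉ inc e ∧ y ∉ inc e ∧ (a ∈ inc e ∨ b ∈ inc e ∨ u ∈ inc e ∨ v ∈ inc e) := by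
    rintro b hb ⟨f0, hf0, hbf, hf0M⟩
    have hbV : b ∈ Vs := h.sub e he hb
    obtain ⟨eyb, k1, k2, k3, k4⟩ : ∃ f ∈ Es, b ∈ inc f ∧ f ∉ M ∧ f ≠ e := by
      by_cases heM : e ∈ M
      · exact ⟨f0, hf0, hbf, hf0M, fun h1 => hf0M (h1 ▸ heM)⟩
      · obtain ⟨-, f1, -, c1, c2, c3, c4⟩ := light h hbV he hb heM
        exact ⟨f1, c1, c2, c3, c4⟩
    obtain ⟨q, hq, hie, -⟩ := other h he hb
    obtain ⟨y, hy, hiy, hyV⟩ := other h k1 k2
    have hyb : y ∈ inc eyb := by rw [hiy]; simp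
    obtain ⟨eyv, exy, ⟨l1, l2, l3⟩, ⟨m1, m2, m3, m4⟩⟩ := light h hyV k1 hyb k3
    obtain ⟨v, hv, hiv, -⟩ := other h l1 l2
    obtain ⟨x, hx, hix, -⟩ := other h m1 m2
    obtain ⟨a, u, exu, exa, hconf⟩ := conf h hP hT (y := y) (b := b) (x := x) (v := v)
      ⟨k1, by rw [hiy, Finset.pair_comm], k3⟩ ⟨m1, by rw [hix, Finset.pair_comm], m3⟩
      ⟨l1, hiv, l3⟩ m4 hy.symm hx hv
    refine ⟨x, y, a, b, u, v, exy, eyv, eyb, exu, exa, hconf, ?_, ?_, Or.inr (Or.inl hb)⟩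
    · rw [hie, Finset.mem_insert, Finset.mem_singleton]
      rintro (h1 | h1)
      · exact hconf.nb.1 h1.symm
      · subst h1
        exact hT exy m1 eyb k1 e he x y b hx hy hconf.nb.1.symm (by rw [hix, Finset.pair_comm])
          (by rw [hiy, Finset.pair_comm]) (by rw [hie, Finset.pair_comm])
    · rw [hie, Finset.mem_insert, Finset.mem_singleton]
      rintro (h1 | h1)
      · exact hy h1
      · subst h1
        exact hP eyb k1 e he k4 (by rw [hiy, hie])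
  by_cases hl : ∃ b ∈ inc e, Li Es inc M b
  · obtain ⟨b, hb, hlb⟩ := hl
    exact case1 b hb hlb
  have hhv : ∀ w ∈ inc e, ¬ Li Es inc M w := fun w hw hw' => hl ⟨w, hw, hw'⟩
  -- case 2
  have case2 : ∀ v ∈ inc e, ∀ g ∈ Es, v ∈ inc g → ∀ y, y ≠ v → inc g = {v, y} →
      Li Es inc M y →
      ∃ (x y a b u v : V) (exy eyv eyb exu exa : E),
        Conf Vs Es inc M x y a b u v exy eyv eyb exu exa ∧
        x ∉ inc e ∧ y ∉ inc e ∧ (a ∈ inc e ∨ b ∈ inc e ∨ u ∈ inc e ∨ v ∈ inc e) := by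
    rintro v hv g hg hvg y hyv hig ⟨f0, hf0, hyf, hf0M⟩
    have hgM : g ∈ M := by
      by_contra hgM
      exact hhv v hv ⟨g, hg, hvg, hgM⟩
    have hyV : y ∈ Vs := h.sub f0 hf0 hyf
    obtain ⟨-, f1, -, m1, m2, m3, m4⟩ := light h hyV hf0 hyf hf0M
    obtain ⟨b, hb, hib, -⟩ := other h hf0 hyf
    obtain ⟨x, hx, hix, -⟩ := other h m1 m2
    obtain ⟨a, u, exu, exa, hconf⟩ := conf h hP hT (y := y) (b := b) (x := x) (v := v)
      ⟨hf0, hib, hf0M⟩ ⟨m1, by rw [hix, Finset.pair_comm], m3⟩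
      ⟨hg, by rw [hig, Finset.pair_comm], hgM⟩ m4 hb hx hyv.symm
    refine ⟨x, y, a, b, u, v, f1, g, f0, exu, exa, hconf, ?_, ?_,
      Or.inr (Or.inr (Or.inr hv))⟩
    · intro hxe
      exact hhv x hxe ⟨f1, m1, by rw [hix]; simp, m3⟩
    · intro hye
      exact hhv y hye ⟨f0, hf0, hyf, hf0M⟩
  by_cases hl2 : ∃ v ∈ inc e, ∃ g ∈ Es, v ∈ inc g ∧ ∃ y, y ≠ v ∧ inc g = {v, y} ∧ Li Es inc M y
  · obtain ⟨v, hv, g, hg, hvg, y, hyv, hig, hly⟩ := hl2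
    exact case2 v hv g hg hvg y hyv hig hly
  -- case 3
  exfalso
  have hnb : ∀ v ∈ inc e, ∀ g ∈ Es, v ∈ inc g → ∀ y, y ≠ v → inc g = {v, y} →
      ¬ Li Es inc M y := fun v hv g hg hvg y hyv hig hly =>
    hl2 ⟨v, hv, g, hg, hvg, y, hyv, hig, hly⟩
  obtain ⟨p, q, hpq, hie⟩ := Finset.card_eq_two.1 (h.two e he)
  have hp : p ∈ inc e := by rw [hie]; simp
  have hq : q ∈ inc e := by rw [hie]; simp
  have hpV : p ∈ Vs := h.sub e he hp
  have hqV : q ∈ Vs := h.sub e he hq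
  -- two other edges at a vertex
  have star : ∀ w ∈ inc e, ∃ g₁ g₂, g₁ ≠ g₂ ∧ (g₁ ∈ Es ∧ w ∈ inc g₁ ∧ g₁ ≠ e) ∧
      (g₂ ∈ Es ∧ w ∈ inc g₂ ∧ g₂ ≠ e) := by
    intro w hw
    have h3 := h.three w (h.sub e he hw)
    have h4 : ((Es.filter (fun e => w ∈ inc e)).erase e).card = 2 := by
      rw [Finset.card_erase_of_mem (Finset.mem_filter.2 ⟨he, hw⟩), h3]
    obtain ⟨g₁, g₂, hne, hs⟩ := Finset.card_eq_two.1 h4
    have h5 : g₁ ∈ (Es.filter (fun e => w ∈ inc e)).erase e := by rw [hs]; simp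
    have h6 : g₂ ∈ (Es.filter (fun e => w ∈ inc e)).erase e := by rw [hs]; simp
    rw [Finset.mem_erase, Finset.mem_filter] at h5 h6
    exact ⟨g₁, g₂, hne, ⟨h5.2.1, h5.2.2, h5.1⟩, ⟨h6.2.1, h6.2.2, h6.1⟩⟩
  obtain ⟨g₁, g₂, hg12, ⟨s1, s2, s3⟩, ⟨t1, t2, t3⟩⟩ := star p hp
  obtain ⟨k₁, -, -, ⟨r1, r2, r3⟩, -⟩ := star q hq
  obtain ⟨p1, hp1, hip1, hp1V⟩ := other h s1 s2
  obtain ⟨p2, hp2, hip2, hp2V⟩ := other h t1 t2
  obtain ⟨q1, hq1, hiq1, hq1V⟩ := other h r1 r2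
  have hA1 : p ∈ A := heavy_mem hH hpV (hhv p hp)
  have hA2 : q ∈ A := heavy_mem hH hqV (hhv q hq)
  have hA3 : p1 ∈ A := heavy_mem hH hp1V (hnb p hp g₁ s1 s2 p1 hp1 hip1)
  have hA4 : p2 ∈ A := heavy_mem hH hp2V (hnb p hp g₂ t1 t2 p2 hp2 hip2)
  have hA5 : q1 ∈ A := heavy_mem hH hq1V (hnb q hq k₁ r1 r2 q1 hq1 hiq1)
  have d1 : p1 ≠ q := by
    rintro rfl
    exact hP g₁ s1 e he s3 (by rw [hip1, hie])
  have d2 : p2 ≠ q := by
    rintro rfl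
    exact hP g₂ t1 e he t3 (by rw [hip2, hie])
  have d3 : q1 ≠ p := by
    rintro rfl
    exact hP k₁ r1 e he r3 (by rw [hiq1, hie, Finset.pair_comm])
  have d4 : p1 ≠ p2 := by
    rintro rfl
    exact hP g₁ s1 g₂ t1 hg12 (by rw [hip1, hip2])
  have d5 : p1 ≠ q1 := by
    rintro rfl
    exact hT e he k₁ r1 g₁ s1 p q p1 hpq hq1.symm hp1.symm hie hiq1 hip1
  have d6 : p2 ≠ q1 := by
    rintro rfl
    exact hT e he k₁ r1 g₂ t1 p q p2 hpq hq1.symm hp2.symm hie hiq1 hip2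
  have h7 : ({p, q, p1, p2, q1} : Finset V) ⊆ A := by
    intro w hw
    simp only [Finset.mem_insert, Finset.mem_singleton] at hw
    rcases hw with rfl | rfl | rfl | rfl | rfl <;> assumption
  have h8 : ({p, q, p1, p2, q1} : Finset V).card = 5 := by
    rw [Finset.card_insert_of_notMem, Finset.card_insert_of_notMem, Finset.card_insert_of_notMem,
      Finset.card_pair d6]
    · simp only [Finset.mem_insert, Finset.mem_singleton, not_or]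
      exact ⟨d4, d5⟩
    · simp only [Finset.mem_insert, Finset.mem_singleton, not_or]
      exact ⟨d1.symm, d2.symm, hq1.symm⟩
    · simp only [Finset.mem_insert, Finset.mem_singleton, not_or]
      exact ⟨hpq, hp1.symm, hp2.symm, d3.symm⟩
  have h9 := Finset.card_le_card h7
  rw [h8] at h9
  omega

end H165R2.F5
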