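import Mathlib
import Pool.Agent.H165R2.F5.Stubs

/-! # GI: girth at least four -/

set_option autoImplicit false

open Finset

namespace H165R2.F5

namespace GIx

variable {V E : Type} [DecidableEq V] [DecidableEq E]

/-- degree counting -/
theorem hs {Vs : Finset V} {Es : Finset E} {inc : E → Finset V} {M : Finset E}
    (I : Inst Vs Es inc M) (X : Finset V) (hX : X ⊆ Vs) :
    3 * X.card = (cut Es inc X).card + 2 * (Es.filter (fun e => (inc e ∩ X).card = 2)).card := by
  have e1 : 3 * X.card = ∑ v ∈ X, (Es.filter (fun e => v ∈ inc e)).card := by
    rw [Finset.sum_congr rfl (fun v hv => I.three v (hX hv)), Finset.sum_const, smul_eq_mul,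
      mul_comm]
  have e2 : ∑ v ∈ X, (Es.filter (fun e => v ∈ inc e)).card = ∑ e ∈ Es, (inc e ∩ X).card := by
    simp only [Finset.card_filter]
    rw [Finset.sum_comm]
    apply Finset.sum_congr rfl
    intro e _
    rw [← Finset.card_filter, Finset.inter_comm, Finset.filter_mem_eq_inter]
  rw [e1, e2]
  unfold cut
  rw [Finset.card_filter, Finset.card_filter, Finset.mul_sum, ← Finset.sum_add_distrib]
  apply Finset.sum_congr rfl
  intro e he
  have h1 : (inc e ∩ X).card ≤ 2 := by
    rw [← I.two e he]
    exact Finset.card_le_card Finset.inter_subset_left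
  have h2 : (inc e ∩ X).card = 0 ∨ (inc e ∩ X).card = 1 ∨ (inc e ∩ X).card = 2 := by omega
  rcases h2 with h | h | h <;> rw [h] <;> norm_num

end GIx

open GIx in
theorem T_GI : S_GI := by
  intro V E _ _ Vs Es inc M I h6 hcut
  refine ⟨?_, ?_⟩
  · intro e he f hf hne hinc
    have h1 := hs I (inc e) (I.sub e he)
    have h2 := I.two e he
    have h3 := hcut (inc e) (I.sub e he) (by omega) (by omega)
    have h4 : 2 ≤ (Es.filter (fun g => (inc g ∩ inc e).card = 2)).card := by
      have h5 : ({e, f} : Finset E) ⊆ Es.filter (fun g => (inc g ∩ inc e).card = 2) := by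
        intro g hg
        rw [Finset.mem_insert, Finset.mem_singleton] at hg
        rcases hg with rfl | rfl
        · exact Finset.mem_filter.mpr ⟨he, by rw [Finset.inter_self]; exact h2⟩
        · exact Finset.mem_filter.mpr ⟨hf, by rw [← hinc, Finset.inter_self]; exact h2⟩
      have h6 := Finset.card_le_card h5
      rwa [Finset.card_pair hne] at h6
    omega
  · intro e he f hf g hg p q r hpq hqr hpr he' hf' hg'
    have hef : e ≠ f := by
      rintro rfl
      have : r ∈ ({p, q} : Finset V) := by
        rw [← he', hf']
        simp
      rw [Finset.mem_insert, Finset.mem_singleton] at this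
      rcases this with h | h
      · exact hpr h.symm
      · exact hqr h.symm
    have heg : e ≠ g := by
      rintro rfl
      have : r ∈ ({p, q} : Finset V) := by
        rw [← he', hg']
        simp
      rw [Finset.mem_insert, Finset.mem_singleton] at this
      rcases this with h | h
      · exact hpr h.symm
      · exact hqr h.symm
    have hfg : f ≠ g := by
      rintro rfl
      have : p ∈ ({q, r} : Finset V) := by
        rw [← hf', hg']
        simp
      rw [Finset.mem_insert, Finset.mem_singleton] at this
      rcases this with h | h
      · exact hpq h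
      · exact hpr h
    have hX : ({p, q, r} : Finset V) ⊆ Vs := by
      intro v hv
      rw [Finset.mem_insert, Finset.mem_insert, Finset.mem_singleton] at hv
      rcases hv with rfl | rfl | rfl
      · exact I.sub e he (by rw [he']; simp)
      · exact I.sub e he (by rw [he']; simp)
      · exact I.sub f hf (by rw [hf']; simp)
    have hXc : ({p, q, r} : Finset V).card = 3 := by
      rw [Finset.card_eq_three]
      exact ⟨p, q, r, hpq, hpr, hqr, rfl⟩
    have h1 := hs I {p, q, r} hX
    have h3 := hcut {p, q, r} hX (by omega) (by omega)
    have h4 : 3 ≤ (Es.filter (fun g => (inc g ∩ {p, q, r}).card = 2)).card := by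
      have h5 : ({e, f, g} : Finset E) ⊆
          Es.filter (fun g => (inc g ∩ {p, q, r}).card = 2) := by
        intro k hk
        rw [Finset.mem_insert, Finset.mem_insert, Finset.mem_singleton] at hk
        rcases hk with rfl | rfl | rfl
        · refine Finset.mem_filter.mpr ⟨he, ?_⟩
          rw [Finset.inter_eq_left.mpr, I.two k he]
          rw [he']
          intro v hv
          simp only [Finset.mem_insert, Finset.mem_singleton] at hv ⊢
          tauto
        · refine Finset.mem_filter.mpr ⟨hf, ?_⟩
          rw [Finset.inter_eq_left.mpr, I.two k hf]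
          rw [hf']
          intro v hv
          simp only [Finset.mem_insert, Finset.mem_singleton] at hv ⊢
          tauto
        · refine Finset.mem_filter.mpr ⟨hg, ?_⟩
          rw [Finset.inter_eq_left.mpr, I.two k hg]
          rw [hg']
          intro v hv
          simp only [Finset.mem_insert, Finset.mem_singleton] at hv ⊢
          tauto
      have h6 := Finset.card_le_card h5
      have h7 : ({e, f, g} : Finset E).card = 3 := by
        rw [Finset.card_eq_three]
        exact ⟨e, f, g, hef, heg, hfg, rfl⟩
      rwa [h7] at h6
    omega

end H165R2.F5
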