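import Mathlib
import Pool.Agent.H165R2.F5.Stubs

/-! Task GL (gluing along a 3-cut), proved by helper924. -/
set_option autoImplicit false
open Finset

namespace H165R2.F5

theorem GLx.dg_congr {V E : Type} [DecidableEq V] [DecidableEq E] (Es : Finset E)
    (inc : E → Finset V) (X : Finset V) (S S' : Finset E)
    (h : ∀ f ∈ conE Es inc X, (f ∈ S ↔ f ∈ S')) (w : V) (hw : w ∈ X) :
    dg Es inc S w = dg Es inc S' w := by
  unfold dg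
  congr 1
  apply Finset.filter_congr
  intro e he
  constructor
  · rintro ⟨h1, h2⟩
    refine ⟨h1, (h e ?_).1 h2⟩
    unfold conE
    rw [mem_filter]
    exact ⟨he, ⟨w, mem_inter.2 ⟨h1, hw⟩⟩⟩
  · rintro ⟨h1, h2⟩
    refine ⟨h1, (h e ?_).2 h2⟩
    unfold conE
    rw [mem_filter]
    exact ⟨he, ⟨w, mem_inter.2 ⟨h1, hw⟩⟩⟩

theorem T_GL (hCD : S_CD) : S_GL := by
  intro V E _ _ Vs Es inc M X z₁ z₂ hI hX hz₁ hz₁' hz₂ hcut N₁ J₁ N₂ J₂ hP₁ hP₂ hag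
  obtain ⟨c1, -, -⟩ := hCD V E Vs Es inc M X z₁ hI hX hz₁ hz₁'
  obtain ⟨c2, -, -⟩ := hCD V E Vs Es inc M (Vs \ X) z₂ hI sdiff_subset (hX hz₂)
    (fun h => (mem_sdiff.1 h).2 hz₂)
  have hor : ∀ e ∈ Es, e ∈ conE Es inc X ∨ e ∈ conE Es inc (Vs \ X) := by
    intro e he
    have h2 := hI.two e he
    have hne : (inc e).Nonempty := by
      rw [← Finset.card_pos]; omega
    obtain ⟨p, hp⟩ := hne
    by_cases hpX : p ∈ X
    · left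
      exact mem_filter.2 ⟨he, ⟨p, mem_inter.2 ⟨hp, hpX⟩⟩⟩
    · right
      exact mem_filter.2 ⟨he, ⟨p, mem_inter.2 ⟨hp, mem_sdiff.2 ⟨hI.sub e he hp, hpX⟩⟩⟩⟩
  have hboth : ∀ e, e ∈ conE Es inc X → e ∈ conE Es inc (Vs \ X) → e ∈ cut Es inc X := by
    intro e h1 h2
    obtain ⟨he, ⟨p, hp⟩⟩ := mem_filter.1 h1
    obtain ⟨-, ⟨q, hq⟩⟩ := mem_filter.1 h2
    rw [mem_inter] at hp hq
    have hqX : q ∉ X := (mem_sdiff.1 hq.2).2
    refine mem_filter.2 ⟨he, ?_⟩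
    have htwo := hI.two e he
    have hle : (inc e ∩ X).card < (inc e).card := by
      apply Finset.card_lt_card
      refine ⟨inter_subset_left, fun hsub => ?_⟩
      exact hqX (mem_inter.1 (hsub hq.1)).2
    have hpos : 0 < (inc e ∩ X).card := Finset.card_pos.2 ⟨p, mem_inter.2 hp⟩
    omega
  have key1 : ∀ A₁ A₂ : Finset E, (∀ f ∈ cut Es inc X, (f ∈ A₁ ↔ f ∈ A₂)) →
      ∀ f ∈ conE Es inc X, (f ∈ (conE Es inc X ∩ A₁) ∪ (conE Es inc (Vs \ X) ∩ A₂) ↔ f ∈ A₁) := by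
    intro A₁ A₂ hA f hf
    rw [mem_union, mem_inter, mem_inter]
    constructor
    · rintro (⟨-, h⟩ | ⟨h', h⟩)
      · exact h
      · exact (hA f (hboth f hf h')).2 h
    · intro h
      exact Or.inl ⟨hf, h⟩
  have key2 : ∀ A₁ A₂ : Finset E, (∀ f ∈ cut Es inc X, (f ∈ A₁ ↔ f ∈ A₂)) →
      ∀ f ∈ conE Es inc (Vs \ X),
        (f ∈ (conE Es inc X ∩ A₁) ∪ (conE Es inc (Vs \ X) ∩ A₂) ↔ f ∈ A₂) := by
    intro A₁ A₂ hA f hf
    rw [mem_union, mem_inter, mem_inter]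
    constructor
    · rintro (⟨h', h⟩ | ⟨-, h⟩)
      · exact (hA f (hboth f h' hf)).1 h
      · exact h
    · intro h
      exact Or.inr ⟨hf, h⟩
  have hN := fun f hf => (hag f hf).1
  have hJ := fun f hf => (hag f hf).2
  refine ⟨(conE Es inc X ∩ N₁) ∪ (conE Es inc (Vs \ X) ∩ N₂),
    (conE Es inc X ∩ J₁) ∪ (conE Es inc (Vs \ X) ∩ J₂), ⟨?_, ?_, ?_⟩,
    key1 N₁ N₂ hN, key2 N₁ N₂ hN⟩
  · intro w hw
    by_cases hwX : w ∈ X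
    · rw [GLx.dg_congr Es inc X _ N₁ (key1 N₁ N₂ hN) w hwX, ← c1 N₁ w hwX]
      exact hP₁.one w (mem_insert_of_mem hwX)
    · have hw2 : w ∈ Vs \ X := mem_sdiff.2 ⟨hw, hwX⟩
      rw [GLx.dg_congr Es inc (Vs \ X) _ N₂ (key2 N₁ N₂ hN) w hw2, ← c2 N₂ w hw2]
      exact hP₂.one w (mem_insert_of_mem hw2)
  · intro w hw
    by_cases hwX : w ∈ X
    · rw [GLx.dg_congr Es inc X _ J₁ (key1 J₁ J₂ hJ) w hwX, ← c1 J₁ w hwX]
      exact hP₁.oddJ w (mem_insert_of_mem hwX)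
    · have hw2 : w ∈ Vs \ X := mem_sdiff.2 ⟨hw, hwX⟩
      rw [GLx.dg_congr Es inc (Vs \ X) _ J₂ (key2 J₁ J₂ hJ) w hw2, ← c2 J₂ w hw2]
      exact hP₂.oddJ w (mem_insert_of_mem hw2)
  · rintro f hf ⟨h1, h2, h3⟩
    rcases hor f hf with h | h
    · exact hP₁.disj f h ⟨h1, (key1 N₁ N₂ hN f h).1 h2, (key1 J₁ J₂ hJ f h).1 h3⟩
    · exact hP₂.disj f h ⟨h1, (key2 N₁ N₂ hN f h).1 h2, (key2 J₁ J₂ hJ f h).1 h3⟩

end H165R2.F5
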