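import Mathlib
import Pool.Agent.H165R2.F5.Stubs

set_option autoImplicit false
open Finset

namespace H165R2.F5

namespace GSx

variable {V E : Type} [DecidableEq V] [DecidableEq E]

lemma cut_compl {Vs : Finset V} {Es : Finset E} {inc : E → Finset V} {M : Finset E}
    (hI : Inst Vs Es inc M) (X : Finset V) : cut Es inc (Vs \ X) = cut Es inc X := by
  unfold cut
  refine Finset.filter_congr fun e he => ?_
  have h2 := hI.two e he
  have hs := hI.sub e he
  have h3 : inc e ∩ (Vs \ X) = inc e \ X := by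
    ext v
    simp only [mem_inter, mem_sdiff]
    constructor
    · rintro ⟨h, _, h'⟩; exact ⟨h, h'⟩
    · rintro ⟨h, h'⟩; exact ⟨h, hs h, h'⟩
  have h4 := Finset.card_sdiff_add_card_inter (inc e) X
  rw [h3]
  omega

lemma cut_sub_conE {Es : Finset E} {inc : E → Finset V} {X : Finset V} {f : E}
    (hf : f ∈ cut Es inc X) : f ∈ conE Es inc X := by
  unfold cut at hf
  unfold conE
  rw [mem_filter] at hf ⊢
  refine ⟨hf.1, ?_⟩
  rw [← Finset.card_pos, hf.2]
  exact one_pos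

lemma aux (hCD : S_CD) (hCI : S_CI) (hCH : S_CH) (hAD : S_AD) (hGL : S_GL)
    (Vs : Finset V) (Es : Finset E) (inc : E → Finset V) (M : Finset E) (A X : Finset V) (e : E)
    (hI : Inst Vs Es inc M) (hA : Hit Vs Es inc M A) (hX : X ⊆ Vs) (hc : (cut Es inc X).card = 3)
    (h3 : 3 ≤ X.card) (h3' : X.card + 3 ≤ Vs.card) (he : e ∈ conE Es inc X)
    (IH : ∀ (Vs' : Finset V) (Es' : Finset E) (inc' : E → Finset V) (A' : Finset V) (e' : E),
      Inst Vs' Es' inc' M → Hit Vs' Es' inc' M A' → A'.card ≤ A.card → e' ∈ Es' →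
      Vs'.card < Vs.card → Good Vs' Es' inc' M e') : Good Vs Es inc M e := by
  have hcard : (Vs \ X).card = Vs.card - X.card := Finset.card_sdiff_of_subset hX
  obtain ⟨z1, hz1⟩ : (Vs \ X).Nonempty := by
    rw [← Finset.card_pos]; omega
  obtain ⟨z2, hz2⟩ : X.Nonempty := by
    rw [← Finset.card_pos]; omega
  rw [mem_sdiff] at hz1
  obtain ⟨hz1V, hz1X⟩ := hz1
  have hz2V : z2 ∈ Vs := hX hz2
  have hX' : Vs \ X ⊆ Vs := sdiff_subset
  have hz2X' : z2 ∉ Vs \ X := fun h => (mem_sdiff.1 h).2 hz2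
  have hc' : (cut Es inc (Vs \ X)).card = 3 := by rw [cut_compl hI]; exact hc
  -- first contraction
  have hI1 := hCI V E Vs Es inc M X z1 hI hX hz1V hz1X hc
  obtain ⟨A1, hA1c, hA1⟩ := hCH V E Vs Es inc M X z1 hI hX hz1V hz1X hc A hA
  obtain ⟨N1, J1, heN1, hP1⟩ := IH _ _ _ A1 e hI1 hA1 hA1c he (by
    rw [Finset.card_insert_of_notMem hz1X]; omega)
  obtain ⟨-, hd1, hs1⟩ := hCD V E Vs Es inc M X z1 hI hX hz1V hz1X
  have hone1 : ((cut Es inc X).filter (· ∈ N1)).card = 1 := by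
    rw [← hd1 N1]; exact hP1.one z1 (mem_insert_self _ _)
  obtain ⟨f, hf⟩ := Finset.card_eq_one.1 hone1
  have hfmem : f ∈ (cut Es inc X).filter (· ∈ N1) := by rw [hf]; exact mem_singleton_self _
  rw [mem_filter] at hfmem
  obtain ⟨hfc, hfN1⟩ := hfmem
  have hfc' : f ∈ cut Es inc (Vs \ X) := by rw [cut_compl hI]; exact hfc
  -- second contraction
  have hI2 := hCI V E Vs Es inc M (Vs \ X) z2 hI hX' hz2V hz2X' hc'
  obtain ⟨A2, hA2c, hA2⟩ := hCH V E Vs Es inc M (Vs \ X) z2 hI hX' hz2V hz2X' hc' A hA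
  obtain ⟨N2, J2, hfN2, hP2⟩ := IH _ _ _ A2 f hI2 hA2 hA2c (cut_sub_conE hfc') (by
    rw [Finset.card_insert_of_notMem hz2X', hcard]; omega)
  obtain ⟨-, hd2, hs2⟩ := hCD V E Vs Es inc M (Vs \ X) z2 hI hX' hz2V hz2X'
  have hone2 : ((cut Es inc X).filter (· ∈ N2)).card = 1 := by
    have := hd2 N2
    rw [cut_compl hI] at this
    rw [← this]; exact hP2.one z2 (mem_insert_self _ _)
  have huniq1 : ∀ g ∈ cut Es inc X, (g ∈ N1 ↔ g = f) := by
    intro g hg
    constructor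
    · intro hgN
      have : g ∈ (cut Es inc X).filter (· ∈ N1) := mem_filter.2 ⟨hg, hgN⟩
      rw [hf] at this
      exact mem_singleton.1 this
    · rintro rfl; exact hfN1
  have huniq2 : ∀ g ∈ cut Es inc X, (g ∈ N2 ↔ g = f) := by
    intro g hg
    constructor
    · intro hgN
      have h1 : g ∈ (cut Es inc X).filter (· ∈ N2) := mem_filter.2 ⟨hg, hgN⟩
      have h2 : f ∈ (cut Es inc X).filter (· ∈ N2) := mem_filter.2 ⟨hfc, hfN2⟩
      exact Finset.card_le_one.1 hone2.le g h1 f h2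
    · rintro rfl; exact hfN2
  -- the set Q
  set Q : Finset E := (cut Es inc X).filter (· ∈ J1) with hQ
  have hQodd : Odd Q.card := by
    rw [hQ, ← hd1 J1]; exact hP1.oddJ z1 (mem_insert_self _ _)
  have hcut2 : ∀ g ∈ cut Es inc X, g ∈ conE Es inc (Vs \ X) ∧ z2 ∈ conI inc (Vs \ X) z2 g := by
    intro g hg
    have hgE : g ∈ Es := (mem_filter.1 hg).1
    have hg' : g ∈ cut Es inc (Vs \ X) := by rw [cut_compl hI]; exact hg
    have := (hs2 g hgE).2 hg'
    exact ⟨this.2, this.1⟩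
  obtain ⟨J2', hP2', hJ2'⟩ := hAD V E (insert z2 (Vs \ X)) (conE Es inc (Vs \ X))
    (conI inc (Vs \ X) z2) M N2 J2 Q z2 hI2 hP2 (mem_insert_self _ _) (by
      intro g hg
      have hg1 := (mem_filter.1 hg).1
      exact mem_filter.2 (hcut2 g hg1)) hQodd (by
      rintro g hg ⟨hgM, hgN2⟩
      obtain ⟨hg1, hg2⟩ := mem_filter.1 hg
      have : g = f := (huniq2 g hg1).1 hgN2
      subst this
      exact hP1.disj g (cut_sub_conE hg1) ⟨hgM, hfN1, hg2⟩)
  obtain ⟨N, J, hP, hN1, -⟩ := hGL V E Vs Es inc M X z1 z2 hI hX hz1V hz1X hz2 hc N1 J1 N2 J2'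
    hP1 hP2' (by
      intro g hg
      refine ⟨(huniq1 g hg).trans (huniq2 g hg).symm, ?_⟩
      obtain ⟨h1, h2⟩ := hcut2 g hg
      rw [hJ2' g h1 h2, hQ, mem_filter]
      exact ⟨fun h => ⟨hg, h⟩, fun h => h.2⟩)
  exact ⟨N, J, (hN1 e he).2 heN1, hP⟩

end GSx

open GSx in
theorem T_GS (hCD : S_CD) (hCI : S_CI) (hCH : S_CH) (hAD : S_AD) (hGL : S_GL) : S_GS := by
  intro V E _ _ Vs Es inc M A X e hI hA hX hc h3 h3' he IH
  by_cases h : (inc e ∩ X).Nonempty
  · exact aux hCD hCI hCH hAD hGL Vs Es inc M A X e hI hA hX hc h3 h3' (mem_filter.2 ⟨he, h⟩) IH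
  · have hcard : (Vs \ X).card = Vs.card - X.card := Finset.card_sdiff_of_subset hX
    refine aux hCD hCI hCH hAD hGL Vs Es inc M A (Vs \ X) e hI hA sdiff_subset
      (by rw [cut_compl hI]; exact hc) (by omega) (by omega) ?_ IH
    refine mem_filter.2 ⟨he, ?_⟩
    rw [Finset.not_nonempty_iff_eq_empty] at h
    obtain ⟨v, hv⟩ : (inc e).Nonempty := by
      rw [← Finset.card_pos, hI.two e he]; norm_num
    refine ⟨v, mem_inter.2 ⟨hv, mem_sdiff.2 ⟨hI.sub e he hv, fun hvX => ?_⟩⟩⟩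
    have : v ∈ inc e ∩ X := mem_inter.2 ⟨hv, hvX⟩
    rw [h] at this
    exact absurd this (Finset.notMem_empty v)

end H165R2.F5
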