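import Mathlib
import Pool.Agent.H165R2.F5.Stubs

/-! Task HC: representatives of odd components (helper862). -/

set_option autoImplicit false

namespace H165R2.F5

/-- HC: a set of representatives of the odd components hits every odd closed set. -/
theorem T_HC : S_HC := by
  classical
  intro V _ _ H k hk
  have hex : ∀ c : H.ConnectedComponent, ∃ v : V, H.connectedComponentMk v = c := by
    intro c
    obtain ⟨v, hv⟩ := c.nonempty_supp
    exact ⟨v, hv⟩
  choose rep hrep using hex
  have hfin : H.oddComponents.Finite := Set.toFinite _
  refine ⟨hfin.toFinset.image rep, ?_, ?_⟩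
  · refine Finset.card_image_le.trans ?_
    rw [← Set.ncard_eq_toFinset_card H.oddComponents hfin]
    exact hk
  · intro Y hY hodd
    have hreach : ∀ p q : V, H.Reachable p q → p ∈ Y → q ∈ Y := by
      rintro p q ⟨w⟩
      induction w with
      | nil => exact id
      | cons h _ ih => exact fun hp => ih (hY _ _ h hp)
    by_contra hcon
    push Not at hcon
    have heven : Even Y.card := by
      rw [Finset.card_eq_sum_card_fiberwise (f := H.connectedComponentMk)
        (t := Y.image H.connectedComponentMk)
        (fun v hv => Finset.mem_coe.2 (Finset.mem_image_of_mem _ hv))]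
      refine Finset.even_sum _ fun c hc => ?_
      obtain ⟨v, hv, hvc⟩ := Finset.mem_image.1 hc
      have hsupp : ∀ w, H.connectedComponentMk w = c → w ∈ Y := by
        intro w hw
        refine hreach v w ?_ hv
        rw [← hvc] at hw
        exact (SimpleGraph.ConnectedComponent.eq.1 hw).symm
      have hnot : ¬ Odd c.supp.ncard := by
        intro hc2
        have hmem : c ∈ H.oddComponents := hc2
        refine hcon (rep c) (Finset.mem_image_of_mem _ (hfin.mem_toFinset.2 hmem)) ?_
        exact hsupp _ (hrep c)
      rw [Nat.not_odd_iff_even] at hnot
      have hcard : (Y.filter (fun v => H.connectedComponentMk v = c)).card = c.supp.ncard := by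
        rw [← Set.ncard_coe_finset]
        congr 1
        ext w
        rw [Finset.mem_coe, Finset.mem_filter, SimpleGraph.ConnectedComponent.mem_supp_iff]
        exact ⟨fun h => h.2, fun h => ⟨hsupp w h, h⟩⟩
      rw [hcard]
      exact hnot
    exact (Nat.not_even_iff_odd.2 hodd) heven

end H165R2.F5
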