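import Mathlib
import Pool.Agent.H165R2.F5.Stubs

/-! JN: from sets to a pair of edge sets: the version of MN with types. -/
set_option autoImplicit false
open Finset

namespace H165R2.F5

namespace JNx

variable {V E : Type} [Fintype V] [Fintype E]

/-- the two ends, as a finset -/
noncomputable def inc (ends : E → Sym2 V) (e : E) : Finset V := by
  classical exact Finset.univ.filter (fun v => v ∈ ends e)

theorem mem_inc (ends : E → Sym2 V) (e : E) (v : V) : v ∈ inc ends e ↔ v ∈ ends e := by
  classical
  unfold inc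
  simp

theorem inc_eq [DecidableEq V] (ends : E → Sym2 V) {e : E} {x y : V} (hxy : x ≠ y) (hx : x ∈ ends e)
    (hy : y ∈ ends e) : inc ends e = {x, y} := by
  ext v
  rw [mem_inc, (Sym2.mem_and_mem_iff hxy).mp ⟨hx, hy⟩]
  simp

/-- crossing edges -/
theorem cross_iff [DecidableEq V] (ends : E → Sym2 V)
    (hloop : ∀ e : E, ∃ x y : V, x ≠ y ∧ x ∈ ends e ∧ y ∈ ends e) (e : E) (X : Finset V) :
    (inc ends e ∩ X).card = 1 ↔ ∃ x y : V, x ∈ ends e ∧ y ∈ ends e ∧ x ∈ X ∧ y ∉ X := by
  obtain ⟨p, q, hpq, hp, hq⟩ := hloop e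
  have he := inc_eq ends hpq hp hq
  constructor
  · intro h
    rw [he] at h
    by_cases h1 : p ∈ X
    · by_cases h2 : q ∈ X
      · exfalso
        have h3 : ({p, q} : Finset V) ∩ X = {p, q} := by
          apply Finset.inter_eq_left.mpr
          intro z hz
          simp only [Finset.mem_insert, Finset.mem_singleton] at hz
          rcases hz with rfl | rfl <;> assumption
        rw [h3, Finset.card_pair hpq] at h
        omega
      · exact ⟨p, q, hp, hq, h1, h2⟩
    · by_cases h2 : q ∈ X
      · exact ⟨q, p, hq, hp, h2, h1⟩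
      · exfalso
        have h3 : ({p, q} : Finset V) ∩ X = ∅ := by
          apply Finset.eq_empty_of_forall_notMem
          intro z hz
          simp only [Finset.mem_inter, Finset.mem_insert, Finset.mem_singleton] at hz
          rcases hz with ⟨rfl | rfl, h4⟩
          · exact h1 h4
          · exact h2 h4
        rw [h3, Finset.card_empty] at h
        omega
  · rintro ⟨x, y, hx, hy, hxX, hyX⟩
    have hxy : x ≠ y := fun h => hyX (h ▸ hxX)
    rw [inc_eq ends hxy hx hy]
    have h3 : ({x, y} : Finset V) ∩ X = {x} := by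
      ext z
      simp only [Finset.mem_inter, Finset.mem_insert, Finset.mem_singleton]
      constructor
      · rintro ⟨rfl | rfl, h4⟩
        · rfl
        · exact absurd h4 hyX
      · rintro rfl
        exact ⟨Or.inl rfl, hxX⟩
    rw [h3, Finset.card_singleton]

end JNx

theorem T_JN (hMN : S_MN) (hOC : S_OC) (hHC : S_HC) : S_JN := by
  classical
  intro V E _ _ ends hloop h3 hbr M₁ hM₁ hodd e₀
  set M : Finset E := Finset.univ.filter (fun e => e ∈ M₁) with hM
  have hMmem : ∀ e, e ∈ M ↔ e ∈ M₁ := by intro e; simp [hM]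
  have hcut : ∀ (X : Finset V) (e : E), e ∈ cut Finset.univ (JNx.inc ends) X ↔
      ∃ x y : V, x ∈ ends e ∧ y ∈ ends e ∧ x ∈ X ∧ y ∉ X := by
    intro X e
    unfold cut
    rw [Finset.mem_filter, JNx.cross_iff ends hloop e X]
    simp
  have hdg1 : ∀ (N : Finset E) (v : V), dg Finset.univ (JNx.inc ends) N v = 1 ↔
      ∃! e : E, e ∈ N ∧ v ∈ ends e := by
    intro N v
    unfold dg
    rw [Finset.card_eq_one]
    constructor
    · rintro ⟨a, ha⟩
      have h1 : ∀ e, (e ∈ N ∧ v ∈ ends e) ↔ e = a := by
        intro e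
        have := Finset.ext_iff.mp ha e
        simp only [Finset.mem_filter, Finset.mem_univ, true_and, Finset.mem_singleton, JNx.mem_inc]
          at this
        rw [and_comm]
        exact this
      exact ⟨a, (h1 a).mpr rfl, fun b hb => (h1 b).mp hb⟩
    · rintro ⟨a, ha, hu⟩
      refine ⟨a, ?_⟩
      ext e
      simp only [Finset.mem_filter, Finset.mem_univ, true_and, Finset.mem_singleton, JNx.mem_inc]
      constructor
      · intro h
        exact hu e ⟨h.2, h.1⟩
      · rintro rfl
        exact ⟨ha.2, ha.1⟩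
  have hinst : Inst (Finset.univ : Finset V) (Finset.univ : Finset E) (JNx.inc ends) M := by
    refine ⟨fun e _ => Finset.subset_univ _, ?_, ?_, ?_, ?_⟩
    · intro e _
      obtain ⟨p, q, hpq, hp, hq⟩ := hloop e
      rw [JNx.inc_eq ends hpq hp hq, Finset.card_pair hpq]
    · intro v _
      rw [← h3 v, Set.ncard_eq_toFinset_card']
      congr 1
      ext e
      simp [JNx.mem_inc]
    · intro X hX
      rw [Finset.card_eq_one] at hX
      obtain ⟨b, hb⟩ := hX
      refine hbr (X : Set V) b ?_
      intro e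
      have h1 := hcut X e
      rw [hb, Finset.mem_singleton] at h1
      rw [h1]
      simp
    · intro v _
      have h1 : dg Finset.univ (JNx.inc ends) M v = 1 := by
        rw [hdg1]
        obtain ⟨a, ha, hu⟩ := hM₁ v
        exact ⟨a, ⟨(hMmem a).mpr ha.1, ha.2⟩, fun b hb => hu b ⟨(hMmem b).mp hb.1, hb.2⟩⟩
      rw [h1]
      exact odd_one
  obtain ⟨A, hA4, hA⟩ := hHC V (offGraph ends M₁) 4 hodd
  have hhit : Hit (Finset.univ : Finset V) (Finset.univ : Finset E) (JNx.inc ends) M A := by
    intro Y _ hcl hYodd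
    refine hA Y ?_ hYodd
    rintro p q ⟨hpq, e, he, hp, hq⟩ hpY
    by_contra hqY
    refine hcl e (Finset.mem_univ _) (fun h => he ((hMmem e).mp h)) ?_
    rw [JNx.cross_iff ends hloop]
    exact ⟨p, q, hp, hq, hpY, hqY⟩
  obtain ⟨N, J, heN, hP⟩ := hMN V E Finset.univ Finset.univ (JNx.inc ends) M A e₀ hinst hhit hA4
    (Finset.mem_univ _)
  refine ⟨(N : Set E), (J : Set E), by simpa using heN, ?_, ?_, ?_, ?_⟩
  · intro v
    have := (hdg1 N v).mp (hP.one v (Finset.mem_univ _))
    simpa using this
  · intro v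
    have h1 := hP.oddJ v (Finset.mem_univ _)
    have h2 : {e : E | e ∈ (J : Set E) ∧ v ∈ ends e}.ncard = dg Finset.univ (JNx.inc ends) J v := by
      rw [Set.ncard_eq_toFinset_card']
      unfold dg
      congr 1
      ext e
      simp [JNx.mem_inc, and_comm]
    rw [h2]
    exact h1
  · intro e h
    exact hP.disj e (Finset.mem_univ _) ⟨(hMmem e).mpr h.1, by simpa using h.2.1, by simpa using h.2.2⟩
  · intro S hS hall
    set X : Finset V := Finset.univ.filter (fun v => v ∈ S) with hX
    have hXm : ∀ v, v ∈ X ↔ v ∈ S := by intro v; simp [hX]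
    have hc : ∀ e, e ∈ cut Finset.univ (JNx.inc ends) X ↔
        ∃ x y : V, x ∈ ends e ∧ y ∈ ends e ∧ x ∈ S ∧ y ∉ S := by
      intro e
      rw [hcut X e]
      simp only [hXm]
    have hS' : Odd (cut Finset.univ (JNx.inc ends) X).card := by
      have h2 : {e : E | ∃ x y : V, x ∈ ends e ∧ y ∈ ends e ∧ x ∈ S ∧ y ∉ S}.ncard =
          (cut Finset.univ (JNx.inc ends) X).card := by
        rw [Set.ncard_eq_toFinset_card']
        congr 1
        ext e
        rw [hc e]
        simp
      rw [← h2]
      exact hS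
    obtain ⟨f, hf, hfn⟩ := hOC V E Finset.univ Finset.univ (JNx.inc ends) M N J hinst hP X hS'
    have := hall f ((hc f).mp hf)
    exact hfn ⟨(hMmem f).mpr this.1, by simpa using this.2⟩

end H165R2.F5
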