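import Mathlib
import Pool.Agent.H165R2.F5.Stubs

/-! F5 project: the main induction (MN). -/
set_option autoImplicit false
open Finset

namespace H165R2.F5

theorem MNx.main (hRI : S_RI) (hRH : S_RH) (hRG : S_RG) (hGS : S_GS) (hC4 : S_C4) (hFC : S_FC)
    (hBS : S_BS) (V E : Type) [DecidableEq V] [DecidableEq E] (M : Finset E) :
    ∀ (n : ℕ) (Vs : Finset V) (Es : Finset E) (inc : E → Finset V) (A : Finset V) (e : E),
      Vs.card = n → Inst Vs Es inc M → Hit Vs Es inc M A → A.card ≤ 4 → e ∈ Es →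
      Good Vs Es inc M e := by
  intro n
  induction n using Nat.strong_induction_on with
  | _ n ih =>
    intro Vs Es inc A e hn hI hA hA4 he
    rcases Nat.lt_or_ge Vs.card 6 with h6 | h6
    · exact hBS V E Vs Es inc M e hI h6 he
    by_cases hX : ∃ X ⊆ Vs, 3 ≤ X.card ∧ X.card + 3 ≤ Vs.card ∧ (cut Es inc X).card = 3
    · obtain ⟨X, hXs, hX3, hX3', hXc⟩ := hX
      refine hGS V E Vs Es inc M A X e hI hA hXs hXc hX3 hX3' he ?_
      intro Vs' Es' inc' A' e' hI' hA' hAc he' hlt
      exact ih Vs'.card (by omega) Vs' Es' inc' A' e' rfl hI' hA' (by omega) he'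
    · have hcut : Cut4 Vs Es inc := by
        refine hC4 V E Vs Es inc M hI h6 ?_
        intro X h1 h2 h3 h4
        exact hX ⟨X, h1, h2, h3, h4⟩
      obtain ⟨x, y, a, b, u, v, exy, eyv, eyb, exu, exa, hC, hx, hy, hnear⟩ :=
        hFC V E Vs Es inc M A e hI h6 hcut hA hA4 he
      have hxy1 : x ∈ inc exy := by rw [hC.hxy.2.1]; simp
      have hy2 : y ∈ inc eyv := by rw [hC.hyv.2.1]; simp
      have hy3 : y ∈ inc eyb := by rw [hC.hyb.2.1]; simp
      have hred : e ∈ redE Es exy eyv eyb := by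
        unfold redE
        rw [mem_erase, mem_erase, mem_erase]
        refine ⟨?_, ?_, ?_, he⟩
        · rintro rfl; exact hy hy3
        · rintro rfl; exact hy hy2
        · rintro rfl; exact hx hxy1
      have hxV : x ∈ Vs := hI.sub exy hC.hxy.1 hxy1
      have hlt : ((Vs.erase x).erase y).card < n := by
        have h1 : (Vs.erase x).card < Vs.card := card_erase_lt_of_mem hxV
        have h2 : ((Vs.erase x).erase y).card ≤ (Vs.erase x).card := card_erase_le
        omega
      obtain ⟨A', hA'c, hA'⟩ := hRH V E Vs Es inc M x y a b u v exy eyv eyb exu exa hI hC A hA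
      have hI' := hRI V E Vs Es inc M x y a b u v exy eyv eyb exu exa hI hcut hC
      have hgood := ih _ hlt ((Vs.erase x).erase y) (redE Es exy eyv eyb)
        (redI inc a b u v exu exa) A' e rfl hI' hA' (by omega) hred
      exact hRG V E Vs Es inc M x y a b u v exy eyv eyb exu exa hI hC e he hx hy hnear hgood

theorem T_MN (hRI : S_RI) (hRH : S_RH) (hRG : S_RG) (hGS : S_GS) (hC4 : S_C4) (hFC : S_FC)
    (hBS : S_BS) : S_MN := by
  intro V E _ _ Vs Es inc M A e hI hA hA4 he
  exact MNx.main hRI hRH hRG hGS hC4 hFC hBS V E M Vs.card Vs Es inc A e rfl hI hA hA4 he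

end H165R2.F5
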