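import Mathlib
import Pool.Agent.H165R2.F5.Stubs

/-! OC: the intersection of the two matchings contains no odd cut (helper20). -/
set_option autoImplicit false
open Finset

namespace H165R2.F5

namespace OCx

variable {V E : Type} [DecidableEq V] [DecidableEq E]

/-- handshake modulo 2 -/
theorem hand (Vs : Finset V) (Es : Finset E) (inc : E → Finset V) (S : Finset E) (X : Finset V)
    (hsub : ∀ e ∈ Es, inc e ⊆ Vs) (htwo : ∀ e ∈ Es, (inc e).card = 2) :
    (∑ v ∈ X ∩ Vs, dg Es inc S v) % 2 = ((cut Es inc X).filter (· ∈ S)).card % 2 := by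
  have h1 : ∑ v ∈ X ∩ Vs, dg Es inc S v =
      ∑ e ∈ Es.filter (· ∈ S), (inc e ∩ X).card := by
    have h2 : ∀ v, dg Es inc S v = ((Es.filter (· ∈ S)).filter (fun e => v ∈ inc e)).card := by
      intro v
      unfold dg
      congr 1
      ext e
      simp only [mem_filter]
      tauto
    have h3 : ∀ e ∈ Es.filter (· ∈ S), (inc e ∩ X).card =
        ((X ∩ Vs).filter (fun v => v ∈ inc e)).card := by
      intro e he
      congr 1
      ext v
      simp only [mem_filter, mem_inter]
      constructor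
      · rintro ⟨h4, h5⟩
        exact ⟨⟨h5, hsub e (mem_filter.1 he).1 h4⟩, h4⟩
      · rintro ⟨⟨h4, _⟩, h5⟩
        exact ⟨h5, h4⟩
    rw [Finset.sum_congr rfl h3]
    simp only [h2, Finset.card_filter]
    rw [Finset.sum_comm]
  rw [h1, Finset.sum_nat_mod]
  have h4 : ∀ e ∈ Es.filter (· ∈ S), (inc e ∩ X).card % 2 =
      if (inc e ∩ X).card = 1 then 1 else 0 := by
    intro e he
    have h5 : (inc e ∩ X).card ≤ 2 := by
      rw [← htwo e (mem_filter.1 he).1]
      exact Finset.card_le_card inter_subset_left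
    split_ifs with h6
    · rw [h6]
    · omega
  rw [Finset.sum_congr rfl h4, ← Finset.card_filter]
  congr 2
  unfold cut
  ext e
  simp only [mem_filter]
  tauto

theorem sum_odd (s : Finset V) (f : V → ℕ) (h : ∀ v ∈ s, Odd (f v)) :
    (∑ v ∈ s, f v) % 2 = s.card % 2 := by
  rw [Finset.sum_nat_mod, Finset.sum_congr rfl (fun v hv => Nat.odd_iff.1 (h v hv))]
  simp

end OCx

open OCx

theorem T_OC : S_OC := by
  intro V E _ _ Vs Es inc M N J hI hP X hX
  have h1 := hand Vs Es inc J X hI.sub hI.two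
  have h2 := hand Vs Es inc Es X hI.sub hI.two
  rw [sum_odd _ _ (fun v hv => hP.oddJ v (mem_inter.1 hv).2)] at h1
  have h3 : ∀ v ∈ X ∩ Vs, Odd (dg Es inc Es v) := by
    intro v hv
    have h4 : dg Es inc Es v = 3 := by
      rw [← hI.three v (mem_inter.1 hv).2]
      unfold dg
      congr 1
      ext e
      simp only [mem_filter]
      tauto
    rw [h4]
    decide
  rw [sum_odd _ _ h3] at h2
  have h5 : (cut Es inc X).filter (· ∈ Es) = cut Es inc X := by
    apply Finset.filter_true_of_mem
    intro e he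
    exact (mem_filter.1 he).1
  rw [h5] at h2
  have h6 : ((cut Es inc X).filter (· ∈ J)).card % 2 = 1 := by
    rw [← h1, h2]
    exact Nat.odd_iff.1 hX
  have h7 : ((cut Es inc X).filter (· ∈ J)).Nonempty := by
    rw [← Finset.card_pos]
    omega
  obtain ⟨f, hf⟩ := h7
  rw [mem_filter] at hf
  refine ⟨f, hf.1, fun h => ?_⟩
  exact hP.disj f (mem_filter.1 hf.1).1 ⟨h.1, h.2, hf.2⟩

end H165R2.F5
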