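import Mathlib
import Pool.Agent.H165R2.F5.Stubs

/-! RG: lifting a good pair from the reduced graph (helper724). -/

set_option autoImplicit false
open Finset

namespace H165R2.F5

namespace RGx

variable {V E : Type} [DecidableEq V] [DecidableEq E]

omit [DecidableEq V] in
theorem card3 (p q r : E) (S : Finset E) (h1 : p ≠ q) (h2 : p ≠ r) (h3 : q ≠ r) :
    (({p, q, r} : Finset E).filter (· ∈ S)).card =
      (if p ∈ S then 1 else 0) + ((if q ∈ S then 1 else 0) + (if r ∈ S then 1 else 0)) := by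
  rw [card_filter, sum_insert (by simp [h1, h2]), sum_insert (by simp [h3]), sum_singleton]

theorem dg_star (Es : Finset E) (inc : E → Finset V) (S : Finset E) (w : V) (p q r : E)
    (h : Es.filter (fun e => w ∈ inc e) = {p, q, r}) (h1 : p ≠ q) (h2 : p ≠ r) (h3 : q ≠ r) :
    dg Es inc S w =
      (if p ∈ S then 1 else 0) + ((if q ∈ S then 1 else 0) + (if r ∈ S then 1 else 0)) := by
  rw [← card3 p q r S h1 h2 h3, ← h, filter_filter]
  rfl

omit [DecidableEq V] in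
theorem exists_lift (S' : Finset E) (c : Prop) (exy eyv eyb exu exa : E) (h1 : exy ≠ eyv)
    (h2 : exy ≠ eyb) (h3 : eyv ≠ eyb) :
    ∃ S : Finset E, (exy ∈ S ↔ c) ∧ (eyv ∈ S ↔ exu ∈ S') ∧ (eyb ∈ S ↔ exa ∈ S') ∧
      ∀ f, f ≠ exy → f ≠ eyv → f ≠ eyb → (f ∈ S ↔ f ∈ S') := by
  classical
  refine ⟨(insert exy (insert eyv (insert eyb S'))).filter (fun f => (f = exy ∧ c) ∨
    (f = eyv ∧ exu ∈ S') ∨ (f = eyb ∧ exa ∈ S') ∨ (f ≠ exy ∧ f ≠ eyv ∧ f ≠ eyb ∧ f ∈ S')),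
    ?_, ?_, ?_, ?_⟩
  · simp [h1, h2]
  · simp [h1.symm, h3]
  · simp [h2.symm, h3.symm]
  · intro f hf1 hf2 hf3
    simp [hf1, hf2, hf3]

end RGx

theorem T_RG (hDR : S_DR) (hSX : S_SX) : S_RG := by
  intro V E _ _ Vs Es inc M x y a b u v exy eyv eyb exu exa hI hC e he hxe hye hnear hG
  obtain ⟨N', J', heN, hP⟩ := hG
  obtain ⟨hsx, hsy, d1, d2, d3, d4, d5, d6, d7, d8, d9, d10⟩ :=
    hSX V E Vs Es inc M x y a b u v exy eyv eyb exu exa hI hC
  have hmem : ∀ f, f ∈ redE Es exy eyv eyb ↔ f ∈ Es ∧ f ≠ exy ∧ f ≠ eyv ∧ f ≠ eyb := by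
    intro f
    simp only [redE, mem_erase]
    tauto
  have e1 : e ≠ exy := by
    rintro rfl
    exact hxe (by rw [hC.hxy.2.1]; simp)
  have e2 : e ≠ eyv := by
    rintro rfl
    exact hye (by rw [hC.hyv.2.1]; simp)
  have e3 : e ≠ eyb := by
    rintro rfl
    exact hye (by rw [hC.hyb.2.1]; simp)
  have e4 : e ≠ exu := by
    rintro rfl
    exact hxe (by rw [hC.hxu.2.1]; simp)
  have e5 : e ≠ exa := by
    rintro rfl
    exact hxe (by rw [hC.hxa.2.1]; simp)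
  have her : e ∈ redE Es exy eyv eyb := (hmem e).2 ⟨he, e1, e2, e3⟩
  have hur : exu ∈ redE Es exy eyv eyb := (hmem exu).2 ⟨hC.hxu.1, d1.symm, d7, d8⟩
  have har : exa ∈ redE Es exy eyv eyb := (hmem exa).2 ⟨hC.hxa.1, d2.symm, d9, d10⟩
  have ie : redI inc a b u v exu exa e = inc e := by
    unfold redI
    rw [Function.update_of_ne e5, Function.update_of_ne e4]
  have ia : redI inc a b u v exu exa exa = {a, b} := by
    unfold redI
    rw [Function.update_self]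
  have iu : redI inc a b u v exu exa exu = {u, v} := by
    unfold redI
    rw [Function.update_of_ne d3, Function.update_self]
  have two : ∀ (w : V) (f : E), w ∈ (Vs.erase x).erase y → f ∈ redE Es exy eyv eyb → f ≠ e →
      w ∈ inc e → w ∈ redI inc a b u v exu exa f → f ∉ N' := by
    intro w f hw hf hfe hwe hwf hfN
    have h1 := hP.one w hw
    have h2 : ({e, f} : Finset E) ⊆ (redE Es exy eyv eyb).filter
        (fun g => w ∈ redI inc a b u v exu exa g ∧ g ∈ N') := by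
      intro g hg
      rw [mem_insert, mem_singleton] at hg
      rw [mem_filter]
      rcases hg with rfl | rfl
      · exact ⟨her, by rw [ie]; exact hwe, heN⟩
      · exact ⟨hf, hwf, hfN⟩
    have h3 := card_le_card h2
    rw [card_pair hfe.symm] at h3
    unfold dg at h1
    omega
  have memVs : ∀ w : V, w ∈ inc e → w ≠ x → w ≠ y → w ∈ (Vs.erase x).erase y := by
    intro w hw h1 h2
    exact mem_erase.2 ⟨h2, mem_erase.2 ⟨h1, hI.sub e he hw⟩⟩
  have hnot : ¬ (exu ∈ N' ∧ exa ∈ N') := by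
    rintro ⟨h1, h2⟩
    rcases hnear with h | h | h | h
    · exact two a exa (memVs a h hC.na.1 hC.na.2) har e5.symm h (by rw [ia]; simp) h2
    · exact two b exa (memVs b h hC.nb.1 hC.nb.2) har e5.symm h (by rw [ia]; simp) h2
    · exact two u exu (memVs u h hC.nu.1 hC.nu.2) hur e4.symm h (by rw [iu]; simp) h1
    · exact two v exu (memVs v h hC.nv.1 hC.nv.2) hur e4.symm h (by rw [iu]; simp) h1
  obtain ⟨N, n1, n2, n3, n4⟩ := RGx.exists_lift N' (exu ∉ N' ∧ exa ∉ N') exy eyv eyb exu exa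
    d4 d5 d6
  obtain ⟨J, j1, j2, j3, j4⟩ := RGx.exists_lift J' (exu ∈ J' ↔ exa ∈ J') exy eyv eyb exu exa
    d4 d5 d6
  have n5 : exu ∈ N ↔ exu ∈ N' := n4 exu d1.symm d7 d8
  have n6 : exa ∈ N ↔ exa ∈ N' := n4 exa d2.symm d9 d10
  have j5 : exu ∈ J ↔ exu ∈ J' := j4 exu d1.symm d7 d8
  have j6 : exa ∈ J ↔ exa ∈ J' := j4 exa d2.symm d9 d10
  have hdg : ∀ S S' : Finset E, (∀ f, f ≠ exy → f ≠ eyv → f ≠ eyb → (f ∈ S ↔ f ∈ S')) →
      (eyv ∈ S ↔ exu ∈ S') → (eyb ∈ S ↔ exa ∈ S') → (exu ∈ S ↔ exu ∈ S') →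
      (exa ∈ S ↔ exa ∈ S') → ∀ w : V, w ≠ x → w ≠ y →
      dg Es inc S w = dg (redE Es exy eyv eyb) (redI inc a b u v exu exa) S' w := by
    intro S S' h1 h2 h3 h4 h5 w hwx hwy
    rw [← hDR V E Vs Es inc M x y a b u v exy eyv eyb exu exa hI hC S (h2.trans h4.symm)
      (h3.trans h5.symm) w hwx hwy]
    unfold dg
    congr 1
    apply filter_congr
    intro f hf
    obtain ⟨-, hf1, hf2, hf3⟩ := (hmem f).1 hf
    rw [h1 f hf1 hf2 hf3]
  refine ⟨N, J, (n4 e e1 e2 e3).2 heN, ⟨?_, ?_, ?_⟩⟩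
  · intro w hw
    by_cases hwx : w = x
    · rw [hwx, RGx.dg_star Es inc N x exy exu exa hsx d1 d2 d3]
      simp only [n1, n5, n6]
      by_cases h1 : exu ∈ N' <;> by_cases h2 : exa ∈ N' <;> simp_all
    · by_cases hwy : w = y
      · rw [hwy, RGx.dg_star Es inc N y exy eyv eyb hsy d4 d5 d6]
        simp only [n1, n2, n3]
        by_cases h1 : exu ∈ N' <;> by_cases h2 : exa ∈ N' <;> simp_all
      · rw [hdg N N' n4 n2 n3 n5 n6 w hwx hwy]
        exact hP.one w (mem_erase.2 ⟨hwy, mem_erase.2 ⟨hwx, hw⟩⟩)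
  · intro w hw
    by_cases hwx : w = x
    · rw [hwx, RGx.dg_star Es inc J x exy exu exa hsx d1 d2 d3]
      simp only [j1, j5, j6]
      by_cases h1 : exu ∈ J' <;> by_cases h2 : exa ∈ J' <;> simp [h1, h2] <;> decide
    · by_cases hwy : w = y
      · rw [hwy, RGx.dg_star Es inc J y exy eyv eyb hsy d4 d5 d6]
        simp only [j1, j2, j3]
        by_cases h1 : exu ∈ J' <;> by_cases h2 : exa ∈ J' <;> simp [h1, h2] <;> decide
      · rw [hdg J J' j4 j2 j3 j5 j6 w hwx hwy]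
        exact hP.oddJ w (mem_erase.2 ⟨hwy, mem_erase.2 ⟨hwx, hw⟩⟩)
  · rintro f hf ⟨hfM, hfN, hfJ⟩
    by_cases f1 : f = exy
    · rw [f1] at hfM
      exact hC.hxy.2.2 hfM
    · by_cases f2 : f = eyb
      · rw [f2] at hfM
        exact hC.hyb.2.2 hfM
      · by_cases f3 : f = eyv
        · rw [f3] at hfN hfJ
          exact hP.disj exu hur ⟨hC.hxu.2.2, n2.1 hfN, j2.1 hfJ⟩
        · exact hP.disj f ((hmem f).2 ⟨hf, f1, f3, f2⟩)
            ⟨hfM, (n4 f f1 f3 f2).1 hfN, (j4 f f1 f3 f2).1 hfJ⟩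

end H165R2.F5
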