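import Mathlib
import Pool.Agent.H165R2.F5.Stubs

/-! RH: a hitting set for the reduced graph. -/
set_option autoImplicit false
open Finset

namespace H165R2.F5

namespace RHx

variable {V E : Type} [DecidableEq V] [DecidableEq E]

theorem pair_in {p q : V} {Y : Finset V} (h : p ≠ q) (hp : p ∈ Y) (hq : q ∈ Y) :
    (({p, q} : Finset V) ∩ Y).card ≠ 1 := by
  have h1 : ({p, q} : Finset V) ∩ Y = {p, q} := by
    apply Finset.inter_eq_left.2
    intro z hz
    rcases Finset.mem_insert.1 hz with rfl | hz
    · exact hp
    · rw [Finset.mem_singleton.1 hz]; exact hq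
  rw [h1, Finset.card_pair h]
  norm_num

theorem pair_out {p q : V} {Y : Finset V} (hp : p ∉ Y) (hq : q ∉ Y) :
    (({p, q} : Finset V) ∩ Y).card ≠ 1 := by
  have h1 : ({p, q} : Finset V) ∩ Y = ∅ := by
    ext z
    simp only [Finset.mem_inter, Finset.mem_insert, Finset.mem_singleton, Finset.notMem_empty,
      iff_false, not_and]
    rintro (rfl | rfl)
    · exact hp
    · exact hq
  rw [h1]
  simp

theorem pair_iff {p q : V} {Y : Finset V} (h : (({p, q} : Finset V) ∩ Y).card ≠ 1) :
    p ∈ Y ↔ q ∈ Y := by
  have key : ∀ p q : V, (({p, q} : Finset V) ∩ Y).card ≠ 1 → p ∈ Y → q ∈ Y := by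
    intro p q h hp
    by_contra hq
    apply h
    have h1 : ({p, q} : Finset V) ∩ Y = {p} := by
      ext z
      simp only [Finset.mem_inter, Finset.mem_insert, Finset.mem_singleton]
      constructor
      · rintro ⟨rfl | rfl, hz⟩
        · rfl
        · exact absurd hz hq
      · rintro rfl
        exact ⟨Or.inl rfl, hp⟩
    rw [h1, Finset.card_singleton]
  refine ⟨key p q h, key q p ?_⟩
  rwa [Finset.pair_comm]

end RHx

open RHx in
theorem T_RH (hSX : S_SX) : S_RH := by
  intro V E _ _ Vs Es inc M x y a b u v exy eyv eyb exu exa hI hC A hA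
  obtain ⟨hx, hy, n1, n2, n3, n4, n5, n6, n7, n8, n9, n10⟩ :=
    hSX V E Vs Es inc M x y a b u v exy eyv eyb exu exa hI hC
  have hxV : x ∈ Vs := by
    apply hI.sub exy hC.hxy.1
    rw [hC.hxy.2.1]; simp
  have hyV : y ∈ Vs := by
    apply hI.sub exy hC.hxy.1
    rw [hC.hxy.2.1]; simp
  set A0 := (A.erase x).erase y with hA0
  set A' : Finset V := if x ∈ A ∨ y ∈ A then insert a A0 else A0 with hA'
  have hsub : A0 ⊆ A' := by
    rw [hA']
    split_ifs
    · exact Finset.subset_insert _ _
    · exact subset_rfl
  have hmem0 : ∀ z ∈ A, z ≠ x → z ≠ y → z ∈ A' := by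
    intro z hz h1 h2
    apply hsub
    rw [hA0, Finset.mem_erase, Finset.mem_erase]
    exact ⟨h2, h1, hz⟩
  have hmema : (x ∈ A ∨ y ∈ A) → a ∈ A' := by
    intro h
    rw [hA', if_pos h]
    exact Finset.mem_insert_self _ _
  refine ⟨A', ?_, ?_⟩
  · rw [hA']
    split_ifs with h
    · refine (Finset.card_insert_le _ _).trans ?_
      have h1 : A0.card < A.card := by
        apply Finset.card_lt_card
        refine ⟨fun z hz => Finset.mem_of_mem_erase (Finset.mem_of_mem_erase hz), fun hc => ?_⟩
        rcases h with h | h
        · have := hc h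
          rw [hA0, Finset.mem_erase, Finset.mem_erase] at this
          exact this.2.1 rfl
        · have := hc h
          rw [hA0, Finset.mem_erase] at this
          exact this.1 rfl
      omega
    · exact Finset.card_le_card fun z hz => Finset.mem_of_mem_erase (Finset.mem_of_mem_erase hz)
  · intro Y' hY' hcl hodd
    have hxY : x ∉ Y' := fun h => by
      have := hY' h
      rw [Finset.mem_erase, Finset.mem_erase] at this
      exact this.2.1 rfl
    have hyY : y ∉ Y' := fun h => by
      have := hY' h
      rw [Finset.mem_erase] at this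
      exact this.1 rfl
    have hYV : Y' ⊆ Vs := fun z hz =>
      Finset.mem_of_mem_erase (Finset.mem_of_mem_erase (hY' hz))
    -- the edge exa
    have hab : a ∈ Y' ↔ b ∈ Y' := by
      apply pair_iff
      have h1 : exa ∈ redE Es exy eyv eyb := by
        unfold redE
        rw [Finset.mem_erase, Finset.mem_erase, Finset.mem_erase]
        exact ⟨n10, n9, n2.symm, hC.hxa.1⟩
      have h2 := hcl exa h1 hC.hxa.2.2
      unfold redI at h2
      rwa [Function.update_self] at h2
    -- the other edges
    have hoth : ∀ e ∈ Es, e ∉ M → e ≠ exy → e ≠ eyb → e ≠ exa →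
        x ∉ inc e ∧ y ∉ inc e ∧ (inc e ∩ Y').card ≠ 1 := by
      intro e he heM e1 e2 e3
      have e4 : e ≠ exu := fun h => heM (h ▸ hC.hxu.2.2)
      have e5 : e ≠ eyv := fun h => heM (h ▸ hC.hyv.2.2)
      refine ⟨fun h => ?_, fun h => ?_, ?_⟩
      · have : e ∈ Es.filter (fun e => x ∈ inc e) := Finset.mem_filter.2 ⟨he, h⟩
        rw [hx] at this
        simp only [Finset.mem_insert, Finset.mem_singleton] at this
        rcases this with h | h | h
        · exact e1 h
        · exact e4 h
        · exact e3 h
      · have : e ∈ Es.filter (fun e => y ∈ inc e) := Finset.mem_filter.2 ⟨he, h⟩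
        rw [hy] at this
        simp only [Finset.mem_insert, Finset.mem_singleton] at this
        rcases this with h | h | h
        · exact e1 h
        · exact e5 h
        · exact e2 h
      · have h1 : e ∈ redE Es exy eyv eyb := by
          unfold redE
          rw [Finset.mem_erase, Finset.mem_erase, Finset.mem_erase]
          exact ⟨e2, e5, e1, he⟩
        have h2 := hcl e h1 heM
        unfold redI at h2
        rwa [Function.update_of_ne e3, Function.update_of_ne e4] at h2
    by_cases haY : a ∈ Y'
    · have hbY := hab.1 haY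
      set Y := insert x (insert y Y') with hY
      have hxin : x ∈ Y := Finset.mem_insert_self _ _
      have hyin : y ∈ Y := Finset.mem_insert_of_mem (Finset.mem_insert_self _ _)
      have hin : ∀ z ∈ Y', z ∈ Y := fun z hz =>
        Finset.mem_insert_of_mem (Finset.mem_insert_of_mem hz)
      have hYs : Y ⊆ Vs := by
        intro z hz
        rw [hY, Finset.mem_insert, Finset.mem_insert] at hz
        rcases hz with rfl | rfl | hz
        · exact hxV
        · exact hyV
        · exact hYV hz
      have hcl' : Closed Es inc M Y := by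
        intro e he heM
        by_cases e1 : e = exy
        · rw [e1, hC.hxy.2.1]
          exact pair_in hC.nxy hxin hyin
        by_cases e2 : e = eyb
        · rw [e2, hC.hyb.2.1]
          exact pair_in hC.nb.2.symm hyin (hin b hbY)
        by_cases e3 : e = exa
        · rw [e3, hC.hxa.2.1]
          exact pair_in hC.na.1.symm hxin (hin a haY)
        obtain ⟨h1, h2, h3⟩ := hoth e he heM e1 e2 e3
        have h4 : inc e ∩ Y = inc e ∩ Y' := by
          rw [hY, Finset.inter_insert_of_notMem h1, Finset.inter_insert_of_notMem h2]
        rwa [h4]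
      have hodd' : Odd Y.card := by
        have h1 : y ∉ Y' := hyY
        have h2 : x ∉ insert y Y' := by
          rw [Finset.mem_insert]
          rintro (h | h)
          · exact hC.nxy h
          · exact hxY h
        rw [hY, Finset.card_insert_of_notMem h2, Finset.card_insert_of_notMem h1]
        obtain ⟨k, hk⟩ := hodd
        exact ⟨k + 1, by omega⟩
      obtain ⟨w, hwA, hwY⟩ := hA Y hYs hcl' hodd'
      by_cases hw : w = x ∨ w = y
      · refine ⟨a, hmema ?_, haY⟩
        rcases hw with rfl | rfl
        · exact Or.inl hwA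
        · exact Or.inr hwA
      · push Not at hw
        refine ⟨w, hmem0 w hwA hw.1 hw.2, ?_⟩
        rw [hY, Finset.mem_insert, Finset.mem_insert] at hwY
        rcases hwY with h | h | h
        · exact absurd h hw.1
        · exact absurd h hw.2
        · exact h
    · have hbY : b ∉ Y' := fun h => haY (hab.2 h)
      have hcl' : Closed Es inc M Y' := by
        intro e he heM
        by_cases e1 : e = exy
        · rw [e1, hC.hxy.2.1]
          exact pair_out hxY hyY
        by_cases e2 : e = eyb
        · rw [e2, hC.hyb.2.1]
          exact pair_out hyY hbY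
        by_cases e3 : e = exa
        · rw [e3, hC.hxa.2.1]
          exact pair_out hxY haY
        exact (hoth e he heM e1 e2 e3).2.2
      obtain ⟨w, hwA, hwY⟩ := hA Y' hYV hcl' hodd
      refine ⟨w, hmem0 w hwA ?_ ?_, hwY⟩
      · rintro rfl
        exact hxY hwY
      · rintro rfl
        exact hyY hwY

end H165R2.F5
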