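import Mathlib
import Pool.Agent.H165R2.F5.Stubs

/-! RI: the reduced graph is an instance. -/
set_option autoImplicit false
open Finset

namespace H165R2.F5

theorem T_RI (hDR : S_DR) (hRB : S_RB) (hSX : S_SX) : S_RI := by
  intro V E _ _ Vs Es inc M x y a b u v exy eyv eyb exu exa inst c4 conf
  obtain ⟨hx, hy, h1, h2, h3, h4, h5, h6, h7, h8, h9, h10⟩ :=
    hSX V E Vs Es inc M x y a b u v exy eyv eyb exu exa inst conf
  have hDR' := hDR V E Vs Es inc M x y a b u v exy eyv eyb exu exa inst conf
  have hRB' := hRB V E Vs Es inc M x y a b u v exy eyv eyb exu exa inst c4 conf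
  obtain ⟨⟨cxy1, cxy2, cxy3⟩, ⟨cyv1, cyv2, cyv3⟩, ⟨cyb1, cyb2, cyb3⟩, ⟨cxu1, cxu2, cxu3⟩,
    ⟨cxa1, cxa2, cxa3⟩, nxy, na, nb, nu, nv, nab, nuv⟩ := conf
  -- membership of the vertices
  have ha : a ∈ Vs := inst.sub exa cxa1 (by rw [cxa2]; simp)
  have hb : b ∈ Vs := inst.sub eyb cyb1 (by rw [cyb2]; simp)
  have hu : u ∈ Vs := inst.sub exu cxu1 (by rw [cxu2]; simp)
  have hv : v ∈ Vs := inst.sub eyv cyv1 (by rw [cyv2]; simp)
  have mE : ∀ e, e ∈ redE Es exy eyv eyb ↔ e ≠ eyb ∧ e ≠ eyv ∧ e ≠ exy ∧ e ∈ Es := by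
    intro e
    simp [redE, Finset.mem_erase]
  have ia : redI inc a b u v exu exa exa = {a, b} := by simp [redI]
  have iu : redI inc a b u v exu exa exu = {u, v} := by
    simp [redI, Function.update_of_ne h3]
  have io : ∀ e, e ≠ exu → e ≠ exa → redI inc a b u v exu exa e = inc e := by
    intro e he1 he2
    simp [redI, Function.update_of_ne he1, Function.update_of_ne he2]
  have nx : ∀ e ∈ redE Es exy eyv eyb, e ≠ exu → e ≠ exa → x ∉ inc e := by
    intro e he he1 he2 hxe
    rw [mE] at he
    have : e ∈ Es.filter (fun e => x ∈ inc e) := Finset.mem_filter.2 ⟨he.2.2.2, hxe⟩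
    rw [hx] at this
    simp only [Finset.mem_insert, Finset.mem_singleton] at this
    tauto
  have ny : ∀ e ∈ redE Es exy eyv eyb, y ∉ inc e := by
    intro e he hye
    rw [mE] at he
    have : e ∈ Es.filter (fun e => y ∈ inc e) := Finset.mem_filter.2 ⟨he.2.2.2, hye⟩
    rw [hy] at this
    simp only [Finset.mem_insert, Finset.mem_singleton] at this
    tauto
  refine ⟨?_, ?_, ?_, hRB', ?_⟩
  · intro e he
    by_cases e1 : e = exa
    · subst e1
      rw [ia]
      intro w hw
      simp only [Finset.mem_insert, Finset.mem_singleton] at hw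
      rcases hw with rfl | rfl
      · simp [na.1, na.2, ha]
      · simp [nb.1, nb.2, hb]
    by_cases e2 : e = exu
    · subst e2
      rw [iu]
      intro w hw
      simp only [Finset.mem_insert, Finset.mem_singleton] at hw
      rcases hw with rfl | rfl
      · simp [nu.1, nu.2, hu]
      · simp [nv.1, nv.2, hv]
    rw [io e e2 e1]
    intro w hw
    simp only [Finset.mem_erase]
    refine ⟨?_, ?_, inst.sub e ((mE e).1 he).2.2.2 hw⟩
    · rintro rfl
      exact ny e he hw
    · rintro rfl
      exact nx e he e2 e1 hw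
  · intro e he
    by_cases e1 : e = exa
    · subst e1
      rw [ia]
      exact Finset.card_pair nab
    by_cases e2 : e = exu
    · subst e2
      rw [iu]
      exact Finset.card_pair nuv
    rw [io e e2 e1]
    exact inst.two e ((mE e).1 he).2.2.2
  · intro w hw
    simp only [Finset.mem_erase] at hw
    have h := hDR' Es (by simp [cyv1, cxu1]) (by simp [cyb1, cxa1]) w hw.2.1 hw.1
    have e1 : dg (redE Es exy eyv eyb) (redI inc a b u v exu exa) Es w =
        ((redE Es exy eyv eyb).filter (fun e => w ∈ redI inc a b u v exu exa e)).card := by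
      unfold dg
      congr 1
      apply Finset.filter_congr
      intro e he
      have := ((mE e).1 he).2.2.2
      simp [this]
    have e2 : dg Es inc Es w = (Es.filter (fun e => w ∈ inc e)).card := by
      unfold dg
      congr 1
      apply Finset.filter_congr
      intro e he
      simp [he]
    rw [← e1, h, e2]
    exact inst.three w hw.2.2
  · intro w hw
    simp only [Finset.mem_erase] at hw
    have h := hDR' M (by simp [cyv3, cxu3]) (by simp [cyb3, cxa3]) w hw.2.1 hw.1
    rw [h]
    exact inst.odd w hw.2.2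

end H165R2.F5
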