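import Mathlib
import Pool.Agent.H165R2.F5.Stubs

/-! SX: the stars of `x` and `y`. -/
set_option autoImplicit false
open Finset

namespace H165R2.F5

theorem T_SX : S_SX := by
  intro V E _ _ Vs Es inc M x y a b u v exy eyv eyb exu exa hI hC
  obtain ⟨⟨hxyE, hxyi, hxyM⟩, ⟨hyvE, hyvi, hyvM⟩, ⟨hybE, hybi, hybM⟩, ⟨hxuE, hxui, hxuM⟩,
    ⟨hxaE, hxai, hxaM⟩, nxy, ⟨nax, nay⟩, ⟨nbx, nby⟩, ⟨nux, nuy⟩, ⟨nvx, nvy⟩, nab, nuv⟩ := hC
  have d1 : exy ≠ exu := fun h => hxyM (h ▸ hxuM)
  have d2 : exy ≠ exa := by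
    intro h
    have h1 : y ∈ inc exa := by rw [← h, hxyi]; simp
    rw [hxai] at h1
    simp only [mem_insert, mem_singleton] at h1
    rcases h1 with h1 | h1
    · exact nxy h1.symm
    · exact nay h1.symm
  have d3 : exu ≠ exa := fun h => hxaM (h ▸ hxuM)
  have d4 : exy ≠ eyv := fun h => hxyM (h ▸ hyvM)
  have d5 : exy ≠ eyb := by
    intro h
    have h1 : x ∈ inc eyb := by rw [← h, hxyi]; simp
    rw [hybi] at h1
    simp only [mem_insert, mem_singleton] at h1
    rcases h1 with h1 | h1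
    · exact nxy h1
    · exact nbx h1.symm
  have d6 : eyv ≠ eyb := fun h => hybM (h ▸ hyvM)
  have d7 : exu ≠ eyv := by
    intro h
    have h1 : x ∈ inc eyv := by rw [← h, hxui]; simp
    rw [hyvi] at h1
    simp only [mem_insert, mem_singleton] at h1
    rcases h1 with h1 | h1
    · exact nxy h1
    · exact nvx h1.symm
  have d8 : exu ≠ eyb := fun h => hybM (h ▸ hxuM)
  have d9 : exa ≠ eyv := fun h => hxaM (h ▸ hyvM)
  have d10 : exa ≠ eyb := by
    intro h
    have h1 : x ∈ inc eyb := by rw [← h, hxai]; simp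
    rw [hybi] at h1
    simp only [mem_insert, mem_singleton] at h1
    rcases h1 with h1 | h1
    · exact nxy h1
    · exact nbx h1.symm
  have hx : x ∈ Vs := hI.sub exy hxyE (by rw [hxyi]; simp)
  have hy : y ∈ Vs := hI.sub exy hxyE (by rw [hxyi]; simp)
  refine ⟨?_, ?_, d1, d2, d3, d4, d5, d6, d7, d8, d9, d10⟩
  · symm
    apply Finset.eq_of_subset_of_card_le
    · intro e he
      simp only [mem_insert, mem_singleton] at he
      rw [mem_filter]
      rcases he with rfl | rfl | rfl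
      · exact ⟨hxyE, by rw [hxyi]; simp⟩
      · exact ⟨hxuE, by rw [hxui]; simp⟩
      · exact ⟨hxaE, by rw [hxai]; simp⟩
    · rw [hI.three x hx, Finset.card_eq_three.mpr ⟨exy, exu, exa, d1, d2, d3, rfl⟩]
  · symm
    apply Finset.eq_of_subset_of_card_le
    · intro e he
      simp only [mem_insert, mem_singleton] at he
      rw [mem_filter]
      rcases he with rfl | rfl | rfl
      · exact ⟨hxyE, by rw [hxyi]; simp⟩
      · exact ⟨hyvE, by rw [hyvi]; simp⟩
      · exact ⟨hybE, by rw [hybi]; simp⟩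
    · rw [hI.three y hy, Finset.card_eq_three.mpr ⟨exy, eyv, eyb, d4, d5, d6, rfl⟩]

end H165R2.F5
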