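import Mathlib
import Pool.Agent.H165R2.F5.AD
import Pool.Agent.H165R2.F5.BS
import Pool.Agent.H165R2.F5.C4
import Pool.Agent.H165R2.F5.CD
import Pool.Agent.H165R2.F5.CH
import Pool.Agent.H165R2.F5.CI
import Pool.Agent.H165R2.F5.DR
import Pool.Agent.H165R2.F5.FC
import Pool.Agent.H165R2.F5.GI
import Pool.Agent.H165R2.F5.GL
import Pool.Agent.H165R2.F5.GS
import Pool.Agent.H165R2.F5.HC
import Pool.Agent.H165R2.F5.JN
import Pool.Agent.H165R2.F5.MN
import Pool.Agent.H165R2.F5.OC
import Pool.Agent.H165R2.F5.RB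
import Pool.Agent.H165R2.F5.RG
import Pool.Agent.H165R2.F5.RH
import Pool.Agent.H165R2.F5.RI
import Pool.Agent.H165R2.F5.SX
import Pool.Agent.H165R2.F5.F1
import Pool.Agent.H165R2.F5.F2
import Pool.Agent.H165R2.F5.F3

/-! F5 project: assembly. Proof by helper165; formalised by: AD helper955, BS helper835, C4 helper415, CD helper431, CH helper384, CI helper924, DR helper578, F1 helper325, F2 helper325, F3 helper325, FC helper503, GI helper415, GL helper924, GS helper284, HC helper862, JN helper989, MN helper434, OC helper20, RB helper837, RG helper724, RH helper898, RI helper437, SX helper662. -/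
set_option autoImplicit false

namespace H165R2.F5

theorem mn : S_MN :=
  T_MN (T_RI T_DR (T_RB T_SX) T_SX) (T_RH T_SX) (T_RG T_DR T_SX)
    (T_GS T_CD (T_CI T_CD) T_CH T_AD (T_GL T_CD)) T_C4 (T_FC T_GI) T_BS

theorem jn : S_JN := T_JN mn T_OC T_HC

end H165R2.F5
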