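import Mathlib
import Pool.Agent.H165R2.F5.Stubs

/-! F5 project, task RB: the reduced graph is bridgeless. -/
set_option autoImplicit false
open Finset

namespace H165R2.F5

namespace RBx

theorem pair_card {V : Type} [DecidableEq V] (p q : V) (h : p ≠ q) (Z : Finset V) :
    (({p, q} : Finset V) ∩ Z).card = 1 ↔ ¬ (p ∈ Z ↔ q ∈ Z) := by
  by_cases hp : p ∈ Z <;> by_cases hq : q ∈ Z
  · rw [insert_inter_of_mem hp, singleton_inter_of_mem hq, card_pair h]
    simp [hp, hq]
  · rw [insert_inter_of_mem hp, singleton_inter_of_notMem hq]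
    simp [hp, hq]
  · rw [insert_inter_of_notMem hp, singleton_inter_of_mem hq]
    simp [hp, hq]
  · rw [insert_inter_of_notMem hp, singleton_inter_of_notMem hq]
    simp [hp, hq]

end RBx

open RBx in
theorem T_RB (hSX : S_SX) : S_RB := by
  intro V E _ _ Vs Es inc M x y a b u v exy eyv eyb exu exa hI h4 hC X hX
  obtain ⟨sx, sy, d1, d2, d3, d4, d5, d6, d7, d8, d9, d10⟩ :=
    hSX V E Vs Es inc M x y a b u v exy eyv eyb exu exa hI hC
  obtain ⟨⟨m1, i1, n1⟩, ⟨m2, i2, n2⟩, ⟨m3, i3, n3⟩, ⟨m4, i4, n4⟩, ⟨m5, i5, n5⟩, nxy, ⟨na1, na2⟩,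
    ⟨nb1, nb2⟩, ⟨nu1, nu2⟩, ⟨nv1, nv2⟩, nab, nuv⟩ := hC
  obtain ⟨R, hR⟩ : ∃ R, R = Es.filter
    (fun e => e ≠ exy ∧ e ≠ eyv ∧ e ≠ eyb ∧ e ≠ exu ∧ e ≠ exa) := ⟨_, rfl⟩
  have memR : ∀ e, e ∈ R ↔ e ∈ Es ∧ (e ≠ exy ∧ e ≠ eyv ∧ e ≠ eyb ∧ e ≠ exu ∧ e ≠ exa) := by
    intro e; rw [hR, mem_filter]
  have hEs : Es = insert exy (insert eyv (insert eyb (insert exu (insert exa R)))) := by
    ext e
    simp only [mem_insert, memR]
    constructor
    · intro h
      by_cases c1 : e = exy
      · exact Or.inl c1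
      by_cases c2 : e = eyv
      · exact Or.inr (Or.inl c2)
      by_cases c3 : e = eyb
      · exact Or.inr (Or.inr (Or.inl c3))
      by_cases c4 : e = exu
      · exact Or.inr (Or.inr (Or.inr (Or.inl c4)))
      by_cases c5 : e = exa
      · exact Or.inr (Or.inr (Or.inr (Or.inr (Or.inl c5))))
      exact Or.inr (Or.inr (Or.inr (Or.inr (Or.inr ⟨h, c1, c2, c3, c4, c5⟩))))
    · rintro (h | h | h | h | h | h)
      · rw [h]; exact m1
      · rw [h]; exact m2
      · rw [h]; exact m3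
      · rw [h]; exact m4
      · rw [h]; exact m5
      · exact h.1
  have hred : redE Es exy eyv eyb = insert exu (insert exa R) := by
    ext e
    unfold redE
    simp only [mem_insert, mem_erase, memR]
    constructor
    · rintro ⟨c3, c2, c1, h⟩
      by_cases c4 : e = exu
      · exact Or.inl c4
      by_cases c5 : e = exa
      · exact Or.inr (Or.inl c5)
      exact Or.inr (Or.inr ⟨h, c1, c2, c3, c4, c5⟩)
    · rintro (h | h | h)
      · rw [h]; exact ⟨d8, d7, d1.symm, m4⟩
      · rw [h]; exact ⟨d10, d9, d2.symm, m5⟩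
      · exact ⟨h.2.2.2.1, h.2.2.1, h.2.1, h.1⟩
  have hRx : ∀ e ∈ R, x ∉ inc e := by
    intro e he hx
    have h1 := (memR e).1 he
    have h2 : e ∈ Es.filter (fun e => x ∈ inc e) := mem_filter.2 ⟨h1.1, hx⟩
    rw [sx] at h2
    simp only [mem_insert, mem_singleton] at h2
    rcases h2 with h2 | h2 | h2
    · exact h1.2.1 h2
    · exact h1.2.2.2.2.1 h2
    · exact h1.2.2.2.2.2 h2
  have hRy : ∀ e ∈ R, y ∉ inc e := by
    intro e he hx
    have h1 := (memR e).1 he
    have h2 : e ∈ Es.filter (fun e => y ∈ inc e) := mem_filter.2 ⟨h1.1, hx⟩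
    rw [sy] at h2
    simp only [mem_insert, mem_singleton] at h2
    rcases h2 with h2 | h2 | h2
    · exact h1.2.1 h2
    · exact h1.2.2.1 h2
    · exact h1.2.2.2.1 h2
  have r1 : exy ∉ R := fun h => ((memR _).1 h).2.1 rfl
  have r2 : eyv ∉ R := fun h => ((memR _).1 h).2.2.1 rfl
  have r3 : eyb ∉ R := fun h => ((memR _).1 h).2.2.2.1 rfl
  have r4 : exu ∉ R := fun h => ((memR _).1 h).2.2.2.2.1 rfl
  have g1 : exa ∉ R := fun h => ((memR _).1 h).2.2.2.2.2 rfl
  have g2 : exu ∉ insert exa R := by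
    simp only [mem_insert, not_or]
    exact ⟨d3, r4⟩
  obtain ⟨f, hf⟩ : ∃ f : Finset V → ℕ, f = fun Z => ∑ e ∈ R, if (inc e ∩ Z).card = 1 then 1 else 0 :=
    ⟨_, rfl⟩
  have cutG : ∀ Z, (cut Es inc Z).card = (if ¬ (x ∈ Z ↔ y ∈ Z) then 1 else 0) +
      ((if ¬ (y ∈ Z ↔ v ∈ Z) then 1 else 0) + ((if ¬ (y ∈ Z ↔ b ∈ Z) then 1 else 0) +
      ((if ¬ (x ∈ Z ↔ u ∈ Z) then 1 else 0) + ((if ¬ (x ∈ Z ↔ a ∈ Z) then 1 else 0) + f Z)))) := by
    intro Z
    unfold cut
    have g3 : eyb ∉ insert exu (insert exa R) := by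
      simp only [mem_insert, not_or]
      exact ⟨d8.symm, d10.symm, r3⟩
    have g4 : eyv ∉ insert eyb (insert exu (insert exa R)) := by
      simp only [mem_insert, not_or]
      exact ⟨d6, d7.symm, d9.symm, r2⟩
    have g5 : exy ∉ insert eyv (insert eyb (insert exu (insert exa R))) := by
      simp only [mem_insert, not_or]
      exact ⟨d4, d5, d1, d2, r1⟩
    rw [card_filter, hEs, sum_insert g5, sum_insert g4, sum_insert g3, sum_insert g2,
      sum_insert g1, i1, i2, i3, i4, i5, hf]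
    simp only [pair_card x y nxy, pair_card y v nv2.symm, pair_card y b nb2.symm,
      pair_card x u nu1.symm, pair_card x a na1.symm]
  have cutR : ∀ Z, (cut (redE Es exy eyv eyb) (redI inc a b u v exu exa) Z).card =
      (if ¬ (u ∈ Z ↔ v ∈ Z) then 1 else 0) + ((if ¬ (a ∈ Z ↔ b ∈ Z) then 1 else 0) + f Z) := by
    intro Z
    unfold cut
    have j1 : redI inc a b u v exu exa exu = {u, v} := by
      unfold redI
      rw [Function.update_of_ne d3, Function.update_self]
    have j2 : redI inc a b u v exu exa exa = {a, b} := by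
      unfold redI
      rw [Function.update_self]
    have j3 : ∀ e ∈ R, redI inc a b u v exu exa e = inc e := by
      intro e he
      have := (memR e).1 he
      unfold redI
      rw [Function.update_of_ne this.2.2.2.2.2, Function.update_of_ne this.2.2.2.2.1]
    rw [card_filter, hred, sum_insert g2, sum_insert g1, j1, j2, hf]
    simp only [pair_card u v nuv, pair_card a b nab]
    congr 2
    refine sum_congr rfl fun e he => ?_
    rw [j3 e he]
  have aVs : a ∈ Vs := hI.sub exa m5 (by rw [i5]; simp)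
  have bVs : b ∈ Vs := hI.sub eyb m3 (by rw [i3]; simp)
  have uVs : u ∈ Vs := hI.sub exu m4 (by rw [i4]; simp)
  have vVs : v ∈ Vs := hI.sub eyv m2 (by rw [i2]; simp)
  have xVs : x ∈ Vs := hI.sub exy m1 (by rw [i1]; simp)
  have yVs : y ∈ Vs := hI.sub exy m1 (by rw [i1]; simp)
  obtain ⟨X1, hX1⟩ : ∃ X1, X1 = (X ∩ Vs).filter (fun w => w ≠ x ∧ w ≠ y) := ⟨_, rfl⟩
  have mem1 : ∀ w, w ∈ X1 ↔ (w ∈ X ∧ w ∈ Vs) ∧ w ≠ x ∧ w ≠ y := by
    intro w; rw [hX1, mem_filter, mem_inter]
  have hf1 : f X1 = f X := by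
    rw [hf]
    refine sum_congr rfl fun e he => ?_
    have : inc e ∩ X1 = inc e ∩ X := by
      ext w
      simp only [mem_inter, mem1]
      constructor
      · rintro ⟨h1, h2⟩
        exact ⟨h1, h2.1.1⟩
      · rintro ⟨h1, h2⟩
        refine ⟨h1, ⟨h2, hI.sub e ((memR e).1 he).1 h1⟩, ?_, ?_⟩
        · rintro rfl; exact hRx e he h1
        · rintro rfl; exact hRy e he h1
    rw [this]
  have hf2 : f (insert x (insert y X1)) = f X := by
    rw [← hf1, hf]
    refine sum_congr rfl fun e he => ?_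
    have : inc e ∩ insert x (insert y X1) = inc e ∩ X1 := by
      ext w
      simp only [mem_inter, mem_insert]
      constructor
      · rintro ⟨h1, h2 | h2 | h2⟩
        · rw [h2] at h1; exact absurd h1 (hRx e he)
        · rw [h2] at h1; exact absurd h1 (hRy e he)
        · exact ⟨h1, h2⟩
      · rintro ⟨h1, h2⟩
        exact ⟨h1, Or.inr (Or.inr h2)⟩
    rw [this]
  have x1 : x ∉ X1 := fun h => ((mem1 x).1 h).2.1 rfl
  have y1 : y ∉ X1 := fun h => ((mem1 y).1 h).2.2 rfl
  have mem2 : ∀ w, w ∈ Vs → w ≠ x → w ≠ y → (w ∈ X1 ↔ w ∈ X) := fun w hw h1 h2 =>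
    ⟨fun h => ((mem1 w).1 h).1.1, fun h => (mem1 w).2 ⟨⟨h, hw⟩, h1, h2⟩⟩
  have mem3 : ∀ w, w ∈ Vs → w ≠ x → w ≠ y → (w ∈ insert x (insert y X1) ↔ w ∈ X) := by
    intro w hw h1 h2
    rw [mem_insert, mem_insert, mem2 w hw h1 h2]
    exact ⟨fun h => (h.resolve_left h1).resolve_left h2, fun h => Or.inr (Or.inr h)⟩
  have a1 := mem2 a aVs na1 na2
  have b1 := mem2 b bVs nb1 nb2
  have u1 := mem2 u uVs nu1 nu2
  have v1 := mem2 v vVs nv1 nv2
  have k1 := cutG X1
  have k2 := cutG (insert x (insert y X1))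
  have k3 := cutR X
  have q1 := hI.bridgeless X1
  have q2 := hI.bridgeless (insert x (insert y X1))
  have x2 : x ∈ insert x (insert y X1) := mem_insert_self _ _
  have y2 : y ∈ insert x (insert y X1) := mem_insert_of_mem (mem_insert_self _ _)
  have a2 := mem3 a aVs na1 na2
  have b2 := mem3 b bVs nb1 nb2
  have u2 := mem3 u uVs nu1 nu2
  have v2 := mem3 v vVs nv1 nv2
  rw [hf1] at k1
  rw [hf2] at k2
  rw [hX] at k3
  -- the cut condition
  have hsub : X1 ⊆ (Vs.erase x).erase y := by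
    intro w hw
    have h := (mem1 w).1 hw
    rw [mem_erase, mem_erase]
    exact ⟨h.2.2, h.2.1, h.1.2⟩
  have hcV : ((Vs.erase x).erase y).card + 2 = Vs.card := by
    rw [card_erase_of_mem (mem_erase.2 ⟨nxy.symm, yVs⟩), card_erase_of_mem xVs]
    have : 2 ≤ Vs.card := by
      have : ({x, y} : Finset V) ⊆ Vs := by
        intro w hw
        simp only [mem_insert, mem_singleton] at hw
        rcases hw with rfl | rfl
        · exact xVs
        · exact yVs
      have := card_le_card this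
      rwa [card_pair nxy] at this
    omega
  have hc4 : 2 ≤ X1.card → 4 ≤ (cut Es inc X1).card := by
    intro h2
    refine h4 X1 ?_ h2 ?_
    · intro w hw
      exact ((mem1 w).1 hw).1.2
    · have := card_le_card hsub
      omega
  have hab : a ∈ X → b ∈ X → 2 ≤ X1.card := by
    intro ha hb
    have : ({a, b} : Finset V) ⊆ X1 := by
      intro w hw
      simp only [mem_insert, mem_singleton] at hw
      rcases hw with rfl | rfl
      · exact a1.2 ha
      · exact b1.2 hb
    have := card_le_card this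
    rwa [card_pair nab] at this
  have huv : u ∈ X → v ∈ X → 2 ≤ X1.card := by
    intro ha hb
    have : ({u, v} : Finset V) ⊆ X1 := by
      intro w hw
      simp only [mem_insert, mem_singleton] at hw
      rcases hw with rfl | rfl
      · exact u1.2 ha
      · exact v1.2 hb
    have := card_le_card this
    rwa [card_pair nuv] at this
  by_cases ha : a ∈ X <;> by_cases hb : b ∈ X <;> by_cases hu : u ∈ X <;> by_cases hv : v ∈ X <;>
    simp only [x1, y1, a1, b1, u1, v1, x2, y2, a2, b2, u2, v2, ha, hb, hu, hv, true_iff, iff_true,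
      false_iff, iff_false, not_true_eq_false, not_false_eq_true, if_true, if_false,
      forall_true_left] at k1 k2 k3 hab huv <;>
    omega

end H165R2.F5
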